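import Mathlib

/-!
# H84 CY RAT: a polynomial with values in `F` on `F` and a zero at `θ`

`F` infinite, `K / F` a field extension, `θ : K` algebraic with minimal polynomial of degree `n`, `P : K[X]` with
`P t ∈ F` for all `t ∈ F` and `P θ = 0`.

`rat_poly`: `P = Q.map (algebraMap F K)` for some `Q : F[X]` (choose `N > natDegree P` different points of `F` and
interpolate over `F` (`Lagrange.interpolate`); the image of the interpolation polynomial agrees with `P` at `N`
points, both have degree `< N`; `Polynomial.eq_of_degree_sub_lt_of_eval_finset_eq` or similar. Alternatively, expand the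
coefficients of `P` in an `F`-basis of `K` containing 1).

`rat_zero`: if `natDegree P < n` then `P = 0` (`minpoly F θ ∣ Q`, `natDegree Q = natDegree P < n`).

`rat_root`: if `natDegree P <= n + 1` then `P` has a zero `t` in `F` or `P.coeff (n + 1) = 0`: `Q = minpoly * l` with
`natDegree l <= 1`; if the coefficient at `n + 1` is not zero then `l` is of degree exactly 1 and has a root in `F`.
-/

set_option autoImplicit false

universe u v w

open Polynomial

namespace Pool.Agent.H84.CY

variable {F : Type u} {K : Type v} [Field F] [Infinite F] [Field K] [Algebra F K]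

theorem rat_poly (P : K[X]) (hP : ∀ t : F, P.eval (algebraMap F K t) ∈ Set.range (algebraMap F K)) :
    ∃ Q : F[X], P = Q.map (algebraMap F K) := by
  classical
  choose r hr using hP
  obtain ⟨s, hs⟩ := Infinite.exists_subset_card_eq F (P.natDegree + 1)
  refine ⟨Lagrange.interpolate s id r, ?_⟩
  have hinj : Function.Injective (algebraMap F K) := (algebraMap F K).injective
  have hc : (s.map ⟨algebraMap F K, hinj⟩).card = P.natDegree + 1 := by
    rw [Finset.card_map, hs]
  have hQd : (Lagrange.interpolate s id r).degree < (s.card : WithBot ℕ) :=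
    Lagrange.degree_interpolate_lt r (Set.injOn_id _)
  refine Polynomial.eq_of_degrees_lt_of_eval_finset_eq (s.map ⟨algebraMap F K, hinj⟩) ?_ ?_ ?_
  · rw [hc]
    refine lt_of_le_of_lt Polynomial.degree_le_natDegree ?_
    exact_mod_cast Nat.lt_succ_self _
  · rw [Finset.card_map]
    exact lt_of_le_of_lt (Polynomial.degree_map_le) hQd
  · intro x hx
    rw [Finset.mem_map] at hx
    obtain ⟨t, ht, rfl⟩ := hx
    simp only [Function.Embedding.coeFn_mk]
    rw [Polynomial.eval_map_algebraMap, ← hr t]
    rw [Polynomial.aeval_algebraMap_apply, Polynomial.coe_aeval_eq_eval]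
    have h3 := Lagrange.eval_interpolate_at_node (s := s) (v := id) r (Set.injOn_id _) ht
    rw [id] at h3
    rw [h3]

theorem rat_zero (θ : K) (n : ℕ) (hn : (minpoly F θ).natDegree = n) (P : K[X])
    (hP : ∀ t : F, P.eval (algebraMap F K t) ∈ Set.range (algebraMap F K))
    (h0 : P.eval θ = 0) (hd : P.natDegree < n) : P = 0 := by
  obtain ⟨Q, rfl⟩ := rat_poly P hP
  rw [Polynomial.eval_map_algebraMap] at h0
  rw [Polynomial.natDegree_map] at hd
  have h1 : minpoly F θ ∣ Q := minpoly.dvd F θ h0
  have h2 : Q = 0 := Polynomial.eq_zero_of_dvd_of_natDegree_lt h1 (by omega)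
  rw [h2, Polynomial.map_zero]

theorem rat_root (θ : K) (n : ℕ) (hn : (minpoly F θ).natDegree = n) (h1 : 0 < n) (P : K[X])
    (hP : ∀ t : F, P.eval (algebraMap F K t) ∈ Set.range (algebraMap F K))
    (h0 : P.eval θ = 0) (hd : P.natDegree ≤ n + 1) :
    (∃ t : F, P.eval (algebraMap F K t) = 0) ∨ P.coeff (n + 1) = 0 := by
  obtain ⟨Q, rfl⟩ := rat_poly P hP
  by_cases hc : Q.coeff (n + 1) = 0
  · right
    rw [Polynomial.coeff_map, hc, map_zero]
  left
  rw [Polynomial.eval_map_algebraMap] at h0
  rw [Polynomial.natDegree_map] at hd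
  obtain ⟨l, hl⟩ := minpoly.dvd F θ h0
  have hQ0 : Q ≠ 0 := by
    intro h
    rw [h, Polynomial.coeff_zero] at hc
    exact hc rfl
  have hm0 : minpoly F θ ≠ 0 := by
    intro h
    rw [h, zero_mul] at hl
    exact hQ0 hl
  have hl0 : l ≠ 0 := by
    intro h
    rw [h, mul_zero] at hl
    exact hQ0 hl
  have hdeg : Q.natDegree = n + 1 :=
    le_antisymm hd (Polynomial.le_natDegree_of_ne_zero hc)
  have hld : l.natDegree = 1 := by
    have h2 := Polynomial.natDegree_mul hm0 hl0
    rw [← hl, hdeg, hn] at h2
    omega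
  obtain ⟨t, ht⟩ := Polynomial.exists_root_of_degree_eq_one
    ((Polynomial.degree_eq_iff_natDegree_eq hl0).2 (by exact_mod_cast hld))
  refine ⟨t, ?_⟩
  rw [Polynomial.eval_map_algebraMap, Polynomial.aeval_algebraMap_apply,
    Polynomial.coe_aeval_eq_eval, hl, Polynomial.eval_mul, ht.eq_zero, mul_zero, map_zero]

end Pool.Agent.H84.CY
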