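import Pool.Agent.H84.CY.StA

/-!
# H84 CY STG: an element with `x ^ 5 = δ x + γ` in every characteristic

The argument of `StA` with trace zero elements and strictly upper triangular matrices, when `5` is invertible.
-/

set_option autoImplicit false

universe u v w

open Polynomial

namespace Pool.Agent.H84.CY

/-- Strictly upper triangular. -/
def NT {K : Type w} [Field K] (M : Matrix (Fin 5) (Fin 5) K) : Prop :=
  ∀ i j : Fin 5, j ≤ i → M i j = 0

theorem stg_tri {K : Type w} [Field K] (M : Matrix (Fin 5) (Fin 5) K) (hM : NT M)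
    (i : ℕ) (hi5 : i < 5) : M.charpoly.coeff i = 0 := by
  have h3 : M.charpoly = ∏ i : Fin 5, (X - C (M i i)) :=
    Matrix.charpoly_of_isUpperTriangular M (fun i j hij => hM i j hij.le)
  have h4 : M.charpoly = X ^ 5 := by
    rw [h3, Finset.prod_congr rfl fun i _ => by rw [hM i i le_rfl, C_0, sub_zero], Finset.prod_const,
      Finset.card_univ, Fintype.card_fin]
  rw [h4, coeff_X_pow, if_neg (by omega)]

theorem stg_one {K : Type w} [Field K] {M N : Matrix (Fin 5) (Fin 5) K} {s : K} (hs : s ≠ 0)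
    (hM : NT M) (h : M = s • N) : NT N := by
  intro i j hij
  have h3 := hM i j hij
  rw [h, Matrix.smul_apply, smul_eq_mul] at h3
  exact (mul_eq_zero.mp h3).resolve_left hs

section
variable {F : Type u} {D : Type v} {K : Type w} [Field F] [Infinite F] [Ring D] [Algebra F D] [Field K]
  [Algebra F K]

theorem stg_lin0 (θ : K) (hθ : (minpoly F θ).natDegree = 5)
    (Ψ : D →ₐ[F] Matrix (Fin 5) (Fin 5) K)
    (hΨ : ∀ (x : D) (i : ℕ), (Ψ x).charpoly.coeff i ∈ Set.range (algebraMap F K)) (y0 y1 : D)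
    (hT : NT (Ψ y0 + θ • Ψ y1)) (t : F) (i : ℕ) (hi : 0 < i) (hi5 : i < 5) :
    (Ψ (y0 + t • y1)).charpoly.coeff i = 0 := by
  obtain ⟨P, hP1, hP2⟩ := deg_lin (Ψ y0) (Ψ y1) i hi5.le
  have h1 : ∀ t : F, P.eval (algebraMap F K t) = (Ψ (y0 + t • y1)).charpoly.coeff i := by
    intro t
    rw [hP2, map_add, map_smul, algebraMap_smul]
  have h2 : P = 0 := by
    refine rat_zero θ 5 hθ P (fun t => ?_) ?_ (by omega)
    · rw [h1]
      exact hΨ _ _
    · rw [hP2]
      exact stg_tri _ hT i hi5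
  rw [← h1, h2, eval_zero]

theorem stg_lin (θ : K) (hθ : (minpoly F θ).natDegree = 5)
    (Ψ : D →ₐ[F] Matrix (Fin 5) (Fin 5) K)
    (hΨ : ∀ (x : D) (i : ℕ), (Ψ x).charpoly.coeff i ∈ Set.range (algebraMap F K)) (y0 y1 : D)
    (hy : y0 ∉ Set.range (algebraMap F D) ∨ y1 ∉ Set.range (algebraMap F D))
    (hT : NT (Ψ y0 + θ • Ψ y1)) :
    ∃ x : D, x ∉ Set.range (algebraMap F D) ∧ Gd (Ψ x) := by
  have h0 := stg_lin0 θ hθ Ψ hΨ y0 y1 hT
  have hG : ∀ t : F, Gd (Ψ (y0 + t • y1)) := fun t =>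
    ⟨h0 t 4 (by norm_num) (by norm_num), h0 t 3 (by norm_num) (by norm_num),
      h0 t 2 (by norm_num) (by norm_num)⟩
  by_cases h1 : y0 ∈ Set.range (algebraMap F D)
  · have h2 : y1 ∉ Set.range (algebraMap F D) := hy.resolve_left (fun h => h h1)
    refine ⟨y0 + (1 : F) • y1, ?_, hG 1⟩
    rintro ⟨c, hc⟩
    obtain ⟨d, hd⟩ := h1
    apply h2
    refine ⟨c - d, ?_⟩
    rw [map_sub, hc, hd, one_smul]
    abel
  · refine ⟨y0, h1, ?_⟩
    have := hG 0
    rwa [zero_smul, add_zero] at this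

omit [Infinite F] in
theorem stg_scal (h5 : (5 : K) ≠ 0) (Ψ : D →ₐ[F] Matrix (Fin 5) (Fin 5) K) (x : D)
    (hx : x ∈ Set.range (algebraMap F D)) (htr : (Ψ x).trace = 0) : x = 0 := by
  obtain ⟨c, rfl⟩ := hx
  rw [sta_alg, Matrix.trace_smul, Matrix.trace_one, Fintype.card_fin, smul_eq_mul] at htr
  have h1 : algebraMap F K c = 0 := by
    rcases mul_eq_zero.mp htr with h | h
    · exact h
    · exact absurd (by exact_mod_cast h) h5
  have h2 : c = 0 := (algebraMap F K).injective (by rw [h1, map_zero])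
  rw [h2, map_zero]

theorem stg_good (h5 : (5 : K) ≠ 0) (θ : K) (hθ : (minpoly F θ).natDegree = 5)
    (Ψ : D →ₐ[F] Matrix (Fin 5) (Fin 5) K)
    (hΨ : ∀ (x : D) (i : ℕ), (Ψ x).charpoly.coeff i ∈ Set.range (algebraMap F K)) (x0 x1 x2 : D)
    (hx : x0 ∉ Set.range (algebraMap F D) ∨ x1 ∉ Set.range (algebraMap F D) ∨
      x2 ∉ Set.range (algebraMap F D))
    (ht0 : (Ψ x0).trace = 0) (ht1 : (Ψ x1).trace = 0) (ht2 : (Ψ x2).trace = 0)
    (hT : NT (Ψ x0 + θ • Ψ x1 + θ ^ 2 • Ψ x2)) :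
    ∃ x : D, x ∉ Set.range (algebraMap F D) ∧ Gd (Ψ x) := by
  by_cases hx2 : x2 ∈ Set.range (algebraMap F D)
  · have h0 : x2 = 0 := stg_scal h5 Ψ x2 hx2 ht2
    have h1 : NT (Ψ x0 + θ • Ψ x1) := by
      rw [h0, map_zero, smul_zero, add_zero] at hT
      exact hT
    refine stg_lin θ hθ Ψ hΨ x0 x1 ?_ h1
    rcases hx with h | h | h
    · exact Or.inl h
    · exact Or.inr h
    · exact absurd hx2 h
  · have hP : ∀ i : ℕ, 0 < i → i < 5 → ∃ P : K[X], P.natDegree ≤ 2 * (5 - i) ∧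
        (∀ t : F, P.eval (algebraMap F K t)
          = (Ψ (x0 + t • x1 + t ^ 2 • x2)).charpoly.coeff i) ∧ P.eval θ = 0 ∧
        P.coeff (2 * (5 - i)) = (Ψ x2).charpoly.coeff i := by
      intro i hi hi5
      obtain ⟨P, h1, h2, h3⟩ := deg_quad (Ψ x0) (Ψ x1) (Ψ x2) i hi5.le
      refine ⟨P, h1, fun t => ?_, ?_, h3⟩
      · rw [h2, map_add, map_add, map_smul, map_smul, ← map_pow, algebraMap_smul, algebraMap_smul]
      · rw [h2]
        exact stg_tri _ hT i hi5
    obtain ⟨P4, a1, a2, a3, a4⟩ := hP 4 (by norm_num) (by norm_num)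
    obtain ⟨P3, b1, b2, b3, b4⟩ := hP 3 (by norm_num) (by norm_num)
    obtain ⟨P2, c1, c2, c3, c4⟩ := hP 2 (by norm_num) (by norm_num)
    have hP4 : P4 = 0 := rat_zero θ 5 hθ P4 (fun t => by rw [a2]; exact hΨ _ _) a3 (by omega)
    have hP3 : P3 = 0 := rat_zero θ 5 hθ P3 (fun t => by rw [b2]; exact hΨ _ _) b3 (by omega)
    rcases rat_root θ 5 hθ (by norm_num) P2 (fun t => by rw [c2]; exact hΨ _ _) c3 (by omega) with
      ⟨t, ht⟩ | h6
    · have hG : Gd (Ψ (x0 + t • x1 + t ^ 2 • x2)) := by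
        refine ⟨?_, ?_, ?_⟩
        · rw [← a2, hP4, eval_zero]
        · rw [← b2, hP3, eval_zero]
        · rw [← c2, ht]
      by_cases hx' : x0 + t • x1 + t ^ 2 • x2 ∈ Set.range (algebraMap F D)
      · have e1 : t • Ψ x1 = algebraMap F K t • Ψ x1 := (algebraMap_smul K t _).symm
        have e2 : t • Ψ x2 = algebraMap F K t • Ψ x2 := (algebraMap_smul K t _).symm
        have e3 : t ^ 2 • Ψ x2 = (algebraMap F K t) ^ 2 • Ψ x2 := by
          rw [← map_pow, algebraMap_smul]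
        have h0 : x0 + t • x1 + t ^ 2 • x2 = 0 := by
          refine stg_scal h5 Ψ _ hx' ?_
          rw [map_add, map_add, map_smul, map_smul, e1, e3, Matrix.trace_add, Matrix.trace_add,
            Matrix.trace_smul, Matrix.trace_smul, ht0, ht1, ht2, smul_zero, smul_zero, add_zero, add_zero]
        have h0' : Ψ x0 + algebraMap F K t • Ψ x1 + (algebraMap F K t) ^ 2 • Ψ x2 = 0 := by
          have := congrArg Ψ h0
          rwa [map_add, map_add, map_smul, map_smul, e1, e3, map_zero] at this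
        have h1 : NT (Ψ (x1 + t • x2) + θ • Ψ x2) := by
          refine stg_one (s := θ - algebraMap F K t) (sta_ne θ hθ t) hT ?_
          have h2 : Ψ x0 = -(algebraMap F K t • Ψ x1) - (algebraMap F K t) ^ 2 • Ψ x2 := by
            rw [← sub_eq_zero, ← h0']
            abel
          rw [h2, map_add, map_smul, e2]
          module
        exact stg_lin θ hθ Ψ hΨ _ _ (Or.inr hx2) h1
      · exact ⟨_, hx', hG⟩
    · refine ⟨x2, hx2, ?_, ?_, ?_⟩
      · rw [← a4, hP4, coeff_zero]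
      · rw [← b4, hP3, coeff_zero]
      · rw [← c4]
        exact h6

end

theorem stg {F : Type u} {D : Type v} [Field F] [DivisionRing D] [Algebra F D]
    [Algebra.IsCentral F D] [FiniteDimensional F D] (h : Module.finrank F D = 5 ^ 2) :
    ∃ (x : D) (δ γ : F), x ∉ Set.range (algebraMap F D) ∧ x ^ 5 = δ • x + algebraMap F D γ := by
  by_cases h50 : (5 : F) = 0
  · have : CharP F 5 := by
      have h1 : ringChar F ∣ 5 := ringChar.dvd (by exact_mod_cast h50)
      have h2 : ringChar F ≠ 1 := CharP.ringChar_ne_one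
      have h3 : ringChar F = 5 := ((Nat.dvd_prime (by norm_num)).mp h1).resolve_left h2
      exact ringChar.of_eq h3
    exact sta h
  have : Infinite F := sta_infinite h
  obtain ⟨K, _, _, _, θ, Ψ, hK, hθ, hΨ⟩ := spl (F := F) (D := D) (p := 5) (by norm_num) h
  have h5 : (5 : K) ≠ 0 := by
    intro h0
    apply h50
    apply (algebraMap F K).injective
    rw [map_zero, map_ofNat]
    exact h0
  have hΨ' : ∀ (x : D) (i : ℕ), (Ψ x).charpoly.coeff i ∈ Set.range (algebraMap F K) := by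
    intro x i
    obtain ⟨q, _, _, _, hq⟩ := hΨ x
    rw [hq, coeff_map]
    exact ⟨_, rfl⟩
  have htr : ∀ x : D, ∃ c : F, algebraMap F K c = (Ψ x).trace := by
    intro x
    obtain ⟨c, hc⟩ := hΨ' x 4
    refine ⟨-c, ?_⟩
    rw [Matrix.trace_eq_neg_charpoly_coeff, map_neg, hc]
    simp
  obtain ⟨x0, x1, x2, hx, a, ha1, ha2⟩ := lin (F := F) (D := D) (K := K) (by rw [h]; norm_num) hK θ
    Ψ.toLinearMap
  choose c hc using htr
  set m : D → D := fun x => x - algebraMap F D (c x / 5) with hm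
  have hmtr : ∀ x, (Ψ (m x)).trace = 0 := by
    intro x
    rw [hm]
    simp only
    rw [map_sub, Matrix.trace_sub, sta_alg, Matrix.trace_smul, Matrix.trace_one, Fintype.card_fin,
      ← hc x, smul_eq_mul, map_div₀, map_ofNat]
    push_cast
    rw [div_mul_cancel₀ _ h5, sub_self]
  have hmr : ∀ x, x ∉ Set.range (algebraMap F D) → m x ∉ Set.range (algebraMap F D) := by
    rintro x hx ⟨d, hd⟩
    apply hx
    refine ⟨d + c x / 5, ?_⟩
    rw [map_add, hd]
    simp [hm]
  have hM : Ψ (m x0) + θ • Ψ (m x1) + θ ^ 2 • Ψ (m x2)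
      = (Ψ x0 + θ • Ψ x1 + θ ^ 2 • Ψ x2)
        - (algebraMap F K (c x0 / 5) + θ * algebraMap F K (c x1 / 5)
            + θ ^ 2 * algebraMap F K (c x2 / 5)) • (1 : Matrix (Fin 5) (Fin 5) K) := by
    simp only [hm, map_sub, sta_alg]
    module
  have hT : NT (Ψ (m x0) + θ • Ψ (m x1) + θ ^ 2 • Ψ (m x2)) := by
    set b := algebraMap F K (c x0 / 5) + θ * algebraMap F K (c x1 / 5)
            + θ ^ 2 * algebraMap F K (c x2 / 5) with hb
    have hd : ∀ i, (Ψ (m x0) + θ • Ψ (m x1) + θ ^ 2 • Ψ (m x2)) i i = a - b := by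
      intro i
      rw [hM, Matrix.sub_apply, Matrix.smul_apply, Matrix.one_apply_eq, smul_eq_mul, mul_one]
      congr 1
      exact ha2 i
    have htr0 : (Ψ (m x0) + θ • Ψ (m x1) + θ ^ 2 • Ψ (m x2)).trace = 0 := by
      rw [Matrix.trace_add, Matrix.trace_add, Matrix.trace_smul, Matrix.trace_smul, hmtr, hmtr, hmtr,
        smul_zero, smul_zero, add_zero, add_zero]
    have hab : a - b = 0 := by
      rw [Matrix.trace, Finset.sum_congr rfl fun i _ => by
        rw [Matrix.diag_apply, hd i], Finset.sum_const, Finset.card_univ, Fintype.card_fin,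
        nsmul_eq_mul] at htr0
      rcases mul_eq_zero.mp htr0 with h1 | h1
      · exact absurd (by exact_mod_cast h1) h5
      · exact h1
    intro i j hij
    rcases hij.lt_or_eq with h1 | h1
    · rw [hM, Matrix.sub_apply, Matrix.smul_apply, Matrix.one_apply_ne h1.ne', smul_zero, sub_zero]
      exact ha1 i j h1
    · rw [h1, hd, hab]
  obtain ⟨x, hxF, hG⟩ := stg_good h5 θ hθ Ψ hΨ' (m x0) (m x1) (m x2)
    (hx.imp (hmr _) (Or.imp (hmr _) (hmr _))) (hmtr _) (hmtr _) (hmtr _) hT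
  obtain ⟨q, hqm, hqd, hqx, hq⟩ := hΨ x
  have hinj := (algebraMap F K).injective
  have hc : ∀ i, (Ψ x).charpoly.coeff i = 0 → q.coeff i = 0 := by
    intro i hi
    rw [hq, coeff_map] at hi
    exact hinj (by rw [hi, map_zero])
  have h4 := hc 4 hG.1
  have h3 := hc 3 hG.2.1
  have h2 := hc 2 hG.2.2
  have h55 : q.coeff 5 = 1 := by
    have := hqm.coeff_natDegree
    rwa [hqd] at this
  rw [aeval_eq_sum_range' (n := 6) (by omega)] at hqx
  simp only [Finset.sum_range_succ, Finset.range_zero, Finset.sum_empty, pow_zero, pow_one, h2, h3,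
    h4, h55, zero_smul, one_smul, zero_add, add_zero] at hqx
  refine ⟨x, -q.coeff 1, -q.coeff 0, hxF, ?_⟩
  rw [map_neg, neg_smul, Algebra.algebraMap_eq_smul_one]
  rw [← sub_eq_zero, ← hqx]
  abel

end Pool.Agent.H84.CY
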