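import Mathlib

/-!
# H84 CY SUB: a domain of dimension `p ^ 2` over its centre

`A` is a domain, finite dimensional over a field `k`.

* `sub_inv`: nonzero elements are invertible (Mathlib: `IsDomain` + finite dimensional; for example
  `divisionRingOfFiniteDimensional k A`, or left multiplication is injective hence surjective).
* `sub_act_dvd`: if `A` acts `k`-linearly on a finite dimensional space `V` then `dim_k A` divides `dim_k V`
  (`A` is a division ring, `V` is free over it; `Module.compHom V f.toRingHom`,
  `Module.finrank_mul_finrank k A V`).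
* `sub_dvd`: the dimension of a subalgebra divides the dimension of `A`
  (the subalgebra acts on `A` by left multiplication; apply `sub_act_dvd`).
* `sub_minpoly`: if `A` is central of dimension `p ^ 2` and `a` is not a scalar then `minpoly k a` has degree `p`:
  `k[a] = Algebra.adjoin k {a}` has dimension `(minpoly k a).natDegree`, which divides `p ^ 2`; it is not `1`
  because `a` is not a scalar, it is not `p ^ 2` because then `A = k[a]` would be commutative and so equal to its
  centre `k`, of dimension 1.
* `sub_central`: if `a b` do not commute and `c` commutes with both then `c` is a scalar: let `C` be the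
  centralizer of `{c}`, a subalgebra which contains `a`, `b`, `c`. Its dimension divides `p ^ 2`. If `C = A` then
  `c` is central, done. Otherwise `dim C <= p`; if `c` is not a scalar then `k[c] ⊆ C` has dimension `p`,
  so `C = k[c]` is commutative, contradiction with `a b ≠ b a`.
-/

set_option autoImplicit false

universe u v w

namespace Pool.Agent.H84.CY

section
variable {k : Type u} {A : Type v} [Field k] [Ring A] [IsDomain A] [Algebra k A] [FiniteDimensional k A]

theorem sub_inv (k : Type u) {A : Type v} [Field k] [Ring A] [IsDomain A] [Algebra k A]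
    [FiniteDimensional k A] (a : A) (ha : a ≠ 0) : ∃ b : A, a * b = 1 ∧ b * a = 1 := by
  obtain ⟨u, rfl⟩ := FiniteDimensional.isUnit k ha
  exact ⟨↑u⁻¹, u.mul_inv, u.inv_mul⟩

theorem sub_act_dvd {V : Type w} [AddCommGroup V] [Module k V] [FiniteDimensional k V]
    (f : A →ₐ[k] Module.End k V) : Module.finrank k A ∣ Module.finrank k V := by
  let _ : DivisionRing A := divisionRingOfFiniteDimensional k A
  let _ : Module A V := Module.compHom V f.toRingHom
  have : IsScalarTower k A V := ⟨fun c a v => by
    change f (c • a) v = c • f a v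
    rw [map_smul, LinearMap.smul_apply]⟩
  exact Dvd.intro _ (Module.finrank_mul_finrank k A V)

theorem sub_dvd (S : Subalgebra k A) : Module.finrank k S ∣ Module.finrank k A :=
  sub_act_dvd ((Algebra.lmul k A).comp S.val)

private theorem sub_fr (a : A) :
    Module.finrank k (Algebra.adjoin k {a}) = (minpoly k a).natDegree := by
  have hint : IsIntegral k a := Algebra.IsIntegral.isIntegral a
  have hmon : (minpoly k a).Monic := minpoly.monic hint
  have hpos : 0 < (minpoly k a).natDegree := minpoly.natDegree_pos hint
  have h1 : Subalgebra.toSubmodule (Algebra.adjoin k {a}) =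
      Submodule.span k (Set.range fun i : Fin (minpoly k a).natDegree => a ^ (i : ℕ)) := by
    apply le_antisymm
    · intro x hx
      rw [Subalgebra.mem_toSubmodule, Algebra.adjoin_singleton_eq_range_aeval] at hx
      obtain ⟨q, rfl⟩ := hx
      have h2 : Polynomial.aeval a q = Polynomial.aeval a (q %ₘ minpoly k a) := by
        conv_lhs => rw [← Polynomial.modByMonic_add_div q (minpoly k a)]
        rw [map_add, map_mul, minpoly.aeval, zero_mul, add_zero]
      have h3 : (q %ₘ minpoly k a).natDegree < (minpoly k a).natDegree := by
        apply Polynomial.natDegree_modByMonic_lt q hmon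
        intro h4
        rw [h4, Polynomial.natDegree_one] at hpos
        omega
      show Polynomial.aeval a q ∈ _
      rw [h2, Polynomial.aeval_eq_sum_range' h3, ← Fin.sum_univ_eq_sum_range
        (fun i => (q %ₘ minpoly k a).coeff i • a ^ i)]
      apply Submodule.sum_mem
      intro i _
      apply Submodule.smul_mem
      exact Submodule.subset_span ⟨i, rfl⟩
    · rw [Submodule.span_le]
      rintro _ ⟨i, rfl⟩
      exact pow_mem (Algebra.subset_adjoin (Set.mem_singleton a)) _
  have h2 : Module.finrank k (Algebra.adjoin k {a}) =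
      Module.finrank k (Subalgebra.toSubmodule (Algebra.adjoin k {a})) := rfl
  rw [h2, h1, finrank_span_eq_card (linearIndependent_pow a), Fintype.card_fin]

omit [IsDomain A] [FiniteDimensional k A] in
private theorem sub_comm (a x y : A) (hx : x ∈ Algebra.adjoin k {a})
    (hy : y ∈ Algebra.adjoin k {a}) : x * y = y * x := by
  rw [Algebra.adjoin_singleton_eq_range_aeval] at hx hy
  obtain ⟨q, rfl⟩ := hx
  obtain ⟨r, rfl⟩ := hy
  show Polynomial.aeval a q * Polynomial.aeval a r = Polynomial.aeval a r * Polynomial.aeval a q
  rw [← map_mul, ← map_mul, mul_comm]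

private theorem sub_top [Algebra.IsCentral k A] {p : ℕ} (hp : p.Prime)
    (h : Module.finrank k A = p ^ 2) (hc : ∀ x y : A, x * y = y * x) : False := by
  have h1 : (⊤ : Subalgebra k A) ≤ ⊥ := by
    intro x _
    apply Algebra.IsCentral.out
    rw [Subalgebra.mem_center_iff]
    intro b
    exact hc b x
  have h2 : (⊥ : Subalgebra k A) = ⊤ := (top_le_iff.mp h1)
  rw [Subalgebra.bot_eq_top_iff_finrank_eq_one, h] at h2
  have := hp.two_le
  nlinarith

theorem sub_minpoly [Algebra.IsCentral k A] {p : ℕ} (hp : p.Prime) (h : Module.finrank k A = p ^ 2)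
    (a : A) (ha : a ∉ Set.range (algebraMap k A)) : (minpoly k a).natDegree = p := by
  have h1 : (minpoly k a).natDegree ∣ p ^ 2 := by
    rw [← h, ← sub_fr a]
    exact sub_dvd _
  obtain ⟨i, hi, hi2⟩ := (Nat.dvd_prime_pow hp).mp h1
  have hi3 : i = 0 ∨ i = 1 ∨ i = 2 := by omega
  rcases hi3 with rfl | rfl | rfl
  · exfalso
    rw [pow_zero, minpoly.natDegree_eq_one_iff] at hi2
    obtain ⟨c, hc⟩ := hi2
    exact ha ⟨c, hc⟩
  · rw [hi2, pow_one]
  · exfalso
    have h2 : Algebra.adjoin k {a} = ⊤ := by
      apply Subalgebra.eq_of_le_of_finrank_le le_top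
      rw [sub_fr, hi2, ← h]
      exact (Subalgebra.topEquiv (R := k) (A := A)).toLinearEquiv.finrank_eq.le
    apply sub_top hp h
    intro x y
    exact sub_comm a x y (by rw [h2]; trivial) (by rw [h2]; trivial)

theorem sub_central [Algebra.IsCentral k A] {p : ℕ} (hp : p.Prime) (h : Module.finrank k A = p ^ 2)
    (a b c : A) (hab : a * b ≠ b * a) (hca : c * a = a * c) (hcb : c * b = b * c) :
    c ∈ Set.range (algebraMap k A) := by
  by_contra hcon
  have hdeg := sub_minpoly hp h c hcon
  set C := Subalgebra.centralizer k {c} with hC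
  have haC : a ∈ C := by
    rw [hC, Subalgebra.mem_centralizer_iff]
    intro g hg
    rw [Set.mem_singleton_iff.mp hg]
    exact hca
  have hbC : b ∈ C := by
    rw [hC, Subalgebra.mem_centralizer_iff]
    intro g hg
    rw [Set.mem_singleton_iff.mp hg]
    exact hcb
  have hle : Algebra.adjoin k {c} ≤ C := by
    rw [Algebra.adjoin_le_iff, Set.singleton_subset_iff, SetLike.mem_coe, hC,
      Subalgebra.mem_centralizer_iff]
    intro g hg
    rw [Set.mem_singleton_iff.mp hg]
  have h1 : Module.finrank k C ∣ p ^ 2 := by
    rw [← h]
    exact sub_dvd _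
  obtain ⟨i, hi, hi2⟩ := (Nat.dvd_prime_pow hp).mp h1
  rcases Nat.lt_or_ge i 2 with hi3 | hi3
  · have h2 : Algebra.adjoin k {c} = C := by
      apply Subalgebra.eq_of_le_of_finrank_le hle
      rw [sub_fr, hdeg, hi2]
      calc p ^ i ≤ p ^ 1 := Nat.pow_le_pow_right hp.pos (by omega)
        _ = p := pow_one p
    exact hab (sub_comm c a b (by rw [h2]; exact haC) (by rw [h2]; exact hbC))
  · have hi4 : i = 2 := by omega
    have h2 : C = ⊤ := by
      apply Subalgebra.eq_of_le_of_finrank_le le_top
      rw [hi2, hi4, ← h]
      exact (Subalgebra.topEquiv (R := k) (A := A)).toLinearEquiv.finrank_eq.le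
    apply hcon
    have h3 : c ∈ Subalgebra.center k A := by
      rw [Subalgebra.mem_center_iff]
      intro x
      have h4 : x ∈ C := by rw [h2]; trivial
      rw [hC, Subalgebra.mem_centralizer_iff] at h4
      exact (h4 c (Set.mem_singleton c)).symm
    have h4 := Algebra.IsCentral.out h3
    rw [Algebra.mem_bot] at h4
    exact h4

end

end Pool.Agent.H84.CY
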