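import Pool.Agent.H84.CY.Dic

/-!
# H84 CY DSC: root descent

`D` central division algebra of dimension `p ^ 2` over `F`, `char F = p`, `C0 : F` not a `p`-th power in `F`.
Suppose `D` acts on a finite dimensional `F`-space `V` (algebra map `f`), commuting with an endomorphism `ρ` such that
`ρ ^ p = C0`, and `p ^ 3` does not divide `finrank F V`. Then `C0` is a `p`-th power in `D`.

Proof. Let `M = AdjoinRoot (X ^ p - C C0)`, a field of degree `p` over `F` (irreducible:
`X_pow_sub_C_irreducible_of_prime hp`), with root `r`, `r ^ p = C0`. The maps `f` and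
`M →ₐ[F] Module.End F V`, `r ↦ ρ` (`AdjoinRoot.liftAlgHom` or `AdjoinRoot.lift` with `aeval ρ`) have commuting
images, so they give `g : M ⊗[F] D →ₐ[F] Module.End F V` (`Algebra.TensorProduct.lift`).
`finrank F (M ⊗ D) = p * p ^ 2 = p ^ 3`. If `M ⊗ D` were a domain, `sub_act_dvd` (over `k = F`) would give
`p ^ 3 ∣ finrank F V`, contradiction. So by `dic` there is an isomorphism
`E : M ⊗ D ≃ₐ[M] Matrix (Fin p) (Fin p) M`. Let `W = Fin p → M`, `finrank F W = p ^ 2`, on which `M ⊗ D` acts by
`z • v = (E z).mulVec v`. Fix a nonzero `i0 : W`. The `F`-linear map `D → W`, `d ↦ (1 ⊗ d) • i0` is injective (if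
`(1 ⊗ d) • i0 = 0` and `d ≠ 0`, multiply by `1 ⊗ d⁻¹`), and both sides have dimension `p ^ 2`, so it is surjective.
Hence there is `u : D` with `(1 ⊗ u) • i0 = r • i0` (`r • i0` is also `(r ⊗ 1) • i0` since `E` is `M`-linear).
By induction `(1 ⊗ u ^ j) • i0 = r ^ j • i0` (`(1 ⊗ u) • (r ^ j • i0) = r ^ j • ((1 ⊗ u) • i0)`), so
`(1 ⊗ u ^ p) • i0 = C0 • i0 = (1 ⊗ C0) • i0` and by injectivity `u ^ p = C0`.
-/

set_option autoImplicit false

universe u v w

open TensorProduct

namespace Pool.Agent.H84.CY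

theorem dsc {F : Type u} {D : Type v} {V : Type w} [Field F] [DivisionRing D] [Algebra F D]
    [Algebra.IsCentral F D] [FiniteDimensional F D] {p : ℕ} (hp : p.Prime)
    (h : Module.finrank F D = p ^ 2) (C0 : F) (hC : ∀ b : F, b ^ p ≠ C0)
    [AddCommGroup V] [Module F V] [FiniteDimensional F V] (f : D →ₐ[F] Module.End F V)
    (ρ : Module.End F V) (hcomm : ∀ d : D, f d * ρ = ρ * f d)
    (hρ : ρ ^ p = algebraMap F (Module.End F V) C0) (hV : ¬ p ^ 3 ∣ Module.finrank F V) :
    ∃ u : D, u ^ p = algebraMap F D C0 := by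
  classical
  set P : Polynomial F := Polynomial.X ^ p - Polynomial.C C0 with hP
  have hirr : Irreducible P := X_pow_sub_C_irreducible_of_prime hp hC
  haveI : Fact (Irreducible P) := ⟨hirr⟩
  have hdeg : P.natDegree = p := Polynomial.natDegree_X_pow_sub_C
  haveI : FiniteDimensional F (AdjoinRoot P) := (AdjoinRoot.powerBasis hirr.ne_zero).finite
  have hfr : Module.finrank F (AdjoinRoot P) = p := by
    rw [(AdjoinRoot.powerBasis hirr.ne_zero).finrank, AdjoinRoot.powerBasis_dim, hdeg]
  set r := AdjoinRoot.root P with hrdef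
  have hr : r ^ p = algebraMap F (AdjoinRoot P) C0 := by
    have h1 := AdjoinRoot.eval₂_root P
    rw [hP, Polynomial.eval₂_sub, Polynomial.eval₂_pow, Polynomial.eval₂_X, Polynomial.eval₂_C,
      sub_eq_zero] at h1
    exact h1
  -- the action of `M`
  let fM : AdjoinRoot P →ₐ[F] Module.End F V :=
    Ideal.Quotient.liftₐ (Ideal.span {P}) (Polynomial.aeval ρ) (by
      intro a ha
      obtain ⟨b, rfl⟩ := Ideal.mem_span_singleton'.1 ha
      rw [map_mul, hP, map_sub, map_pow, Polynomial.aeval_X, Polynomial.aeval_C, hρ, sub_self,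
        mul_zero])
  have hfM : ∀ q, fM (AdjoinRoot.mk P q) = Polynomial.aeval ρ q := fun q => rfl
  have hcm : ∀ (x : AdjoinRoot P) (y : D), Commute (fM x) (f y) := by
    intro x y
    obtain ⟨q, rfl⟩ := AdjoinRoot.mk_surjective x
    rw [hfM]
    have h1 : Polynomial.aeval ρ q ∈ Subalgebra.centralizer F ({f y} : Set (Module.End F V)) := by
      have h2 : Algebra.adjoin F {ρ} ≤ Subalgebra.centralizer F ({f y} : Set (Module.End F V)) := by
        apply Algebra.adjoin_le
        intro z hz
        rw [Set.mem_singleton_iff] at hz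
        subst hz
        rw [SetLike.mem_coe, Subalgebra.mem_centralizer_iff]
        intro g hg
        rw [Set.mem_singleton_iff] at hg
        subst hg
        exact hcomm y
      exact h2 (Polynomial.aeval_mem_adjoin_singleton F ρ)
    rw [Subalgebra.mem_centralizer_iff] at h1
    exact (h1 (f y) rfl).symm
  let g : (AdjoinRoot P ⊗[F] D) →ₐ[F] Module.End F V := Algebra.TensorProduct.lift fM f hcm
  have hfin : Module.finrank F (AdjoinRoot P ⊗[F] D) = p ^ 3 := by
    rw [Module.finrank_tensorProduct, hfr, h]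
    ring
  rcases dic F D (AdjoinRoot P) hp h with hdom | ⟨⟨E⟩⟩
  · exfalso
    apply hV
    rw [← hfin]
    exact sub_act_dvd g
  · let i0 : Fin p → AdjoinRoot P := fun _ => 1
    have hi0 : i0 ≠ 0 := fun h0 => by
      have := congrFun h0 ⟨0, hp.pos⟩
      exact one_ne_zero this
    have hsm : ∀ (c : F) (d : D), E (1 ⊗ₜ[F] (c • d)) = (algebraMap F (AdjoinRoot P) c) • E (1 ⊗ₜ[F] d) := by
      intro c d
      rw [← map_smul, algebraMap_smul, TensorProduct.tmul_smul]
    let φ : D →ₗ[F] (Fin p → AdjoinRoot P) :=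
      { toFun := fun d => (E (1 ⊗ₜ[F] d)).mulVec i0
        map_add' := fun d e => by
          rw [TensorProduct.tmul_add, map_add, Matrix.add_mulVec]
        map_smul' := fun c d => by
          rw [hsm, Matrix.smul_mulVec, algebraMap_smul]
          rfl }
    have hφ : ∀ d, φ d = (E (1 ⊗ₜ[F] d)).mulVec i0 := fun d => rfl
    have hinj : Function.Injective φ := by
      rw [← LinearMap.ker_eq_bot, LinearMap.ker_eq_bot']
      intro d hd
      by_contra hne
      apply hi0
      have h1 : (E ((1 ⊗ₜ[F] d⁻¹) * (1 ⊗ₜ[F] d))).mulVec i0 = 0 := by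
        rw [map_mul, ← Matrix.mulVec_mulVec, ← hφ d, hd, Matrix.mulVec_zero]
      rw [Algebra.TensorProduct.tmul_mul_tmul, inv_mul_cancel₀ hne, one_mul,
        ← Algebra.TensorProduct.one_def, map_one, Matrix.one_mulVec] at h1
      exact h1
    have hfin2 : Module.finrank F D = Module.finrank F (Fin p → AdjoinRoot P) := by
      rw [h, Module.finrank_pi_fintype, Finset.sum_const, Finset.card_univ, Fintype.card_fin, hfr,
        smul_eq_mul, sq]
    have hsurj : Function.Surjective φ :=
      (LinearMap.injective_iff_surjective_of_finrank_eq_finrank hfin2).1 hinj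
    obtain ⟨u, hu⟩ := hsurj (r • i0)
    have hpow : ∀ j : ℕ, φ (u ^ j) = r ^ j • i0 := by
      intro j
      induction j with
      | zero =>
        rw [pow_zero, pow_zero, hφ, ← Algebra.TensorProduct.one_def, map_one, Matrix.one_mulVec,
          one_smul]
      | succ j ih =>
        have h1 : (1 ⊗ₜ[F] (u ^ (j + 1)) : AdjoinRoot P ⊗[F] D) =
            (1 ⊗ₜ[F] (u ^ j)) * (1 ⊗ₜ[F] u) := by
          rw [Algebra.TensorProduct.tmul_mul_tmul, mul_one, pow_succ]
        rw [hφ, h1, map_mul, ← Matrix.mulVec_mulVec, ← hφ u, hu, Matrix.mulVec_smul, ← hφ, ih,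
          smul_smul, pow_succ, mul_comm]
    refine ⟨u, hinj ?_⟩
    have h1 : φ (algebraMap F D C0) = C0 • φ 1 := by
      rw [← map_smul, Algebra.algebraMap_eq_smul_one]
    have h2 := hpow 0
    rw [pow_zero, pow_zero, one_smul] at h2
    rw [hpow, h1, h2, hr, algebraMap_smul]

end Pool.Agent.H84.CY
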