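import Mathlib

/-!
# H84 CY GAL: the extension generated by a `(p-1)`-th root

`F` a field of characteristic `p`, `δ ≠ 0` in `F`. There are a finite Galois extension `L / F`, of degree prime to
`p`, an element `η ≠ 0` of `L` with `η ^ (p - 1) = δ`, and for every `ρ` in the Galois group a number `s ρ` with
`0 < s ρ < p` and `ρ η = s ρ * η`; `s` is injective.

Proof. `L` = the splitting field of `X ^ (p - 1) - C δ` (separable, because its derivative is
`(p - 1) X ^ (p - 2) = - X ^ (p - 2)` and `δ ≠ 0`; for `p = 2` the polynomial is linear), so `L / F` is Galois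
(`IsGalois.of_separable_splitting_field`). Let `η` be a root. For `ρ` the element `ζ = ρ η / η` satisfies
`ζ ^ (p - 1) = 1`, so `ζ ^ p = ζ` and `ζ` is in the prime field: `ζ = (s : L)` with `0 < s < p` (the polynomial
`X ^ p - X` has the `p` roots `0, 1, ..., p - 1` of the prime field, so no other root; for example
`ZMod.expand_card`, `FiniteField.roots_X_pow_card_sub_X`, or a counting argument with
`Polynomial.card_roots'`). Likewise every root of `X ^ (p - 1) - C δ` is `j η` with `j` a natural
number, so the roots lie in `F(η)`, `L = F(η)`, and an automorphism is determined by its value at `η`: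
`s` is injective. So the order of the Galois group, which is `finrank F L`, is between `1` and `p - 1` and is
not divisible by `p`.
-/

set_option autoImplicit false

universe u v w

namespace Pool.Agent.H84.CY

open Polynomial in
private theorem gal_natCast {L : Type u} [Field L] {p : ℕ} (hp : p.Prime) [CharP L p] (z : L)
    (hz : z ^ (p - 1) = 1) : ∃ n : ℕ, 0 < n ∧ n < p ∧ z = (n : L) := by
  have : Fact p.Prime := ⟨hp⟩
  have h1 : z ^ p = z := by
    have : p = (p - 1) + 1 := by have := hp.pos; omega
    rw [this, pow_succ, hz, one_mul]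
  have h2 : z ∈ (⊥ : Subfield L) := (Subfield.mem_bot_iff_pow_eq_self L p).2 h1
  rw [← ZMod.fieldRange_castHom_eq_bot p] at h2
  obtain ⟨a, ha⟩ := h2
  refine ⟨a.val, ?_, ZMod.val_lt a, ?_⟩
  · rcases Nat.eq_zero_or_pos a.val with h | h
    · exfalso
      have ha0 : a = 0 := (ZMod.val_eq_zero a).1 h
      rw [ha0, map_zero] at ha
      rw [← ha, zero_pow (by have := hp.two_le; omega)] at hz
      exact zero_ne_one hz
    · exact h
  · rw [← ha]
    have : (ZMod.castHom (dvd_refl p) L) ((a.val : ℕ) : ZMod p) = ((a.val : ℕ) : L) := map_natCast _ _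
    rw [ZMod.natCast_zmod_val] at this
    exact this

theorem gal {F : Type u} [Field F] {p : ℕ} (hp : p.Prime) [CharP F p] (δ : F) (hδ : δ ≠ 0) :
    ∃ (L : Type u) (_ : Field L) (_ : Algebra F L) (_ : FiniteDimensional F L) (_ : IsGalois F L)
      (η : L) (s : (L ≃ₐ[F] L) → ℕ), η ≠ 0 ∧ η ^ (p - 1) = algebraMap F L δ ∧
      ¬ p ∣ Module.finrank F L ∧ (∀ ρ, 0 < s ρ ∧ s ρ < p ∧ ρ η = (s ρ : L) * η) ∧
      Function.Injective s := by
  classical
  have : Fact p.Prime := ⟨hp⟩
  have hp2 := hp.two_le
  let f : Polynomial F := Polynomial.X ^ (p - 1) - Polynomial.C δ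
  have hnd : ¬ p ∣ (p - 1) := fun h => by
    have := Nat.le_of_dvd (by omega) h
    omega
  have hsep : f.Separable := Polynomial.separable_X_pow_sub_C' p (p - 1) δ hnd hδ
  let L := f.SplittingField
  have : CharP L p := charP_of_injective_algebraMap' F p
  have hfd : FiniteDimensional F L := Polynomial.IsSplittingField.finiteDimensional L f
  have hg : IsGalois F L := IsGalois.of_separable_splitting_field (p := f) hsep
  have hdeg : (f.map (algebraMap F L)).degree ≠ 0 := by
    rw [Polynomial.degree_map, Polynomial.degree_X_pow_sub_C (by omega)]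
    intro h
    have : (p - 1 : ℕ) = 0 := by exact_mod_cast h
    omega
  obtain ⟨η, hη⟩ := Polynomial.Splits.exists_eval_eq_zero (Polynomial.SplittingField.splits f) hdeg
  have hη1 : η ^ (p - 1) = algebraMap F L δ := by
    simp only [f, Polynomial.map_sub, Polynomial.map_pow, Polynomial.map_X, Polynomial.map_C,
      Polynomial.eval_sub, Polynomial.eval_pow, Polynomial.eval_X, Polynomial.eval_C] at hη
    exact sub_eq_zero.1 hη
  have hδL : algebraMap F L δ ≠ 0 := by
    intro h
    exact hδ ((algebraMap F L).injective (by rw [h, map_zero]))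
  have hη0 : η ≠ 0 := by
    rintro rfl
    rw [zero_pow (by omega)] at hη1
    exact hδL hη1.symm
  have hroot : ∀ z : L, z ^ (p - 1) = algebraMap F L δ →
      ∃ n : ℕ, 0 < n ∧ n < p ∧ z = (n : L) * η := by
    intro z hz
    obtain ⟨n, h1, h2, h3⟩ := gal_natCast hp (z / η) (by
      rw [div_pow, hz, hη1, div_self hδL])
    exact ⟨n, h1, h2, by rw [← h3, div_mul_cancel₀ _ hη0]⟩
  have hex : ∀ ρ : L ≃ₐ[F] L, ∃ n : ℕ, 0 < n ∧ n < p ∧ ρ η = (n : L) * η := by
    intro ρ
    apply hroot
    rw [← map_pow, hη1, AlgEquiv.commutes]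
  choose s hs using hex
  have hinj : Function.Injective s := by
    intro ρ τ h
    have h1 : ρ η = τ η := by rw [(hs ρ).2.2, (hs τ).2.2, h]
    have h2 : (ρ : L →ₐ[F] L) = (τ : L →ₐ[F] L) := by
      apply AlgHom.ext_of_adjoin_eq_top (Polynomial.SplittingField.adjoin_rootSet f)
      intro z hz
      have hz' : z ^ (p - 1) = algebraMap F L δ := by
        have := (Polynomial.mem_rootSet.1 hz).2
        simp only [f, map_sub, map_pow, Polynomial.aeval_X, Polynomial.aeval_C] at this
        exact sub_eq_zero.1 this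
      obtain ⟨n, -, -, hn⟩ := hroot z hz'
      rw [hn]
      simp only [map_mul, map_natCast]
      congr 1
    ext z
    exact DFunLike.congr_fun h2 z
  have hcard : ¬ p ∣ Module.finrank F L := by
    rw [← IsGalois.card_aut_eq_finrank F L]
    intro h
    have hpos : 0 < Nat.card (L ≃ₐ[F] L) := Nat.card_pos
    have hle : Nat.card (L ≃ₐ[F] L) ≤ p - 1 := by
      have : Nat.card (L ≃ₐ[F] L) ≤ Nat.card (Finset.Ioo 0 p) := by
        apply Nat.card_le_card_of_injective (fun ρ => ⟨s ρ, Finset.mem_Ioo.2 ⟨(hs ρ).1, (hs ρ).2.1⟩⟩)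
        intro ρ τ h
        exact hinj (congrArg Subtype.val h)
      rw [Nat.card_eq_fintype_card (α := Finset.Ioo 0 p), Fintype.card_coe, Nat.card_Ioo] at this
      omega
    have := Nat.le_of_dvd hpos h
    omega
  exact ⟨L, inferInstance, inferInstance, hfd, hg, η, s, hη0, hη1, hcard, hs, hinj⟩

end Pool.Agent.H84.CY
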