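import Mathlib

/-!
# H84 CY PRD: products of eigenvectors and their `p`-th powers

`prd_eig`: if `x v_i = v_i x + η_i v_i` for all `i`, then for a list `l` the product `P` of the `v_i ^ n_i`
satisfies `x P = P x + (∑ n_i η_i) P` (induction on the list; first `x v ^ n = v ^ n x + n η v ^ n` by
induction on `n`).

`prd_norm`: `A` a finite dimensional algebra over a field `L` of characteristic `p`, `finrank L A = p ^ 2`. If
`w ^ p = C` with `C : L` then `Algebra.norm L w = C ^ p`: `(Algebra.norm L w) ^ p = Algebra.norm L (w ^ p) =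
Algebra.norm L (algebraMap L A C) = C ^ (p ^ 2)` (`Algebra.norm_algebraMap`), and `z ↦ z ^ p` is injective on `L`.

`prd_pow`: if `v_i ^ p = c_i` in `L` for all `i` and `P ^ p = C` for `P` the product over the list of the
`v_i ^ n_i`, then `C` is the product of the `c_i ^ n_i`: both have the same `p`-th power, because
`C ^ p = norm P = ∏ (norm v_i) ^ n_i = ∏ (c_i ^ p) ^ n_i` (`map_list_prod`).
-/

set_option autoImplicit false

universe u v w

namespace Pool.Agent.H84.CY

theorem prd_eig_one {L : Type u} {A : Type v} [Field L] [Ring A] [Algebra L A] (x v : A) (η : L)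
    (hv : x * v = v * x + η • v) (n : ℕ) : x * v ^ n = v ^ n * x + ((n : L) * η) • v ^ n := by
  induction n with
  | zero => simp
  | succ n ih =>
    rw [pow_succ, ← mul_assoc, ih, add_mul, mul_assoc, hv, mul_add]
    push_cast
    simp only [add_mul, add_smul, one_mul, mul_assoc, mul_smul_comm, smul_mul_assoc, add_assoc]
    congr 1
    rw [add_comm]

theorem prd_eig {L : Type u} {A : Type v} [Field L] [Ring A] [Algebra L A] {ι : Type w} (x : A)
    (η : ι → L) (v : ι → A) (n : ι → ℕ) (hv : ∀ i, x * v i = v i * x + η i • v i) (l : List ι) :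
    x * (l.map fun i => v i ^ n i).prod
      = (l.map fun i => v i ^ n i).prod * x
        + (l.map fun i => (n i : L) * η i).sum • (l.map fun i => v i ^ n i).prod := by
  induction l with
  | nil => simp
  | cons i l ih =>
    simp only [List.map_cons, List.prod_cons, List.sum_cons]
    rw [← mul_assoc, prd_eig_one x (v i) (η i) (hv i) (n i), add_mul, mul_assoc, ih, mul_add]
    simp only [add_smul, mul_assoc, mul_smul_comm, smul_mul_assoc, add_assoc]
    congr 1
    rw [add_comm]

theorem prd_norm {L : Type u} {A : Type v} [Field L] [Ring A] [Algebra L A] [FiniteDimensional L A]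
    {p : ℕ} (hp : p.Prime) [CharP L p] (h : Module.finrank L A = p ^ 2) (w : A) (C : L)
    (hw : w ^ p = algebraMap L A C) : Algebra.norm L w = C ^ p := by
  have : Fact p.Prime := ⟨hp⟩
  have h1 : (Algebra.norm L w) ^ p = (C ^ p) ^ p := by
    rw [← map_pow, hw, Algebra.norm_algebraMap, h, ← pow_mul, pow_two]
  exact frobenius_inj L p h1

theorem prd_pow {L : Type u} {A : Type v} [Field L] [Ring A] [Algebra L A] [FiniteDimensional L A]
    {p : ℕ} (hp : p.Prime) [CharP L p] (h : Module.finrank L A = p ^ 2) {ι : Type w}
    (v : ι → A) (c : ι → L) (n : ι → ℕ) (hv : ∀ i, v i ^ p = algebraMap L A (c i)) (l : List ι) (C : L)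
    (hC : ((l.map fun i => v i ^ n i).prod) ^ p = algebraMap L A C) :
    C = (l.map fun i => c i ^ n i).prod := by
  have : Fact p.Prime := ⟨hp⟩
  have h1 := prd_norm hp h _ C hC
  rw [map_list_prod, List.map_map] at h1
  have h2 : (l.map ((Algebra.norm L) ∘ fun i => v i ^ n i)).prod = ((l.map fun i => c i ^ n i).prod) ^ p := by
    have : ((Algebra.norm L) ∘ fun i => v i ^ n i) = fun i => (c i ^ n i) ^ p := by
      funext i
      simp only [Function.comp]
      rw [map_pow, prd_norm hp h (v i) (c i) (hv i), ← pow_mul, ← pow_mul, mul_comm]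
    rw [this]
    clear h1 hC
    induction l with
    | nil => simp
    | cons i l ih =>
      simp only [List.map_cons, List.prod_cons]
      rw [ih, mul_pow]
  rw [h2] at h1
  exact (frobenius_inj L p h1).symm

end Pool.Agent.H84.CY
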