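import Pool.Agent.H84.CY.Sub
import Pool.Agent.H84.CY.Prd

/-!
# H84 CY MUA: averaging an eigenvector over the Galois group

`L / F` a finite Galois extension with group `Γ` of order prime to `p = char F`, `η : L`, `s : Γ → ℕ` with
`ρ η = s ρ * η`, `η ≠ 0`. `A` is a domain, central of dimension `p ^ 2` over `L`, with ring automorphisms `g ρ`
which are semilinear over `ρ` and fix `x`. Let `v ≠ 0` with `x v = v x + η v` and `v ^ p = c` in `L`.
Then there are `w : A` and `C : L`, `C ≠ 0`, with `x w = w x + η w`, `w ≠ 0`, `w ^ p = C`, and for every `τ` there is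
`e ≠ 0` with `τ C = C ^ s τ * e ^ p`.

Proof. `c ≠ 0` since `v ≠ 0` (domain). Write `m` for the order of `Γ`; it is nonzero in `ZMod p`. First,
`s (τ ρ) = s τ s ρ` mod `p`: `τ (ρ η) = τ (s ρ * η) = s ρ * s τ * η`, `η ≠ 0`, `CharP L p`. Every `s ρ` is nonzero
mod `p`. Choose natural numbers `n ρ` with `n ρ = (m s ρ)⁻¹` in `ZMod p` (`ZMod.val`). Let `l` be the list of
all elements of `Γ` (`Finset.univ.toList`) and `w = ∏_{ρ in l} (g ρ v) ^ n ρ` (list product). Applying `g ρ` to the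
equation for `v`: `x (g ρ v) = (g ρ v) x + (ρ η) • g ρ v`, `ρ η = s ρ * η`. By `prd_eig`
`x w = w x + (∑ n ρ s ρ) η • w`, and `∑ n ρ s ρ = ∑ m⁻¹ = 1` in `L`. `w ≠ 0` as a product of nonzero
elements (`g ρ` is injective: `g ρ v = 0` implies `c`... or simply `(g ρ v) ^ p = ρ c ≠ 0`). `w ^ p` is a scalar:
`x w ^ p = w ^ p x + p η w ^ p = w ^ p x`, so `w ^ p` commutes with `x` and `w`, which do not commute
(`η w ≠ 0`): `sub_central`. Let `w ^ p = C`. By `prd_pow` with `(g ρ v) ^ p = g ρ (c • 1) = ρ c`,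
`C = ∏_{ρ in l} (ρ c) ^ n ρ` (`= ∏ ρ, (ρ c) ^ n ρ`, `Finset.prod_map_toList`). Then
`τ C = ∏ ρ, (τ ρ c) ^ n ρ = ∏ ρ, (ρ c) ^ n (τ⁻¹ ρ)` and `n (τ⁻¹ ρ) = s τ n ρ` mod `p`
(`s ρ = s τ s (τ⁻¹ ρ)`), so the integer `n (τ⁻¹ ρ) - s τ n ρ` is `p` times an integer `k ρ` and
`e = ∏ ρ, (ρ c) ^ k ρ` (integer powers) does it.
-/

set_option autoImplicit false

universe u v w

namespace Pool.Agent.H84.CY

theorem muA_pow {L : Type v} [Field L] (y : L) (hy : y ≠ 0) (a b t p : ℕ) (k : ℤ)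
    (h : (a : ℤ) = t * b + p * k) : y ^ a = (y ^ b) ^ t * (y ^ k) ^ p := by
  rw [← zpow_natCast y a, h, zpow_add₀ hy]
  congr 1
  · rw [← pow_mul, ← zpow_natCast]
    congr 1
    push_cast
    ring
  · rw [← zpow_natCast (y ^ k) p, ← zpow_mul]
    congr 1
    ring

theorem muA {F : Type u} {L : Type v} {A : Type w} [Field F] [Field L] [Algebra F L]
    [FiniteDimensional F L] [IsGalois F L] [Ring A] [IsDomain A] [Algebra L A] [FiniteDimensional L A]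
    [Algebra.IsCentral L A] {p : ℕ} (hp : p.Prime) [CharP F p] [CharP L p]
    (h : Module.finrank L A = p ^ 2) (hm : ¬ p ∣ Module.finrank F L)
    (η : L) (hη : η ≠ 0) (s : (L ≃ₐ[F] L) → ℕ) (hs : ∀ ρ : L ≃ₐ[F] L, ρ η = (s ρ : L) * η)
    (g : (L ≃ₐ[F] L) → (A →+* A)) (hg : ∀ ρ (a : L) (z : A), g ρ (a • z) = (ρ a) • g ρ z)
    (x : A) (hx : ∀ ρ, g ρ x = x) (v : A) (hv : v ≠ 0) (hxv : x * v = v * x + η • v)
    (c : L) (hc : v ^ p = algebraMap L A c) :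
    ∃ (w : A) (C : L), w ≠ 0 ∧ C ≠ 0 ∧ x * w = w * x + η • w ∧ w ^ p = algebraMap L A C ∧
      ∀ τ : L ≃ₐ[F] L, ∃ e : L, e ≠ 0 ∧ τ C = C ^ s τ * e ^ p := by
  classical
  have hfp : Fact p.Prime := ⟨hp⟩
  have hinjA : Function.Injective (algebraMap L A) := (algebraMap L A).injective
  have hkey : ∀ a b : ℕ, (a : L) = (b : L) ↔ (a : ZMod p) = (b : ZMod p) := by
    intro a b
    rw [CharP.natCast_eq_natCast L p, ZMod.natCast_eq_natCast_iff]
  obtain ⟨m, hmdef⟩ : ∃ m : ℕ, m = Fintype.card (L ≃ₐ[F] L) := ⟨_, rfl⟩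
  have hmr : m = Module.finrank F L := by
    rw [hmdef, ← Nat.card_eq_fintype_card, IsGalois.card_aut_eq_finrank]
  have hm0 : (m : ZMod p) ≠ 0 := by
    intro h0
    rw [ZMod.natCast_eq_zero_iff] at h0
    exact hm (hmr ▸ h0)
  have hs0 : ∀ ρ, (s ρ : ZMod p) ≠ 0 := by
    intro ρ h0
    have h1 : ((s ρ : ℕ) : L) = ((0 : ℕ) : L) := (hkey _ _).mpr (by rw [h0, Nat.cast_zero])
    have h2 := hs ρ
    rw [h1, Nat.cast_zero, zero_mul] at h2
    exact hη ((map_eq_zero ρ).mp h2)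
  have hsm : ∀ τ ρ, (s (τ * ρ) : ZMod p) = (s τ : ZMod p) * (s ρ : ZMod p) := by
    intro τ ρ
    have h1 : ((s (τ * ρ) : ℕ) : L) = ((s τ * s ρ : ℕ) : L) := by
      have h2 : (τ * ρ) η = τ (ρ η) := rfl
      rw [hs, hs ρ, map_mul, map_natCast, hs τ] at h2
      apply mul_right_cancel₀ hη
      rw [h2]
      push_cast
      ring
    have h3 := (hkey _ _).mp h1
    rw [h3]
    push_cast
    rfl
  obtain ⟨n, hn⟩ : ∃ n : (L ≃ₐ[F] L) → ℕ, ∀ ρ, (n ρ : ZMod p) = ((m : ZMod p) * (s ρ : ZMod p))⁻¹ :=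
    ⟨fun ρ => ((m : ZMod p) * (s ρ : ZMod p))⁻¹.val, fun ρ => ZMod.natCast_zmod_val _⟩
  have hc0 : c ≠ 0 := by
    intro h0
    rw [h0, map_zero] at hc
    exact hv (pow_eq_zero_iff hp.ne_zero |>.mp hc)
  have hgp : ∀ ρ, (g ρ v) ^ p = algebraMap L A (ρ c) := by
    intro ρ
    rw [← map_pow, hc, Algebra.algebraMap_eq_smul_one, hg, map_one,
      ← Algebra.algebraMap_eq_smul_one]
  have hρc : ∀ ρ : L ≃ₐ[F] L, ρ c ≠ 0 := fun ρ => (map_ne_zero ρ).mpr hc0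
  have hgv : ∀ ρ, g ρ v ≠ 0 := by
    intro ρ h0
    have h1 := hgp ρ
    rw [h0, zero_pow hp.ne_zero] at h1
    exact hρc ρ (hinjA (by rw [← h1, map_zero]))
  have hxg : ∀ ρ : L ≃ₐ[F] L, x * g ρ v = g ρ v * x + (ρ η) • g ρ v := by
    intro ρ
    have h1 := congrArg (g ρ) hxv
    rw [map_mul, map_add, map_mul, hg, hx] at h1
    exact h1
  obtain ⟨l, hl⟩ : ∃ l : List (L ≃ₐ[F] L), l = Finset.univ.toList := ⟨_, rfl⟩
  obtain ⟨w, hw⟩ : ∃ w : A, w = (l.map fun ρ => (g ρ v) ^ n ρ).prod := ⟨_, rfl⟩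
  have hw0 : w ≠ 0 := by
    rw [hw]
    apply List.prod_ne_zero
    intro h0
    rw [List.mem_map] at h0
    obtain ⟨ρ, _, h1⟩ := h0
    exact pow_ne_zero _ (hgv ρ) h1
  have hsum : (l.map fun ρ => (n ρ : L) * (ρ : L ≃ₐ[F] L) η).sum = η := by
    rw [hl, Finset.sum_map_toList]
    have h1 : ∑ ρ : L ≃ₐ[F] L, (n ρ : L) * ρ η = ((∑ ρ, n ρ * s ρ : ℕ) : L) * η := by
      rw [Nat.cast_sum, Finset.sum_mul]
      refine Finset.sum_congr rfl fun ρ _ => ?_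
      rw [hs ρ]
      push_cast
      ring
    have h2 : ((∑ ρ, n ρ * s ρ : ℕ) : L) = ((1 : ℕ) : L) := by
      rw [hkey]
      push_cast
      have h3 : ∀ ρ ∈ (Finset.univ : Finset (L ≃ₐ[F] L)),
          (n ρ : ZMod p) * (s ρ : ZMod p) = (m : ZMod p)⁻¹ := by
        intro ρ _
        rw [hn]
        have := hs0 ρ
        field_simp
      rw [Finset.sum_congr rfl h3, Finset.sum_const, Finset.card_univ, nsmul_eq_mul, ← hmdef]
      exact mul_inv_cancel₀ hm0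
    rw [h1, h2, Nat.cast_one, one_mul]
  have hxw : x * w = w * x + η • w := by
    have h1 := prd_eig x (fun ρ : L ≃ₐ[F] L => ρ η) (fun ρ => g ρ v) n hxg l
    rw [hsum, ← hw] at h1
    exact h1
  have hxwp : x * w ^ p = w ^ p * x := by
    have h1 := prd_eig x (fun _ : Unit => η) (fun _ => w) (fun _ => p) (fun _ => hxw) [()]
    simpa using h1
  have hcomm : x * w ≠ w * x := by
    intro h0
    rw [h0] at hxw
    have h1 : η • w = 0 := by
      have := hxw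
      rwa [left_eq_add] at this
    rcases smul_eq_zero.mp h1 with h2 | h2
    · exact hη h2
    · exact hw0 h2
  obtain ⟨C, hC⟩ := sub_central hp h x w (w ^ p) hcomm hxwp.symm (by rw [← pow_succ, ← pow_succ'])
  have hC0 : C ≠ 0 := by
    intro h0
    rw [h0, map_zero] at hC
    exact pow_ne_zero p hw0 hC.symm
  have hCprod : C = ∏ ρ : L ≃ₐ[F] L, (ρ c) ^ n ρ := by
    have h1 := prd_pow hp h (fun ρ : L ≃ₐ[F] L => g ρ v) (fun ρ => ρ c) n hgp l C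
      (by rw [← hw, hC])
    rw [h1, hl, Finset.prod_map_toList]
  refine ⟨w, C, hw0, hC0, hxw, hC.symm, ?_⟩
  intro τ
  have hk : ∀ ρ, ∃ k : ℤ, (n (τ⁻¹ * ρ) : ℤ) = (s τ : ℤ) * (n ρ : ℤ) + (p : ℤ) * k := by
    intro ρ
    have h1 : (((n (τ⁻¹ * ρ) : ℕ) : ℤ) : ZMod p) = (((s τ * n ρ : ℕ) : ℤ) : ZMod p) := by
      push_cast
      rw [hn, hn]
      have h2 := hsm τ (τ⁻¹ * ρ)
      rw [mul_inv_cancel_left] at h2
      rw [h2]
      have h3 := hs0 τ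
      have h4 := hs0 (τ⁻¹ * ρ)
      field_simp
    rw [ZMod.intCast_eq_intCast_iff_dvd_sub] at h1
    obtain ⟨k, hk⟩ := h1
    refine ⟨-k, ?_⟩
    push_cast at hk
    linarith
  choose k hk using hk
  refine ⟨∏ ρ : L ≃ₐ[F] L, (ρ c) ^ k ρ, ?_, ?_⟩
  · exact Finset.prod_ne_zero_iff.mpr fun ρ _ => zpow_ne_zero _ (hρc ρ)
  · have h1 : τ C = ∏ ρ : L ≃ₐ[F] L, (ρ c) ^ n (τ⁻¹ * ρ) := by
      rw [hCprod, map_prod]
      refine Fintype.prod_equiv (Equiv.mulLeft τ) _ _ fun ρ => ?_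
      rw [Equiv.coe_mulLeft, inv_mul_cancel_left, map_pow]
      rfl
    rw [h1]
    have h2 : ∀ ρ ∈ (Finset.univ : Finset (L ≃ₐ[F] L)), (ρ c) ^ n (τ⁻¹ * ρ) =
        ((ρ c) ^ n ρ) ^ s τ * ((ρ c) ^ k ρ) ^ p := fun ρ _ =>
      muA_pow (ρ c) (hρc ρ) _ _ _ _ _ (hk ρ)
    rw [Finset.prod_congr rfl h2, Finset.prod_mul_distrib, Finset.prod_pow, Finset.prod_pow,
      ← hCprod]

end Pool.Agent.H84.CY
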