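import Pool.Agent.H84.CY.Sub

/-!
# H84 CY MUB: the purely inseparable element over `F`

`L / F` finite Galois with group `Γ`, `char = p`, `A` a domain, central of dimension `p ^ 2` over `L`,
`w : A` not a scalar with `w ^ p = C` in `L`, `s : Γ → ℕ` injective with `0 < s τ < p`, and for every `τ` an element
`e τ ≠ 0` of `L` with `τ C = C ^ s τ * (e τ) ^ p`. Then `μ = ∑ τ, e τ • w ^ s τ` is not a scalar, and
`μ ^ p = ∑ τ, (e τ) ^ p C ^ s τ = ∑ τ, τ C` is an element `C0` of `F`.

Proof. All terms commute with each other (they lie in the commutative subring `L[w]`; one can work in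
`Algebra.adjoin L {w}` or take `μ = aeval w f` with the polynomial `f = ∑ τ, C (e τ) * X ^ s τ` over `L` and use
`f ^ p = ∑ τ, C ((e τ) ^ p) * X ^ (p * s τ)`, `sum_pow_char` / `Finset.sum_pow_char` in `L[X]`), so the `p`-th power of
the sum is the sum of the `p`-th powers. `∑ τ, τ C` is fixed by `Γ`, so it lies in `F`
(`IsGalois.mem_bot_iff_fixed`, or `Algebra.trace_eq_sum_automorphisms`: it is
`algebraMap F L (Algebra.trace F L C)`). If `μ` were a scalar `a`, then `f - C a` would be a polynomial of degree `< p`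
killing `w`; `minpoly L w` has degree `p` (`sub_minpoly`), so `f = C a`; but the coefficient of `f` at `s 1 > 0` is
`e 1 ≠ 0` (`s` is injective), contradiction.
-/

set_option autoImplicit false

universe u v w

namespace Pool.Agent.H84.CY

theorem muB {F : Type u} {L : Type v} {A : Type w} [Field F] [Field L] [Algebra F L]
    [FiniteDimensional F L] [IsGalois F L] [Ring A] [IsDomain A] [Algebra L A] [FiniteDimensional L A]
    [Algebra.IsCentral L A] {p : ℕ} (hp : p.Prime) [CharP L p] (h : Module.finrank L A = p ^ 2)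
    (s : (L ≃ₐ[F] L) → ℕ) (hs : ∀ ρ, 0 < s ρ ∧ s ρ < p) (hsi : Function.Injective s)
    (w : A) (hw : w ∉ Set.range (algebraMap L A)) (C : L) (hC : w ^ p = algebraMap L A C)
    (he : ∀ τ : L ≃ₐ[F] L, ∃ e : L, e ≠ 0 ∧ τ C = C ^ s τ * e ^ p) :
    ∃ (μ : A) (C0 : F), μ ∉ Set.range (algebraMap L A) ∧
      μ ^ p = algebraMap L A (algebraMap F L C0) := by
  classical
  have : Fact p.Prime := ⟨hp⟩
  choose e he0 heq using he
  set f : Polynomial L := ∑ τ : L ≃ₐ[F] L, Polynomial.C (e τ) * Polynomial.X ^ s τ with hf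
  have hfp : f ^ p = ∑ τ : L ≃ₐ[F] L, Polynomial.C (e τ ^ p) * (Polynomial.X ^ p) ^ s τ := by
    rw [hf, sum_pow_char p]
    refine Finset.sum_congr rfl fun τ _ => ?_
    rw [mul_pow, map_pow, ← pow_mul, ← pow_mul, mul_comm p (s τ)]
  refine ⟨Polynomial.aeval w f, Algebra.trace F L C, ?_, ?_⟩
  · rintro ⟨a, ha⟩
    have h1 : Polynomial.aeval w (f - Polynomial.C a) = 0 := by
      rw [map_sub, Polynomial.aeval_C, ha, sub_self]
    have hdeg : (f - Polynomial.C a).degree < (minpoly L w).degree := by
      have h2 : (minpoly L w).degree = (p : WithBot ℕ) := by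
        rw [Polynomial.degree_eq_natDegree (minpoly.ne_zero (Algebra.IsIntegral.isIntegral w)),
          sub_minpoly hp h w hw]
      rw [h2]
      refine lt_of_le_of_lt (Polynomial.degree_sub_le _ _) (max_lt ?_ ?_)
      · rw [← Polynomial.mem_degreeLT]
        refine Submodule.sum_mem _ fun τ _ => Polynomial.mem_degreeLT.2 ?_
        refine lt_of_le_of_lt (Polynomial.degree_C_mul_X_pow_le _ _) ?_
        exact_mod_cast (hs τ).2
      · refine lt_of_le_of_lt Polynomial.degree_C_le ?_
        exact_mod_cast hp.pos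
    have h3 : f - Polynomial.C a = 0 :=
      Polynomial.eq_zero_of_dvd_of_degree_lt (minpoly.dvd L w h1) hdeg
    have h4 : f.coeff (s 1) = 0 := by
      rw [sub_eq_zero.1 h3, Polynomial.coeff_C, if_neg (hs 1).1.ne']
    have h5 : f.coeff (s 1) = e 1 := by
      rw [hf, Polynomial.finsetSum_coeff, Finset.sum_eq_single (1 : L ≃ₐ[F] L)]
      · rw [Polynomial.coeff_C_mul, Polynomial.coeff_X_pow, if_pos rfl, mul_one]
      · intro τ _ hτ
        rw [Polynomial.coeff_C_mul, Polynomial.coeff_X_pow, if_neg (fun hh => hτ (hsi hh).symm),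
          mul_zero]
      · intro hh
        exact absurd (Finset.mem_univ _) hh
    exact he0 1 (h5.symm.trans h4)
  · rw [← map_pow, hfp, map_sum]
    have h6 : ∀ τ : L ≃ₐ[F] L, Polynomial.aeval w
        (Polynomial.C (e τ ^ p) * (Polynomial.X ^ p) ^ s τ) = algebraMap L A (τ C) := by
      intro τ
      rw [map_mul, Polynomial.aeval_C, map_pow (Polynomial.aeval w), map_pow (Polynomial.aeval w),
        Polynomial.aeval_X, hC, ← map_pow, ← map_mul, heq τ, mul_comm]
    rw [Finset.sum_congr rfl fun τ _ => h6 τ, ← map_sum, trace_eq_sum_automorphisms]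

end Pool.Agent.H84.CY
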