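import Pool.Agent.H84.CY.Eig
import Pool.Agent.H84.CY.Gal
import Pool.Agent.H84.CY.MuA
import Pool.Agent.H84.CY.MuB
import Pool.Agent.H84.CY.Dsc

/-!
# H84 CY STB: from `x ^ p = δ x + γ` to `u ^ p = c`

`D` a central division algebra of dimension `p ^ 2` over `F`, `char F = p`, `x : D` not a scalar with
`x ^ p = δ x + γ`, `δ`, `γ` in `F`. Then there is `u : D`, not a scalar, with `u ^ p` a scalar.

Proof. If `δ = 0` take `u = x`. Otherwise take `L`, `η`, `s` from `gal`. Let `A = L ⊗[F] D`: a domain by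
`dic_coprime`, central over `L` by `sim_central`, `finrank L A = p ^ 2` (`Module.finrank_baseChange`), `CharP L p`
(`charP_of_injective_algebraMap`). Let `x' = 1 ⊗ x`: `x' ^ p = η ^ (p-1) • x' + γ`. As `x` is not a scalar it does
not commute with some `y` (`Algebra.IsCentral`) and `x'` does not commute with `1 ⊗ y` (the map `d ↦ 1 ⊗ d` is
injective: `Algebra.TensorProduct.includeRight_injective` or so). `eig` gives `v ≠ 0` with
`x' v = v x' + η • v`. `v ^ p` commutes with `v` and with `x'` (`x' v ^ i = v ^ i x' + i η v ^ i`, `p = 0`), and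
`x' v ≠ v x'`, so `v ^ p = c` is a scalar (`sub_central`). The automorphisms
`g ρ = Algebra.TensorProduct.map (ρ : L →ₐ[F] L) (AlgHom.id F D)` (as ring homs) are semilinear and fix `x'`. `muA`
gives `w`, `C` and `muB` gives `μ` and `C0` (`w` is not a scalar because it does not commute with `x'`).
For `b : F` we have `b ^ p ≠ C0`: otherwise `(μ - b) ^ p = μ ^ p - b ^ p = 0` (`μ` and `b` commute), so
`μ = b` is a scalar. Now apply `dsc` with `V = A` as a space over `F` (dimension `finrank F L * p ^ 2`, so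
`p ^ 3` does not divide it), `f d` = left multiplication by `1 ⊗ d`, and `ρ` = right multiplication by `μ`
(`ρ ^ p` = right multiplication by `μ ^ p = C0`). It gives `u : D` with `u ^ p = C0`; `u` is not a scalar
since `C0` is not a `p`-th power in `F`.
-/

set_option autoImplicit false

universe u v w

open TensorProduct

namespace Pool.Agent.H84.CY

/-- powers of an eigenvector -/
theorem stb_pow {L : Type u} {A : Type v} [Field L] [Ring A] [Algebra L A] (x v : A) (η : L)
    (hv : x * v = v * x + η • v) (n : ℕ) : x * v ^ n = v ^ n * x + ((n : L) * η) • v ^ n := by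
  induction n with
  | zero => simp
  | succ n ih =>
    rw [pow_succ, ← mul_assoc, ih, add_mul, mul_assoc, hv, mul_add]
    push_cast
    simp only [add_mul, add_smul, one_mul, mul_assoc, mul_smul_comm, smul_mul_assoc, add_assoc]
    congr 1
    rw [add_comm]

theorem stb_inj {F : Type u} {D : Type v} {M : Type w} [Field F] [DivisionRing D] [Algebra F D]
    [Field M] [Algebra F M] : Function.Injective (fun d : D => (1 : M) ⊗ₜ[F] d) := by
  have := Algebra.TensorProduct.includeRight_injective (R := F) (A := M) (B := D)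
    (algebraMap F M).injective
  exact this

/-- the F-dimension of the base change -/
theorem stb_dim {F : Type u} {D : Type v} {M : Type w} [Field F] [DivisionRing D] [Algebra F D]
    [FiniteDimensional F D] [Field M] [Algebra F M] [FiniteDimensional F M] :
    Module.finrank F (M ⊗[F] D) = Module.finrank F M * Module.finrank F D := by
  rw [Module.finrank_tensorProduct]

theorem stb_g {F : Type u} {D : Type v} {M : Type w} [Field F] [DivisionRing D] [Algebra F D]
    [Field M] [Algebra F M] (ρ : M ≃ₐ[F] M) :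
    ∃ g : (M ⊗[F] D) →+* (M ⊗[F] D), (∀ (a : M) (z : M ⊗[F] D), g (a • z) = (ρ a) • g z) ∧
      ∀ d : D, g ((1 : M) ⊗ₜ[F] d) = (1 : M) ⊗ₜ[F] d := by
  refine ⟨(Algebra.TensorProduct.map (ρ : M →ₐ[F] M) (AlgHom.id F D)).toRingHom, ?_, ?_⟩
  · intro a z
    induction z using TensorProduct.induction_on with
    | zero => simp
    | tmul b d => simp [TensorProduct.smul_tmul']
    | add y z hy hz =>
      rw [smul_add, map_add, map_add, smul_add, hy, hz]
  · intro d
    simp

theorem stB {F : Type u} {D : Type v} [Field F] [DivisionRing D] [Algebra F D]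
    [Algebra.IsCentral F D] [FiniteDimensional F D] {p : ℕ} (hp : p.Prime) [CharP F p]
    (h : Module.finrank F D = p ^ 2) (x : D) (hx : x ∉ Set.range (algebraMap F D)) (δ γ : F)
    (hxp : x ^ p = δ • x + algebraMap F D γ) :
    ∃ u : D, u ∉ Set.range (algebraMap F D) ∧ u ^ p ∈ Set.range (algebraMap F D) := by
  classical
  by_cases hδ : δ = 0
  · refine ⟨x, hx, γ, ?_⟩
    rw [hxp, hδ, zero_smul, zero_add]
  obtain ⟨L, iL, iFL, iFin, iGal, η, s, hη, hηp, hm, hs, hsi⟩ := gal hp δ hδ
  have iDom : IsDomain (L ⊗[F] D) := dic_coprime F D L hp h hm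
  have iCen : Algebra.IsCentral L (L ⊗[F] D) := sim_central F D L
  have iChar : CharP L p := charP_of_injective_algebraMap (algebraMap F L).injective p
  have : Fact p.Prime := ⟨hp⟩
  have hA : Module.finrank L (L ⊗[F] D) = p ^ 2 := by rw [Module.finrank_baseChange, h]
  have iCharA : CharP (L ⊗[F] D) p :=
    charP_of_injective_algebraMap (algebraMap L (L ⊗[F] D)).injective p
  -- the element 1 ⊗ x
  obtain ⟨y, hxy⟩ : ∃ y : D, x * y ≠ y * x := by
    by_contra hcon
    push Not at hcon
    apply hx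
    have hmem : x ∈ Subalgebra.center F D := by
      rw [Subalgebra.mem_center_iff]
      intro b
      exact (hcon b).symm
    have := Algebra.IsCentral.out (K := F) (D := D) hmem
    rw [Algebra.mem_bot] at this
    exact this
  set x' : L ⊗[F] D := (1 : L) ⊗ₜ[F] x with hx'
  have hmul : ∀ a b : D, ((1 : L) ⊗ₜ[F] a : L ⊗[F] D) * ((1 : L) ⊗ₜ[F] b) = (1 : L) ⊗ₜ[F] (a * b) := by
    intro a b
    rw [Algebra.TensorProduct.tmul_mul_tmul, one_mul]
  have hpow : ∀ (a : D) (n : ℕ), ((1 : L) ⊗ₜ[F] a : L ⊗[F] D) ^ n = (1 : L) ⊗ₜ[F] (a ^ n) := by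
    intro a n
    rw [Algebra.TensorProduct.tmul_pow, one_pow]
  have hscal : ∀ (c : F), ((1 : L) ⊗ₜ[F] (algebraMap F D c) : L ⊗[F] D)
      = algebraMap L (L ⊗[F] D) (algebraMap F L c) := by
    intro c
    rw [Algebra.algebraMap_eq_smul_one (R := F) (A := D), TensorProduct.tmul_smul,
      ← Algebra.TensorProduct.one_def,
      ← Algebra.algebraMap_eq_smul_one, IsScalarTower.algebraMap_apply F L (L ⊗[F] D)]
  have hxp' : x' ^ p = η ^ (p - 1) • x' + algebraMap L (L ⊗[F] D) (algebraMap F L γ) := by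
    rw [hx', hpow, hxp, TensorProduct.tmul_add, hscal, hηp, TensorProduct.tmul_smul, algebraMap_smul]
  have hxy' : x' * ((1 : L) ⊗ₜ[F] y) ≠ ((1 : L) ⊗ₜ[F] y) * x' := by
    rw [hx', hmul, hmul]
    intro hcon
    exact hxy (stb_inj hcon)
  obtain ⟨v, hv, hxv⟩ := eig hp x' η (algebraMap F L γ) hη hxp' _ hxy'
  -- v ^ p is a scalar
  have hpc : ∀ w : L ⊗[F] D, w ≠ 0 → x' * w = w * x' + η • w →
      w ^ p ∈ Set.range (algebraMap L (L ⊗[F] D)) ∧ w ∉ Set.range (algebraMap L (L ⊗[F] D)) := by
    intro w hw hxw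
    have hne : x' * w ≠ w * x' := by
      intro hcon
      rw [hcon] at hxw
      have h0 : η • w = 0 := by
        have := hxw.symm
        rwa [add_eq_left] at this
      rcases smul_eq_zero.mp h0 with h1 | h1
      · exact hη h1
      · exact hw h1
    constructor
    · apply sub_central hp hA x' w (w ^ p) hne
      · have := stb_pow x' w η hxw p
        rw [CharP.cast_eq_zero, zero_mul, zero_smul, add_zero] at this
        exact this.symm
      · exact (Commute.pow_self w p).eq
    · rintro ⟨a, rfl⟩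
      exact hne (Algebra.commutes a x').symm
  obtain ⟨⟨c, hc⟩, -⟩ := hpc v hv hxv
  choose g hg hgx using fun ρ : L ≃ₐ[F] L => stb_g (F := F) (D := D) (M := L) ρ
  obtain ⟨w, C, hw, hC, hxw, hwC, he⟩ := muA hp hA hm η hη s (fun ρ => (hs ρ).2.2) g hg x'
    (fun ρ => hgx ρ x) v hv hxv c hc.symm
  obtain ⟨-, hw'⟩ := hpc w hw hxw
  obtain ⟨μ, C0, hμ, hμp⟩ := muB hp hA s (fun ρ => ⟨(hs ρ).1, (hs ρ).2.1⟩) hsi w hw' C hwC he
  have hC0 : ∀ b : F, b ^ p ≠ C0 := by
    intro b hb
    apply hμ
    refine ⟨algebraMap F L b, ?_⟩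
    have hcomm : Commute μ (algebraMap L (L ⊗[F] D) (algebraMap F L b)) :=
      (Algebra.commutes (algebraMap F L b) μ).symm
    have h0 : (μ - algebraMap L (L ⊗[F] D) (algebraMap F L b)) ^ p = 0 := by
      rw [sub_pow_char_of_commute _ hcomm, hμp, ← hb, ← map_pow, ← map_pow, sub_self]
    have h1 := pow_eq_zero_iff (hp.ne_zero) |>.mp h0
    exact (sub_eq_zero.mp h1).symm
  -- descent
  have hdim : ¬ p ^ 3 ∣ Module.finrank F (L ⊗[F] D) := by
    rw [stb_dim, h, pow_succ' p 2]
    intro hcon
    apply hm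
    exact Nat.dvd_of_mul_dvd_mul_right (pow_pos hp.pos 2) hcon
  obtain ⟨u, hu⟩ := dsc (V := L ⊗[F] D) hp h C0 hC0
    ((Algebra.lmul F (L ⊗[F] D)).comp Algebra.TensorProduct.includeRight)
    (LinearMap.mulRight F μ)
    (by
      intro d
      apply LinearMap.ext
      intro z
      simp [Module.End.mul_apply, mul_assoc])
    (by
      rw [LinearMap.pow_mulRight, hμp, ← IsScalarTower.algebraMap_apply F L (L ⊗[F] D)]
      apply LinearMap.ext
      intro z
      rw [LinearMap.mulRight_apply, Module.algebraMap_end_apply, Algebra.smul_def,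
        Algebra.commutes])
    hdim
  refine ⟨u, ?_, C0, hu.symm⟩
  rintro ⟨b, rfl⟩
  apply hC0 b
  rw [← map_pow] at hu
  exact (algebraMap F D).injective hu

end Pool.Agent.H84.CY
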