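import Pool.Agent.H84.CY.Sub

/-!
# H84 CY ALB: Albert's theorem, first half

`A` a domain, central of dimension `p ^ 2` over `k`, `char k = p`, `u` not a scalar, `u ^ p = c` a scalar.
Then there is `w`, not a scalar, with `w ^ p - w` a scalar.

Proof. Let `T z = u z - z u = (L_u - R_u) z`; left and right multiplications commute and `A` has
characteristic `p`, so `T ^ p = L_u ^ p - R_u ^ p = 0` (`u ^ p` is central). `T ≠ 0` since `u` is not central
(`Algebra.IsCentral`: a central element is a scalar). Choose `z` and `j` with `T ^ (j+1) z ≠ 0` and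
`T ^ (j+2) z = 0` (exists by `T ^ p = 0` and `T ≠ 0`; for instance `Nat.find` on the least `n` with `T ^ n = 0`,
`n >= 2`, and `z` with `T ^ (n-1) z ≠ 0`). Put `y = T ^ j z`, `t = T y ≠ 0`, `T t = 0`, i.e. `u t = t u`.
With `t'` the inverse of `t` (`sub_inv`), `u t' = t' u`, and `y' = y t'` satisfies
`u y' - y' u = (u y - y u) t' = t t' = 1`. Let `w = y' u`. Then `u w - w u = (u y' - y' u) u = u`,
i.e. `u w = (w + 1) u`. Hence `u w ^ p = (w + 1) ^ p u = (w ^ p + 1) u` (`w` and `1` commute, char `p`), so
`u (w ^ p - w) = (w ^ p - w) u`; also `w ^ p - w` commutes with `w`. As `u w ≠ w u` (the difference is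
`u ≠ 0`), `sub_central` gives that `w ^ p - w` is a scalar; `w` is not a scalar because it does not commute
with `u`.
-/

set_option autoImplicit false

universe u v w

namespace Pool.Agent.H84.CY

theorem alb_as {k : Type u} {A : Type v} [Field k] [Ring A] [IsDomain A] [Algebra k A]
    [FiniteDimensional k A] [Algebra.IsCentral k A] {p : ℕ} (hp : p.Prime) [CharP k p]
    (h : Module.finrank k A = p ^ 2) (u : A) (hu : u ∉ Set.range (algebraMap k A))
    (hup : u ^ p ∈ Set.range (algebraMap k A)) :
    ∃ w : A, w ∉ Set.range (algebraMap k A) ∧ ∃ a : k, w ^ p - w = algebraMap k A a := by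
  have : Fact p.Prime := ⟨hp⟩
  have hinj : Function.Injective (algebraMap k A) := (algebraMap k A).injective
  have : CharP A p := charP_of_injective_algebraMap hinj p
  have : CharP (Module.End k A) p :=
    charP_of_injective_algebraMap (algebraMap k (Module.End k A)).injective p
  set T : Module.End k A := LinearMap.mulLeft k u - LinearMap.mulRight k u with hT
  have hTapp : ∀ z, T z = u * z - z * u := fun z => rfl
  obtain ⟨c, hc⟩ := hup
  have hTp : T ^ p = 0 := by
    rw [hT, sub_pow_char_of_commute p (LinearMap.commute_mulLeft_right u u),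
      LinearMap.pow_mulLeft, LinearMap.pow_mulRight]
    ext z
    rw [LinearMap.sub_apply, LinearMap.mulLeft_apply, LinearMap.mulRight_apply, ← hc,
      Algebra.commutes, sub_self, LinearMap.zero_apply]
  have hT0 : T ≠ 0 := by
    intro h0
    apply hu
    have hcen : u ∈ Subalgebra.center k A := by
      rw [Subalgebra.mem_center_iff]
      intro z
      have h1 : T z = 0 := by rw [h0]; rfl
      rw [hTapp, sub_eq_zero] at h1
      exact h1.symm
    have hbot := Algebra.IsCentral.out (K := k) (D := A) hcen
    rwa [Algebra.mem_bot] at hbot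
  classical
  have hex : ∃ n, T ^ n = 0 := ⟨p, hTp⟩
  set N := Nat.find hex with hN
  have hNs : T ^ N = 0 := Nat.find_spec hex
  have hN0 : N ≠ 0 := by
    intro h0
    rw [h0, pow_zero] at hNs
    exact one_ne_zero hNs
  have hN1 : N ≠ 1 := by
    intro h0
    rw [h0, pow_one] at hNs
    exact hT0 hNs
  obtain ⟨m, hm⟩ : ∃ m, N = m + 2 := ⟨N - 2, by omega⟩
  have hmin : T ^ (m + 1) ≠ 0 := Nat.find_min hex (by omega)
  obtain ⟨z, hz⟩ : ∃ z, (T ^ (m + 1)) z ≠ 0 := by
    by_contra hcon
    apply hmin
    ext z
    by_contra h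
    exact hcon ⟨z, h⟩
  set y := (T ^ m) z with hy
  set t := T y with ht
  have ht' : t = (T ^ (m + 1)) z := by
    rw [ht, hy, pow_succ', Module.End.mul_apply]
  have ht0 : t ≠ 0 := by rw [ht']; exact hz
  have hTt : T t = 0 := by
    rw [ht', ← Module.End.mul_apply, ← pow_succ', show m + 1 + 1 = N by omega, hNs]
    rfl
  have hut : u * t = t * u := by
    rw [hTapp, sub_eq_zero] at hTt
    exact hTt
  obtain ⟨t', htt', ht't⟩ := sub_inv k t ht0
  have hut' : u * t' = t' * u := by
    calc u * t' = (t' * t) * (u * t') := by rw [ht't, one_mul]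
      _ = t' * (t * u) * t' := by noncomm_ring
      _ = t' * (u * t) * t' := by rw [hut]
      _ = t' * u * (t * t') := by noncomm_ring
      _ = t' * u := by rw [htt', mul_one]
  have hy1 : u * (y * t') - (y * t') * u = 1 := by
    calc u * (y * t') - (y * t') * u = u * y * t' - y * (t' * u) := by noncomm_ring
      _ = u * y * t' - y * (u * t') := by rw [hut']
      _ = (u * y - y * u) * t' := by noncomm_ring
      _ = t * t' := by rw [← hTapp]
      _ = 1 := htt'
  set w := (y * t') * u with hw
  have hwu : u * w = (w + 1) * u := by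
    calc u * w = (u * (y * t')) * u := by rw [hw, mul_assoc u]
      _ = ((y * t') * u + 1) * u := by
        congr 1
        rw [← hy1]; abel
      _ = (w + 1) * u := by rw [hw]
  have hu0 : u ≠ 0 := by
    intro h0
    apply hu
    exact ⟨0, by rw [map_zero, h0]⟩
  have hncomm : u * w ≠ w * u := by
    intro h
    rw [hwu, add_mul, one_mul] at h
    have : u = 0 := by
      have h2 : w * u + u - w * u = 0 := by rw [h, sub_self]
      rwa [add_sub_cancel_left] at h2
    exact hu0 this
  have hpow : ∀ n : ℕ, u * w ^ n = (w + 1) ^ n * u := by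
    intro n
    induction n with
    | zero => simp
    | succ n ih =>
      rw [pow_succ, ← mul_assoc, ih, mul_assoc, hwu, ← mul_assoc, ← pow_succ]
  have hwp : (w + 1) ^ p = w ^ p + 1 := by
    rw [add_pow_char_of_commute p (Commute.one_right w), one_pow]
  have hc1 : (w ^ p - w) * u = u * (w ^ p - w) := by
    rw [mul_sub, hpow, hwp, hwu]
    noncomm_ring
  have hc2 : (w ^ p - w) * w = w * (w ^ p - w) := by
    rw [sub_mul, mul_sub, ← pow_succ, ← pow_succ']
  obtain ⟨a, ha⟩ := sub_central hp h u w (w ^ p - w) hncomm hc1 hc2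
  refine ⟨w, ?_, a, ha.symm⟩
  rintro ⟨b, hb⟩
  apply hncomm
  rw [← hb, Algebra.commutes]

end Pool.Agent.H84.CY
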