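import Mathlib

/-!
# H84 CY ART: an element with `w ^ p - w = a` gives a cyclic subfield

`F` a field of characteristic `p`, `D` a domain over `F`, `w : D` with `w ^ p - w = a` in `F` and
`minpoly F w` of degree `p`. Then there is a cyclic Galois extension `L / F` of degree `p` with an embedding
`L →ₐ[F] D`.

Proof. `minpoly F w` divides `X ^ p - X - C a` and both are monic of degree `p`, so they are equal. Let
`L = AdjoinRoot (minpoly F w)` (`minpoly.irreducible`, `w` is integral as a root of the monic
`X ^ p - X - C a`), with root `r`; `AdjoinRoot.finrank`/`PowerBasis` gives `finrank F L = p`; embedding: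
`AdjoinRoot.liftAlgHom` or `(minpoly F w)` aeval at `w` (`AdjoinRoot.Minpoly.toAdjoin`, or use the composition
with `Algebra.adjoin F {w} ⊆ D`). The polynomial `X ^ p - X - C a` is separable (its derivative is `-1` in
characteristic `p`), and it splits in `L`: its roots are `r + j`, `j = 0, ..., p - 1` (as elements of the prime
field), pairwise different, `p` of them (`(r + j) ^ p = r ^ p + j ^ p = r ^ p + j`). So `L` is a splitting field of a
separable polynomial (`r` generates `L`): `IsGalois.of_separable_splitting_field`. The Galois group has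
order `finrank F L = p` (`IsGalois.card_aut_eq_finrank`), so it is cyclic (`isCyclic_of_prime_card`).
-/

set_option autoImplicit false

universe u v w

open Polynomial

namespace Pool.Agent.H84.CY

theorem art_cyclic {F : Type u} {D : Type v} [Field F] [Ring D] [IsDomain D] [Algebra F D] {p : ℕ}
    (hp : p.Prime) [CharP F p] (w : D) (a : F) (hw : w ^ p - w = algebraMap F D a)
    (hdeg : (minpoly F w).natDegree = p) :
    ∃ (L : Type u) (_ : Field L) (_ : Algebra F L),
      IsGalois F L ∧ IsCyclic (L ≃ₐ[F] L) ∧ Module.finrank F L = p ∧ Nonempty (L →ₐ[F] D) := by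
  have : Fact p.Prime := ⟨hp⟩
  have hp1 : 1 < p := hp.one_lt
  set f : F[X] := X ^ p - X - C a with hf
  have hlow : (X + C a : F[X]).natDegree < p := by
    rw [natDegree_X_add_C]; exact hp1
  have hf' : f = X ^ p - (X + C a) := by rw [hf]; ring
  have hfm : f.Monic := by
    rw [hf']
    apply monic_X_pow_sub
    rw [degree_X_add_C]
    exact_mod_cast hp1
  have hfdeg : f.natDegree = p := by
    rw [hf', natDegree_sub_eq_left_of_natDegree_lt, natDegree_X_pow]
    rw [natDegree_X_pow]; exact hlow
  have haeval : aeval w f = 0 := by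
    rw [hf]
    simp only [map_sub, map_pow, aeval_X, aeval_C]
    rw [hw, sub_self]
  have hint : IsIntegral F w := ⟨f, hfm, by rwa [← aeval_def]⟩
  have hdvd : minpoly F w ∣ f := minpoly.dvd F w haeval
  have heq : minpoly F w = f :=
    (eq_of_monic_of_dvd_of_natDegree_le (minpoly.monic hint) hfm hdvd (by rw [hfdeg, hdeg])).symm
  have hirr : Irreducible f := heq ▸ minpoly.irreducible hint
  have : Fact (Irreducible f) := ⟨hirr⟩
  have hf0 : f ≠ 0 := hfm.ne_zero
  have hsep : f.Separable := by
    have hder : derivative f = -1 := by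
      rw [hf]
      simp [derivative_X_pow]
    rw [separable_def, hder]
    exact ⟨0, -1, by ring⟩
  set r : AdjoinRoot f := AdjoinRoot.root f with hr
  have : CharP (AdjoinRoot f) p :=
    charP_of_injective_algebraMap (algebraMap F (AdjoinRoot f)).injective p
  have heval : ∀ x : AdjoinRoot f, aeval x f = x ^ p - x - algebraMap F (AdjoinRoot f) a := by
    intro x
    have h1 : aeval x f = aeval x (X ^ p - X - C a : F[X]) := congrArg (fun g => aeval x g) hf
    rw [h1]
    simp only [map_sub, map_pow, aeval_X, aeval_C]
  have hroot : r ^ p - r = algebraMap F (AdjoinRoot f) a := by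
    have h1 : aeval r f = 0 := by
      rw [hr, AdjoinRoot.aeval_eq, AdjoinRoot.mk_self]
    rw [heval] at h1
    exact sub_eq_zero.mp h1
  have hroots : ∀ j : ℕ, aeval (r + (j : AdjoinRoot f)) f = 0 := by
    intro j
    rw [heval, add_pow_char, ← hroot]
    have h2 : ((j : AdjoinRoot f)) ^ p = (j : AdjoinRoot f) := by
      have h3 : ((j : ZMod p)) ^ p = (j : ZMod p) := ZMod.pow_card _
      have h4 := congrArg (ZMod.castHom (dvd_refl p) (AdjoinRoot f)) h3
      rw [map_pow, map_natCast] at h4
      exact h4
    rw [h2]
    ring
  have hsplit : Splits (f.map (algebraMap F (AdjoinRoot f))) := by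
    rw [splits_iff_card_roots]
    apply le_antisymm (card_roots' _)
    rw [natDegree_map, hfdeg]
    classical
    have hcard : ((Finset.range p).image (fun j : ℕ => r + (j : AdjoinRoot f))).card = p := by
      rw [Finset.card_image_of_injOn, Finset.card_range]
      intro i hi j hj hij
      have hi' : i ∈ Set.Iio p := by simpa using hi
      have hj' : j ∈ Set.Iio p := by simpa using hj
      exact CharP.natCast_injOn_Iio (AdjoinRoot f) p hi' hj' (add_left_cancel hij)
    have hsub : (Finset.range p).image (fun j : ℕ => r + (j : AdjoinRoot f))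
        ⊆ (f.map (algebraMap F (AdjoinRoot f))).roots.toFinset := by
      intro x hx
      rw [Finset.mem_image] at hx
      obtain ⟨j, _, rfl⟩ := hx
      rw [Multiset.mem_toFinset, mem_roots', IsRoot.def, eval_map_algebraMap]
      exact ⟨(Polynomial.map_ne_zero hf0), hroots j⟩
    calc p = ((Finset.range p).image (fun j : ℕ => r + (j : AdjoinRoot f))).card := hcard.symm
      _ ≤ (f.map (algebraMap F (AdjoinRoot f))).roots.toFinset.card := Finset.card_le_card hsub
      _ ≤ (f.map (algebraMap F (AdjoinRoot f))).roots.card := Multiset.toFinset_card_le _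
  have hsf : f.IsSplittingField F (AdjoinRoot f) := by
    refine ⟨hsplit, ?_⟩
    rw [eq_top_iff, ← AdjoinRoot.adjoinRoot_eq_top]
    apply Algebra.adjoin_mono
    intro x hx
    rw [Set.mem_singleton_iff] at hx
    rw [hx, mem_rootSet]
    refine ⟨hf0, ?_⟩
    have := hroots 0
    simpa [hr] using this
  have hfin : Module.finrank F (AdjoinRoot f) = p := by
    rw [← hfdeg]
    exact finrank_quotient_span_eq_natDegree
  have hgal : IsGalois F (AdjoinRoot f) := IsGalois.of_separable_splitting_field hsep
  have : FiniteDimensional F (AdjoinRoot f) :=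
    FiniteDimensional.of_finrank_pos (by rw [hfin]; exact hp.pos)
  have hcyc : IsCyclic (AdjoinRoot f ≃ₐ[F] AdjoinRoot f) := by
    apply isCyclic_of_prime_card (p := p)
    rw [IsGalois.card_aut_eq_finrank, hfin]
  refine ⟨AdjoinRoot f, inferInstance, inferInstance, hgal, hcyc, hfin, ⟨?_⟩⟩
  exact Ideal.Quotient.liftₐ (Ideal.span {f}) (aeval w : F[X] →ₐ[F] D) (by
    intro g hg
    obtain ⟨q, hq⟩ := Ideal.mem_span_singleton.mp hg
    rw [hq, map_mul, haeval, zero_mul])

end Pool.Agent.H84.CY
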