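import Pool.Agent.H84.CY.StA
import Pool.Agent.H84.CY.StB
import Pool.Agent.H84.CY.Alb
import Pool.Agent.H84.CY.Art

/-!
# H84 CY MAIN: division algebras of degree 5 in characteristic 5 are cyclic
-/

set_option autoImplicit false

universe u v w

namespace Pool.Agent.H84.CY

/-- A division algebra of prime degree `p = char F` with a non scalar `x`, `x ^ p = δ x + γ`, is cyclic. -/
theorem main_sub {F : Type u} {D : Type v} [Field F] [DivisionRing D] [Algebra F D]
    [Algebra.IsCentral F D] [FiniteDimensional F D] {p : ℕ} (hp : p.Prime) [CharP F p]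
    (h : Module.finrank F D = p ^ 2) (x : D) (hx : x ∉ Set.range (algebraMap F D)) (δ γ : F)
    (hxp : x ^ p = δ • x + algebraMap F D γ) :
    ∃ (L : Type u) (_ : Field L) (_ : Algebra F L),
      IsGalois F L ∧ IsCyclic (L ≃ₐ[F] L) ∧ Module.finrank F L = p ∧ Nonempty (L →ₐ[F] D) := by
  obtain ⟨u, hu, hup⟩ := stB hp h x hx δ γ hxp
  obtain ⟨w, hw, a, hwa⟩ := alb_as hp h u hu hup
  exact art_cyclic hp w a hwa (sub_minpoly hp h w hw)

theorem main_five {F : Type u} {D : Type v} [Field F] [DivisionRing D] [Algebra F D]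
    [Algebra.IsCentral F D] [FiniteDimensional F D] [CharP F 5]
    (h : Module.finrank F D = 5 ^ 2) :
    ∃ (L : Type u) (_ : Field L) (_ : Algebra F L),
      IsGalois F L ∧ IsCyclic (L ≃ₐ[F] L) ∧ Module.finrank F L = 5 ∧ Nonempty (L →ₐ[F] D) := by
  obtain ⟨x, δ, γ, hx, hxp⟩ := sta (F := F) (D := D) h
  exact main_sub (by norm_num) h x hx δ γ hxp

end Pool.Agent.H84.CY
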