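import Mathlib

/-!
# H84 CY DEG: degrees in a parameter of the coefficients of a characteristic polynomial

`K` an infinite field, `B 0, ..., B d` square matrices of size `n`, `M(t) = ∑ j, t ^ j • B j`. The coefficient of
`X ^ i` of the characteristic polynomial of `M(t)` is a polynomial `P i` in `t` of degree at most `d * (n - i)`,
and its coefficient at `t ^ (d * (n - i))` is the coefficient of `X ^ i` of the charpoly of the leading matrix `B d`.

Proof. Let `M` be the matrix over `K[X]` with entries `∑ j, C (B j a b) * X ^ j` (degree at most `d`), and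
`P i = M.charpoly.coeff i`. Evaluation at `t`: `Matrix.charpoly_map` with `Polynomial.evalRingHom t`. For the degree
say that a polynomial `f` over `K[X]` is `m`-good with symbol `g : K[X]` if for all `i`: `i <= m` implies that
`f.coeff i` has degree at most `d * (m - i)` with coefficient at `d * (m - i)` equal to `g.coeff i`, and `i > m`
implies `f.coeff i = 0` and `g.coeff i = 0`. Sums of `m`-good polynomials are `m`-good with the sum of the symbols,
products of an `m`-good and an `m'`-good one are `(m + m')`-good with the product of the symbols (in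
`∑ f.coeff i * f'.coeff i'`, `i + i' = k`, all terms have degree at most `d * (m + m' - k)`), an entry of the
characteristic matrix, `X - C (M a a)` or `- C (M a b)`, is `1`-good with symbol the corresponding entry of the
characteristic matrix of `B d`. So the determinant (`Matrix.det_apply`) is `n`-good with symbol the charpoly of `B d`.
(Alternative for the last coefficient: compare with the reversed family for `t ≠ 0`.)
-/

set_option autoImplicit false

universe u v w

open Polynomial

namespace Pool.Agent.H84.CY

/-- `f` is `m`-good with symbol `g` -/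
private def degGood {K : Type u} [Field K] (d m : ℕ) (f : K[X][X]) (g : K[X]) : Prop :=
  ∀ i, (i ≤ m → (f.coeff i).natDegree ≤ d * (m - i) ∧
    (f.coeff i).coeff (d * (m - i)) = g.coeff i) ∧ (m < i → f.coeff i = 0 ∧ g.coeff i = 0)

private theorem degGood_zero {K : Type u} [Field K] (d m : ℕ) :
    degGood (K := K) d m 0 0 := by
  intro i
  constructor
  · intro _
    simp
  · intro _
    simp

private theorem degGood_one {K : Type u} [Field K] (d : ℕ) : degGood (K := K) d 0 1 1 := by
  intro i
  constructor
  · intro hi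
    have h0 : i = 0 := Nat.le_zero.1 hi
    subst h0
    simp
  · intro hi
    have h0 : i ≠ 0 := Nat.pos_iff_ne_zero.1 hi
    simp [Polynomial.coeff_one, h0]

private theorem degGood_add {K : Type u} [Field K] {d m : ℕ} {f f' : K[X][X]} {g g' : K[X]}
    (h : degGood d m f g) (h' : degGood d m f' g') : degGood d m (f + f') (g + g') := by
  intro i
  constructor
  · intro hi
    obtain ⟨h1, h2⟩ := (h i).1 hi
    obtain ⟨h3, h4⟩ := (h' i).1 hi
    rw [Polynomial.coeff_add, Polynomial.coeff_add, Polynomial.coeff_add, h2, h4]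
    exact ⟨Polynomial.natDegree_add_le_of_degree_le h1 h3, rfl⟩
  · intro hi
    obtain ⟨h1, h2⟩ := (h i).2 hi
    obtain ⟨h3, h4⟩ := (h' i).2 hi
    rw [Polynomial.coeff_add, Polynomial.coeff_add, h1, h2, h3, h4]
    simp

private theorem degGood_neg {K : Type u} [Field K] {d m : ℕ} {f : K[X][X]} {g : K[X]}
    (h : degGood d m f g) : degGood d m (-f) (-g) := by
  intro i
  constructor
  · intro hi
    obtain ⟨h1, h2⟩ := (h i).1 hi
    rw [Polynomial.coeff_neg, Polynomial.coeff_neg, Polynomial.coeff_neg, h2,
      Polynomial.natDegree_neg]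
    exact ⟨h1, rfl⟩
  · intro hi
    obtain ⟨h1, h2⟩ := (h i).2 hi
    rw [Polynomial.coeff_neg, Polynomial.coeff_neg, h1, h2]
    simp

private theorem degGood_sum {K : Type u} [Field K] {d m : ℕ} {ι : Type*} (s : Finset ι)
    (f : ι → K[X][X]) (g : ι → K[X]) (h : ∀ a ∈ s, degGood d m (f a) (g a)) :
    degGood d m (∑ a ∈ s, f a) (∑ a ∈ s, g a) := by
  classical
  induction s using Finset.induction_on with
  | empty =>
    rw [Finset.sum_empty, Finset.sum_empty]
    exact degGood_zero d m
  | insert a s ha ih =>
    rw [Finset.sum_insert ha, Finset.sum_insert ha]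
    exact degGood_add (h a (Finset.mem_insert_self a s))
      (ih (fun b hb => h b (Finset.mem_insert_of_mem hb)))

private theorem degGood_mul {K : Type u} [Field K] {d m m' : ℕ} {f f' : K[X][X]} {g g' : K[X]}
    (h : degGood d m f g) (h' : degGood d m' f' g') :
    degGood d (m + m') (f * f') (g * g') := by
  intro k
  constructor
  · intro hk
    have key : ∀ x ∈ Finset.HasAntidiagonal.antidiagonal k,
        (f.coeff x.1 * f'.coeff x.2).natDegree ≤ d * (m + m' - k) ∧
        (f.coeff x.1 * f'.coeff x.2).coeff (d * (m + m' - k)) = g.coeff x.1 * g'.coeff x.2 := by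
      intro x hx
      have hxk : x.1 + x.2 = k := Finset.HasAntidiagonal.mem_antidiagonal.1 hx
      rcases lt_or_ge m x.1 with h1 | h1
      · obtain ⟨e1, e2⟩ := (h x.1).2 h1
        rw [e1, e2]
        simp
      rcases lt_or_ge m' x.2 with h2 | h2
      · obtain ⟨e1, e2⟩ := (h' x.2).2 h2
        rw [e1, e2]
        simp
      obtain ⟨a1, a2⟩ := (h x.1).1 h1
      obtain ⟨b1, b2⟩ := (h' x.2).1 h2
      have hdeg : d * (m + m' - k) = d * (m - x.1) + d * (m' - x.2) := by
        rw [← Nat.mul_add]
        congr 1
        omega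
      rw [hdeg, Polynomial.coeff_mul_add_eq_of_natDegree_le a1 b1, a2, b2]
      exact ⟨Polynomial.natDegree_mul_le_of_le a1 b1, rfl⟩
    rw [Polynomial.coeff_mul, Polynomial.coeff_mul, Polynomial.finsetSum_coeff]
    refine ⟨?_, Finset.sum_congr rfl (fun x hx => (key x hx).2)⟩
    exact Polynomial.natDegree_sum_le_of_forall_le _ _ (fun x hx => (key x hx).1)
  · intro hk
    rw [Polynomial.coeff_mul, Polynomial.coeff_mul]
    constructor
    · apply Finset.sum_eq_zero
      intro x hx
      have hxk : x.1 + x.2 = k := Finset.HasAntidiagonal.mem_antidiagonal.1 hx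
      rcases lt_or_ge m x.1 with h1 | h1
      · rw [((h x.1).2 h1).1, zero_mul]
      · have h2 : m' < x.2 := by omega
        rw [((h' x.2).2 h2).1, mul_zero]
    · apply Finset.sum_eq_zero
      intro x hx
      have hxk : x.1 + x.2 = k := Finset.HasAntidiagonal.mem_antidiagonal.1 hx
      rcases lt_or_ge m x.1 with h1 | h1
      · rw [((h x.1).2 h1).2, zero_mul]
      · have h2 : m' < x.2 := by omega
        rw [((h' x.2).2 h2).2, mul_zero]

private theorem degGood_prod {K : Type u} [Field K] {d : ℕ} {ι : Type*} (s : Finset ι)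
    (f : ι → K[X][X]) (g : ι → K[X]) (h : ∀ a ∈ s, degGood d 1 (f a) (g a)) :
    degGood d s.card (∏ a ∈ s, f a) (∏ a ∈ s, g a) := by
  classical
  induction s using Finset.induction_on with
  | empty =>
    rw [Finset.prod_empty, Finset.prod_empty, Finset.card_empty]
    exact degGood_one d
  | insert a s ha ih =>
    rw [Finset.prod_insert ha, Finset.prod_insert ha, Finset.card_insert_of_notMem ha,
      Nat.add_comm]
    exact degGood_mul (h a (Finset.mem_insert_self a s))
      (ih (fun b hb => h b (Finset.mem_insert_of_mem hb)))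

private theorem degGood_det {K : Type u} [Field K] {n d : ℕ}
    (M : Matrix (Fin n) (Fin n) K[X][X]) (N : Matrix (Fin n) (Fin n) K[X])
    (h : ∀ a b, degGood d 1 (M a b) (N a b)) : degGood d n M.det N.det := by
  rw [Matrix.det_apply, Matrix.det_apply]
  apply degGood_sum
  intro σ _
  have h1 := degGood_prod Finset.univ (fun i => M (σ i) i) (fun i => N (σ i) i)
    (fun a _ => h (σ a) a)
  rw [Finset.card_univ, Fintype.card_fin] at h1
  rcases Int.units_eq_one_or (Equiv.Perm.sign σ) with hs | hs
  · rw [hs, one_smul, one_smul]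
    exact h1
  · rw [hs, Units.neg_smul, Units.neg_smul, one_smul, one_smul]
    exact degGood_neg h1

private theorem degGood_entry {K : Type u} [Field K] {n d : ℕ}
    (M : Matrix (Fin n) (Fin n) K[X]) (N : Matrix (Fin n) (Fin n) K)
    (h : ∀ a b, (M a b).natDegree ≤ d ∧ (M a b).coeff d = N a b) (a b : Fin n) :
    degGood d 1 (M.charmatrix a b) (N.charmatrix a b) := by
  obtain ⟨h1, h2⟩ := h a b
  intro i
  constructor
  · intro hi
    rcases Nat.le_one_iff_eq_zero_or_eq_one.1 hi with rfl | rfl
    · by_cases hab : a = b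
      · subst hab
        rw [Matrix.charmatrix_apply_eq, Matrix.charmatrix_apply_eq]
        simp [h1, h2]
      · rw [Matrix.charmatrix_apply_ne _ _ _ hab, Matrix.charmatrix_apply_ne _ _ _ hab]
        simp [h1, h2]
    · by_cases hab : a = b
      · subst hab
        rw [Matrix.charmatrix_apply_eq, Matrix.charmatrix_apply_eq]
        simp [Polynomial.coeff_X, Polynomial.coeff_C]
      · rw [Matrix.charmatrix_apply_ne _ _ _ hab, Matrix.charmatrix_apply_ne _ _ _ hab]
        simp [Polynomial.coeff_C]
  · intro hi
    have e0 : i ≠ 0 := by omega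
    have e1 : ¬ 1 = i := by omega
    by_cases hab : a = b
    · subst hab
      rw [Matrix.charmatrix_apply_eq, Matrix.charmatrix_apply_eq]
      simp [Polynomial.coeff_X, Polynomial.coeff_C, e0, e1]
    · rw [Matrix.charmatrix_apply_ne _ _ _ hab, Matrix.charmatrix_apply_ne _ _ _ hab]
      simp [Polynomial.coeff_C, e0]

theorem deg_family {K : Type u} [Field K] {n d : ℕ} (B : Fin (d + 1) → Matrix (Fin n) (Fin n) K)
    (i : ℕ) (hi : i ≤ n) :
    ∃ P : K[X], P.natDegree ≤ d * (n - i) ∧
      (∀ t : K, P.eval t = (∑ j : Fin (d + 1), t ^ (j : ℕ) • B j).charpoly.coeff i) ∧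
      P.coeff (d * (n - i)) = (B (Fin.last d)).charpoly.coeff i := by
  let M : Matrix (Fin n) (Fin n) K[X] := fun a b => ∑ j : Fin (d + 1), C (B j a b) * X ^ (j : ℕ)
  have hentry : ∀ a b, (M a b).natDegree ≤ d ∧ (M a b).coeff d = B (Fin.last d) a b := by
    intro a b
    constructor
    · apply Polynomial.natDegree_sum_le_of_forall_le
      intro j _
      refine (Polynomial.natDegree_C_mul_X_pow_le _ _).trans ?_
      have := j.2
      omega
    · change (∑ j : Fin (d + 1), C (B j a b) * X ^ (j : ℕ)).coeff d = _
      rw [Polynomial.finsetSum_coeff, Finset.sum_eq_single (Fin.last d)]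
      · simp
      · intro j _ hj
        have hjd : d ≠ (j : ℕ) := by
          intro h
          apply hj
          apply Fin.ext
          rw [Fin.val_last]
          exact h.symm
        simp [Polynomial.coeff_X_pow, hjd]
      · intro h
        exact absurd (Finset.mem_univ _) h
  have hgood : degGood d n M.charpoly (B (Fin.last d)).charpoly :=
    degGood_det _ _ (degGood_entry M (B (Fin.last d)) hentry)
  obtain ⟨h1, h2⟩ := (hgood i).1 hi
  refine ⟨M.charpoly.coeff i, h1, fun t => ?_, h2⟩
  have hM : (∑ j : Fin (d + 1), t ^ (j : ℕ) • B j) = M.map (Polynomial.evalRingHom t) := by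
    ext a b
    rw [Matrix.sum_apply, Matrix.map_apply]
    change _ = Polynomial.evalRingHom t (∑ j : Fin (d + 1), C (B j a b) * X ^ (j : ℕ))
    rw [map_sum]
    apply Finset.sum_congr rfl
    intro j _
    rw [Matrix.smul_apply, smul_eq_mul, Polynomial.coe_evalRingHom, Polynomial.eval_mul,
      Polynomial.eval_C, Polynomial.eval_pow, Polynomial.eval_X, mul_comm]
  rw [hM, Matrix.charpoly_map, Polynomial.coeff_map, Polynomial.coe_evalRingHom]

theorem deg_quad {K : Type u} [Field K] {n : ℕ} (B0 B1 B2 : Matrix (Fin n) (Fin n) K)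
    (i : ℕ) (hi : i ≤ n) :
    ∃ P : K[X], P.natDegree ≤ 2 * (n - i) ∧
      (∀ t : K, P.eval t = (B0 + t • B1 + t ^ 2 • B2).charpoly.coeff i) ∧
      P.coeff (2 * (n - i)) = B2.charpoly.coeff i := by
  obtain ⟨P, h1, h2, h3⟩ := deg_family (d := 2) ![B0, B1, B2] i hi
  refine ⟨P, h1, fun t => ?_, ?_⟩
  · rw [h2 t]
    simp [Fin.sum_univ_succ, add_assoc]
  · rw [h3]; rfl

theorem deg_lin {K : Type u} [Field K] {n : ℕ} (B0 B1 : Matrix (Fin n) (Fin n) K)
    (i : ℕ) (hi : i ≤ n) :
    ∃ P : K[X], P.natDegree ≤ n - i ∧
      (∀ t : K, P.eval t = (B0 + t • B1).charpoly.coeff i) := by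
  obtain ⟨P, h1, h2, h3⟩ := deg_family (d := 1) ![B0, B1] i hi
  refine ⟨P, by simpa using h1, fun t => ?_⟩
  rw [h2 t]
  simp [Fin.sum_univ_succ]

end Pool.Agent.H84.CY
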