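import Mathlib

/-!
# H84 CY SIM: `M ⊗ D` is simple and central

`D` a division ring, central over `F`, `M` a field extension of `F` (any). Then `M ⊗[F] D` is a simple ring and is
central over `M`.

Proof. Transfer along `Algebra.TensorProduct.comm F M D` and work in `D ⊗[F] M`, which is a left `D`-space with
basis `1 ⊗ b i`, `b` a basis of `M` over `F` (`Algebra.TensorProduct.basis D b`; every element is a finite sum
`z = ∑ d i ⊗ b i` with unique `d i`).

(1) (`sim_comm`) If `z` commutes with all `d ⊗ 1` then `z = 1 ⊗ m`: comparing coefficients,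
`(d ⊗ 1) z - z (d ⊗ 1) = ∑ (d d i - d i d) ⊗ b i`, so every `d i` is central, hence in `F`, and
`z = ∑ (c i) ⊗ b i = 1 ⊗ ∑ c i • b i`.

(2) simple: let `I` be a two-sided ideal with a nonzero element; choose a nonzero `z ∈ I` with the least number of
nonzero coefficients `d i`; multiply by `d j⁻¹ ⊗ 1` on the left for some `j` with `d j ≠ 0` so that `d j = 1`.
For `d : D` the element `(d ⊗ 1) z - z (d ⊗ 1)` lies in `I` and has fewer nonzero coefficients (coefficient
`d d i - d i d` at `i`, zero at `j`), so it is zero. By (1) `z = 1 ⊗ m` with `m ≠ 0`, and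
`(1 ⊗ m⁻¹) z = 1 ∈ I`, so `I = ⊤`. (`IsSimpleRing.of_eq_bot_or_eq_top`; the transfer to `M ⊗ D` by
`RingEquiv`, see `Mathlib/RingTheory/SimpleRing/Congr.lean`.)

(3) central over `M`: an element of the centre of `M ⊗ D` commutes with all `1 ⊗ d`, so by (1) it is `m ⊗ 1`,
which is `algebraMap M (M ⊗[F] D) m`.
-/

set_option autoImplicit false

universe u v w

open TensorProduct

namespace Pool.Agent.H84.CY

section aux

variable {F : Type u} {D : Type v} {M : Type w} [Field F] [DivisionRing D] [Algebra F D]
  [Field M] [Algebra F M]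

theorem sim_left {ι : Type*} [DecidableEq ι] (b : Module.Basis ι F M) (d : D) (z : M ⊗[F] D) (i : ι) :
    TensorProduct.equivFinsuppOfBasisLeft b ((1 ⊗ₜ[F] d : M ⊗[F] D) * z) i =
      d * TensorProduct.equivFinsuppOfBasisLeft b z i := by
  induction z using TensorProduct.induction_on with
  | zero => simp
  | tmul m x =>
    rw [Algebra.TensorProduct.tmul_mul_tmul, one_mul,
      TensorProduct.equivFinsuppOfBasisLeft_apply_tmul_apply,
      TensorProduct.equivFinsuppOfBasisLeft_apply_tmul_apply, mul_smul_comm]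
  | add x y hx hy =>
    rw [mul_add, map_add, map_add, Finsupp.add_apply, Finsupp.add_apply, hx, hy, mul_add]

theorem sim_right {ι : Type*} [DecidableEq ι] (b : Module.Basis ι F M) (d : D) (z : M ⊗[F] D) (i : ι) :
    TensorProduct.equivFinsuppOfBasisLeft b (z * (1 ⊗ₜ[F] d : M ⊗[F] D)) i =
      TensorProduct.equivFinsuppOfBasisLeft b z i * d := by
  induction z using TensorProduct.induction_on with
  | zero => simp
  | tmul m x =>
    rw [Algebra.TensorProduct.tmul_mul_tmul, mul_one,
      TensorProduct.equivFinsuppOfBasisLeft_apply_tmul_apply,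
      TensorProduct.equivFinsuppOfBasisLeft_apply_tmul_apply, smul_mul_assoc]
  | add x y hx hy =>
    rw [add_mul, map_add, map_add, Finsupp.add_apply, Finsupp.add_apply, hx, hy, add_mul]

end aux

theorem sim_comm {F : Type u} {D : Type v} {M : Type w} [Field F] [DivisionRing D] [Algebra F D]
    [Algebra.IsCentral F D] [Field M] [Algebra F M] (z : M ⊗[F] D)
    (hz : ∀ d : D, (1 ⊗ₜ[F] d : M ⊗[F] D) * z = z * (1 ⊗ₜ[F] d)) :
    ∃ m : M, z = m ⊗ₜ[F] (1 : D) := by
  classical
  let b := Module.Free.chooseBasis F M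
  have h1 : ∀ i, ∃ c : F, TensorProduct.equivFinsuppOfBasisLeft b z i = algebraMap F D c := by
    intro i
    rw [← Algebra.IsCentral.mem_center_iff, Subalgebra.mem_center_iff]
    intro d
    rw [← sim_left b d z i, ← sim_right b d z i, hz d]
  choose c hc using h1
  refine ⟨(TensorProduct.equivFinsuppOfBasisLeft b z).sum fun i _ => c i • b i, ?_⟩
  have h2 : z = (TensorProduct.equivFinsuppOfBasisLeft b).symm
      (TensorProduct.equivFinsuppOfBasisLeft b z) := by
    rw [LinearEquiv.symm_apply_apply]
  conv_lhs => rw [h2, TensorProduct.equivFinsuppOfBasisLeft_symm_apply]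
  rw [Finsupp.sum, Finsupp.sum, TensorProduct.sum_tmul]
  refine Finset.sum_congr rfl fun i _ => ?_
  rw [hc, TensorProduct.smul_tmul, Algebra.algebraMap_eq_smul_one]

theorem sim_simple (F : Type u) (D : Type v) (M : Type w) [Field F] [DivisionRing D] [Algebra F D]
    [Algebra.IsCentral F D] [Field M] [Algebra F M] : IsSimpleRing (M ⊗[F] D) := by
  classical
  let b := Module.Free.chooseBasis F M
  let e := TensorProduct.equivFinsuppOfBasisLeft (N := D) b
  have key : ∀ (I : TwoSidedIdeal (M ⊗[F] D)) (n : ℕ) (z : M ⊗[F] D), z ∈ I → z ≠ 0 →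
      (e z).support.card = n → (1 : M ⊗[F] D) ∈ I := by
    intro I n
    induction n using Nat.strong_induction_on with
    | _ n ih =>
      intro z hz hz0 hn
      have he : e z ≠ 0 := by
        intro h
        exact hz0 (e.map_eq_zero_iff.1 h)
      obtain ⟨j, hj⟩ := Finsupp.support_nonempty_iff.2 he
      have hj' : e z j ≠ 0 := Finsupp.mem_support_iff.1 hj
      set z' : M ⊗[F] D := (1 ⊗ₜ[F] (e z j)⁻¹ : M ⊗[F] D) * z with hz'
      have hz'I : z' ∈ I := I.mul_mem_left _ _ hz
      have hez' : ∀ i, e z' i = (e z j)⁻¹ * e z i := fun i => sim_left b _ z i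
      have hz'j : e z' j = 1 := by rw [hez', inv_mul_cancel₀ hj']
      have hz'0 : z' ≠ 0 := by
        intro h
        rw [h] at hz'j
        simp at hz'j
      by_cases hall : ∀ d : D, (1 ⊗ₜ[F] d : M ⊗[F] D) * z' = z' * (1 ⊗ₜ[F] d)
      · obtain ⟨m, hm⟩ := sim_comm z' hall
        have hm0 : m ≠ 0 := by
          rintro rfl
          apply hz'0
          rw [hm, TensorProduct.zero_tmul]
        have h3 : (m⁻¹ ⊗ₜ[F] (1 : D) : M ⊗[F] D) * z' = 1 := by
          rw [hm, Algebra.TensorProduct.tmul_mul_tmul, inv_mul_cancel₀ hm0, one_mul]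
          rfl
        rw [← h3]
        exact I.mul_mem_left _ _ hz'I
      · push Not at hall
        obtain ⟨d, hd⟩ := hall
        set y : M ⊗[F] D := (1 ⊗ₜ[F] d : M ⊗[F] D) * z' - z' * (1 ⊗ₜ[F] d) with hy
        have hyI : y ∈ I := I.sub_mem (I.mul_mem_left _ _ hz'I) (I.mul_mem_right _ _ hz'I)
        have hy0 : y ≠ 0 := by
          intro h
          exact hd (sub_eq_zero.1 h)
        have hey : ∀ i, e y i = d * e z' i - e z' i * d := by
          intro i
          rw [hy, map_sub, Finsupp.sub_apply]
          congr 1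
          · exact sim_left b d z' i
          · exact sim_right b d z' i
        have hsub : (e y).support ⊂ (e z).support := by
          rw [Finset.ssubset_iff_of_subset]
          · refine ⟨j, hj, ?_⟩
            rw [Finsupp.notMem_support_iff, hey, hz'j, mul_one, one_mul, sub_self]
          · intro i hi
            rw [Finsupp.mem_support_iff] at hi ⊢
            intro h
            apply hi
            rw [hey, hez', h, mul_zero, mul_zero, zero_mul, sub_self]
        exact ih _ (by rw [← hn]; exact Finset.card_lt_card hsub) y hyI hy0 rfl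
  have : Nontrivial (M ⊗[F] D) := inferInstance
  refine IsSimpleRing.of_eq_bot_or_eq_top fun I => ?_
  by_cases hI : ∃ z ∈ I, z ≠ 0
  · right
    obtain ⟨z, hz, hz0⟩ := hI
    have h1 := key I _ z hz hz0 rfl
    rw [eq_top_iff]
    intro x _
    have := I.mul_mem_left x 1 h1
    rwa [mul_one] at this
  · left
    push Not at hI
    rw [eq_bot_iff]
    intro x hx
    rw [TwoSidedIdeal.mem_bot]
    exact hI x hx

theorem sim_central (F : Type u) (D : Type v) (M : Type w) [Field F] [DivisionRing D] [Algebra F D]
    [Algebra.IsCentral F D] [Field M] [Algebra F M] : Algebra.IsCentral M (M ⊗[F] D) := by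
  refine ⟨fun z hz => ?_⟩
  rw [Subalgebra.mem_center_iff] at hz
  obtain ⟨m, hm⟩ := sim_comm z (fun d => hz _)
  rw [Algebra.mem_bot]
  exact ⟨m, hm.symm⟩

end Pool.Agent.H84.CY
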