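import Pool.Agent.H84.CY.Sub
import Pool.Agent.H84.CY.Sim

/-!
# H84 CY DIC: `M ⊗ D` is a domain or a full matrix algebra over `M`

`D` central division algebra of dimension `p ^ 2` over `F`, `M / F` a finite field extension.

`dic`: `R = M ⊗[F] D` is simple (`sim_simple`) and `finrank M R = p ^ 2` (base change:
`Module.finrank_baseChange`), so it is artinian and Wedderburn-Artin
(`IsSimpleRing.exists_algEquiv_matrix_divisionRing_finite M R`) gives `R ≃ₐ[M] Matrix (Fin n) (Fin n) E` with a
division ring `E` finite over `M`; `p ^ 2 = n * n * finrank M E`. If `n = 1` then `R ≃ E` is a domain. Otherwise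
`n * n ∣ p ^ 2` and `n > 1` give `n = p`, `finrank M E = 1`, so `E ≃ₐ[M] M` (`algebraMap M E` is
bijective) and `R ≃ₐ[M] Matrix (Fin p) (Fin p) M` (`AlgEquiv.mapMatrix`).

`dic_coprime`: if `p` does not divide `finrank F M` then `R` is a domain: otherwise `R ≃ₐ[M] Matrix (Fin p) (Fin p) M`,
and `D` acts on `V = Fin p → M` (`F`-algebra maps `D → M ⊗ D → Matrix ... → Module.End M V → Module.End F V`), so
`p ^ 2 = finrank F D ∣ finrank F V = p * finrank F M` by `sub_act_dvd`, and `p ∣ finrank F M`.
-/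

set_option autoImplicit false

universe u v w

open TensorProduct

namespace Pool.Agent.H84.CY

theorem dic_arith {p n f : ℕ} (hp : p.Prime) (h : n * n * f = p ^ 2) (hn : n ≠ 1) :
    n = p ∧ f = 1 := by
  have h1 : n ∣ p ^ 2 := ⟨n * f, by rw [← h]; ring⟩
  obtain ⟨i, hi, hni⟩ := (Nat.dvd_prime_pow hp).mp h1
  have hp0 : 0 < p := hp.pos
  interval_cases i
  · exact absurd (by simpa using hni) hn
  · have hnp : n = p := by simpa using hni
    refine ⟨hnp, ?_⟩
    rw [hnp] at h
    have h2 : p * p * f = p * p * 1 := by rw [h]; ring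
    exact Nat.eq_of_mul_eq_mul_left (by positivity) h2
  · exfalso
    have h2 : n * n ∣ p ^ 2 := ⟨f, h.symm⟩
    have h3 : n * n ≤ p ^ 2 := Nat.le_of_dvd (by positivity) h2
    rw [hni] at h3
    have h4 : 1 < p ^ 2 := Nat.one_lt_pow (by norm_num) hp.one_lt
    have h5 : p ^ 2 * 1 < p ^ 2 * p ^ 2 := Nat.mul_lt_mul_of_pos_left h4 (by positivity)
    omega

theorem dic (F : Type u) (D : Type v) (M : Type w) [Field F] [DivisionRing D] [Algebra F D]
    [Algebra.IsCentral F D] [FiniteDimensional F D] [Field M] [Algebra F M] [FiniteDimensional F M]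
    {p : ℕ} (hp : p.Prime) (h : Module.finrank F D = p ^ 2) :
    IsDomain (M ⊗[F] D) ∨ Nonempty ((M ⊗[F] D) ≃ₐ[M] Matrix (Fin p) (Fin p) M) := by
  have : IsSimpleRing (M ⊗[F] D) := sim_simple F D M
  have : Module.Finite M (M ⊗[F] D) := Module.Finite.base_change F M D
  have : IsArtinianRing (M ⊗[F] D) := IsArtinianRing.of_finite M (M ⊗[F] D)
  obtain ⟨n, hn, E, _, _, _, ⟨e⟩⟩ :=
    IsSimpleRing.exists_algEquiv_matrix_divisionRing_finite M (M ⊗[F] D)
  have hR : Module.finrank M (M ⊗[F] D) = p ^ 2 := by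
    rw [Module.finrank_baseChange, h]
  have hE : n * n * Module.finrank M E = p ^ 2 := by
    rw [← hR, e.toLinearEquiv.finrank_eq, Module.finrank_matrix, Fintype.card_fin]
  by_cases hn1 : n = 1
  · left
    subst hn1
    have e1 : (M ⊗[F] D) ≃+* E :=
      e.toRingEquiv.trans (Matrix.uniqueRingEquiv (m := Fin 1) (A := E))
    exact e1.toMulEquiv.isDomain E
  · right
    obtain ⟨hnp, hf⟩ := dic_arith hp hE hn1
    subst hnp
    have hsurj : Function.Surjective (algebraMap M E) := by
      rw [Algebra.surjective_algebraMap_iff]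
      exact (Subalgebra.bot_eq_top_iff_finrank_eq_one.mpr hf).symm
    have hbij : Function.Bijective (Algebra.ofId M E) :=
      ⟨(algebraMap M E).injective, hsurj⟩
    exact ⟨e.trans (AlgEquiv.ofBijective (Algebra.ofId M E) hbij).symm.mapMatrix⟩

/-- restriction of scalars for endomorphisms -/
def dicRes (F : Type u) (M : Type w) [Field F] [Field M] [Algebra F M] (p : ℕ) :
    Module.End M (Fin p → M) →ₐ[F] Module.End F (Fin p → M) where
  toFun φ := φ.restrictScalars F
  map_one' := rfl
  map_mul' _ _ := rfl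
  map_zero' := rfl
  map_add' _ _ := rfl
  commutes' _ := rfl

theorem dic_coprime (F : Type u) (D : Type v) (M : Type w) [Field F] [DivisionRing D] [Algebra F D]
    [Algebra.IsCentral F D] [FiniteDimensional F D] [Field M] [Algebra F M] [FiniteDimensional F M]
    {p : ℕ} (hp : p.Prime) (h : Module.finrank F D = p ^ 2) (hM : ¬ p ∣ Module.finrank F M) :
    IsDomain (M ⊗[F] D) := by
  rcases dic F D M hp h with hd | he
  · exact hd
  · exfalso
    obtain ⟨e⟩ := he
    apply hM
    let f1 : D →ₐ[F] (M ⊗[F] D) := Algebra.TensorProduct.includeRight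
    let f2 : (M ⊗[F] D) →ₐ[F] Matrix (Fin p) (Fin p) M := e.toAlgHom.restrictScalars F
    let f3 : Matrix (Fin p) (Fin p) M →ₐ[F] Module.End M (Fin p → M) :=
      (Matrix.toLinAlgEquiv' : Matrix (Fin p) (Fin p) M ≃ₐ[M] _).toAlgHom.restrictScalars F
    let f : D →ₐ[F] Module.End F (Fin p → M) := (dicRes F M p).comp (f3.comp (f2.comp f1))
    have h1 := sub_act_dvd f
    rw [h, Module.finrank_pi_fintype F, Finset.sum_const, Finset.card_univ, Fintype.card_fin,
      smul_eq_mul, pow_two] at h1
    exact Nat.dvd_of_mul_dvd_mul_left hp.pos h1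

end Pool.Agent.H84.CY
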