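import Mathlib

/-!
# H84 CY EIG: an eigenvector of `ad x`

`A` a domain over a field `L` of characteristic `p`, `x : A` with `x ^ p = η ^ (p - 1) x + γ`, `η ≠ 0`, `x` not
central. Then there is `v ≠ 0` with `x v = v x + η v`.

Proof. Let `T z = x z - z x = (L_x - R_x) z`. Left and right multiplication by `x` commute and the characteristic
is `p`, so `T ^ p = L_x ^ p - R_x ^ p = L_(x^p) - R_(x^p) = η ^ (p-1) T` (`γ` is central). Let `z0 = T y ≠ 0` where
`x y ≠ y x`. Then `T ^ (p-1) z0 = η ^ (p-1) z0`. For `j = 1, ..., p - 1` put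
`v_j = ∑_{k < p-1} (j η) ^ (p - 2 - k) • T ^ k z0` (or with `(j η) ^ (-k)`); since `(j η) ^ (p-1) = η ^ (p-1)`
(`j ^ (p-1) = 1` in the prime field), `T v_j = (j η) • v_j`. Not all `v_j` vanish: alternatively, argue as
follows: `∏_{j = 1}^{p-1} (T - j η) = T ^ (p-1) - η ^ (p-1)` kills `z0 ≠ 0`, so at least one factor
`T - j η` is not injective. (In polynomials over `L`: `∏_{j : (ZMod p)ˣ} (X - C (j η)) = X ^ (p-1) - C (η ^ (p-1))`,
both monic of degree `p - 1` with the `p - 1` different roots `j η`; or from
`FiniteField.X_pow_card_sub_X...`; then `aeval T`.) So there are `j` with `0 < j < p` and `v ≠ 0` with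
`x v = v x + j η v`. Choose `n` with `n j = 1` in the prime field; then by induction
`x v ^ i = v ^ i x + i j η v ^ i`, and `v ^ n` (nonzero since `A` is a domain) is as wanted.
-/

set_option autoImplicit false

universe u v w

namespace Pool.Agent.H84.CY

open Polynomial in
/-- `X ^ p - X` is the product of its linear factors over the prime field. -/
theorem eig_prod (p : ℕ) [Fact p.Prime] :
    (∏ a : ZMod p, (X - C a) : (ZMod p)[X]) = X ^ p - X := by
  have hp1 : 1 < p := (Fact.out : p.Prime).one_lt
  have hroots := FiniteField.roots_X_pow_card_sub_X (ZMod p)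
  rw [ZMod.card] at hroots
  have hdeg := FiniteField.X_pow_card_sub_X_natDegree_eq (ZMod p) hp1
  have hmonic : (X ^ p - X : (ZMod p)[X]).Monic := by
    apply Polynomial.monic_X_pow_sub
    rw [degree_X]
    exact_mod_cast hp1
  have hcard : Multiset.card (X ^ p - X : (ZMod p)[X]).roots = (X ^ p - X : (ZMod p)[X]).natDegree := by
    rw [hroots, hdeg, ← Finset.card_def, Finset.card_univ, ZMod.card]
  have := Polynomial.prod_multiset_X_sub_C_of_monic_of_roots_card_eq hmonic hcard
  rw [hroots] at this
  exact this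

/-- A product of commuting operators killing a nonzero vector has a factor that kills a nonzero vector. -/
theorem eig_factor {L : Type u} {V : Type v} [Field L] [AddCommGroup V] [Module L V]
    {ι : Type} (f : ι → Module.End L V) (l : List ι) :
    ∀ z : V, z ≠ 0 → (l.map f).prod z = 0 → ∃ j ∈ l, ∃ v : V, v ≠ 0 ∧ f j v = 0 := by
  induction l with
  | nil => intro z hz h; simp at h; exact absurd h hz
  | cons j l ih =>
    intro z hz h
    rw [List.map_cons, List.prod_cons, Module.End.mul_apply] at h
    by_cases h0 : (l.map f).prod z = 0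
    · obtain ⟨i, hi, v, hv, hfv⟩ := ih z hz h0
      exact ⟨i, List.mem_cons_of_mem _ hi, v, hv, hfv⟩
    · exact ⟨j, List.mem_cons_self, _, h0, h⟩

open Polynomial in
/-- If `S ^ p = S` and `S y ≠ 0` then `S` has an eigenvector with a nonzero eigenvalue in the prime field. -/
theorem eig_eigen {L : Type u} {V : Type v} [Field L] [AddCommGroup V] [Module L V] {p : ℕ}
    [Fact p.Prime] [CharP L p] (S : Module.End L V) (hS : S ^ p = S) (y : V) (hy : S y ≠ 0) :
    ∃ j : ℕ, (j : L) ≠ 0 ∧ ∃ v : V, v ≠ 0 ∧ S v = (j : L) • v := by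
  classical
  have h0 := eig_prod p
  rw [← Finset.mul_prod_erase Finset.univ _ (Finset.mem_univ (0 : ZMod p)), map_zero, sub_zero,
    mul_comm, ← Finset.prod_map_toList] at h0
  have h1 := congrArg (Polynomial.map (ZMod.castHom (dvd_refl p) L)) h0
  rw [← Polynomial.coe_mapRingHom, map_mul, map_list_prod, List.map_map] at h1
  have h2 := congrArg (Polynomial.aeval S) h1
  rw [map_mul, map_list_prod, List.map_map] at h2
  simp only [Polynomial.coe_mapRingHom, Polynomial.map_sub, Polynomial.map_X, Polynomial.map_pow, map_sub,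
    Polynomial.aeval_X, map_pow, hS, sub_self] at h2
  have h3 := LinearMap.congr_fun h2 y
  rw [Module.End.mul_apply, LinearMap.zero_apply] at h3
  obtain ⟨a, ha, v, hv, hav⟩ := eig_factor _ _ _ hy h3
  have ha0 : a ≠ 0 := by
    rw [Finset.mem_toList, Finset.mem_erase] at ha
    exact ha.1
  have hcast : ((a.val : ℕ) : L) = ZMod.castHom (dvd_refl p) L a := by
    conv_rhs => rw [← ZMod.natCast_zmod_val a]
    rw [map_natCast]
  refine ⟨a.val, ?_, v, hv, ?_⟩
  · rw [hcast]
    intro h
    exact ha0 ((map_eq_zero_iff _ (ZMod.castHom (dvd_refl p) L).injective).mp h)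
  · simp only [Function.comp_apply, Polynomial.coe_mapRingHom, Polynomial.map_sub, Polynomial.map_X, Polynomial.map_C, map_sub,
      Polynomial.aeval_X, Polynomial.aeval_C, LinearMap.sub_apply, Module.algebraMap_end_apply] at hav
    rw [hcast]
    exact sub_eq_zero.mp hav

/-- Powers of an eigenvector of `ad x`. -/
theorem eig_pow {L : Type u} {A : Type v} [Field L] [Ring A] [Algebra L A] (x v : A) (c : L)
    (h : x * v = v * x + c • v) (i : ℕ) : x * v ^ i = v ^ i * x + ((i : L) * c) • v ^ i := by
  induction i with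
  | zero => simp
  | succ i ih =>
    rw [pow_succ, ← mul_assoc, ih, add_mul, mul_assoc, h, mul_add, ← mul_assoc, mul_smul_comm,
      smul_mul_assoc, add_assoc, ← add_smul]
    congr 2
    push_cast
    ring

theorem eig {L : Type u} {A : Type v} [Field L] [Ring A] [IsDomain A] [Algebra L A] {p : ℕ}
    (hp : p.Prime) [CharP L p] (x : A) (η γ : L) (hη : η ≠ 0)
    (hx : x ^ p = η ^ (p - 1) • x + algebraMap L A γ) (y : A) (hxy : x * y ≠ y * x) :
    ∃ v : A, v ≠ 0 ∧ x * v = v * x + η • v := by
  have : Fact p.Prime := ⟨hp⟩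
  have hE : CharP (Module.End L A) p :=
    charP_of_injective_algebraMap (FaithfulSMul.algebraMap_injective L (Module.End L A)) p
  have hT : (LinearMap.mulLeft L x - LinearMap.mulRight L x) ^ p
      = η ^ (p - 1) • (LinearMap.mulLeft L x - LinearMap.mulRight L x) := by
    rw [sub_pow_char_of_commute p (LinearMap.commute_mulLeft_right (R := L) x x), LinearMap.pow_mulLeft,
      LinearMap.pow_mulRight, hx]
    ext z
    simp only [LinearMap.sub_apply, LinearMap.mulLeft_apply, LinearMap.mulRight_apply,
      LinearMap.smul_apply, add_mul, mul_add, smul_mul_assoc, mul_smul_comm, smul_sub]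
    rw [Algebra.commutes γ z]
    abel
  have hS : (η⁻¹ • (LinearMap.mulLeft L x - LinearMap.mulRight L x)) ^ p
      = η⁻¹ • (LinearMap.mulLeft L x - LinearMap.mulRight L x) := by
    rw [smul_pow, hT, smul_smul]
    congr 1
    obtain ⟨k, rfl⟩ : ∃ k, p = k + 1 := ⟨p - 1, by have := hp.one_lt; omega⟩
    rw [Nat.add_sub_cancel, pow_succ, mul_right_comm, ← mul_pow, inv_mul_cancel₀ hη, one_pow, one_mul]
  have hy : (η⁻¹ • (LinearMap.mulLeft L x - LinearMap.mulRight L x)) y ≠ 0 := by
    rw [LinearMap.smul_apply, LinearMap.sub_apply, LinearMap.mulLeft_apply, LinearMap.mulRight_apply]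
    intro h
    rcases smul_eq_zero.mp h with h | h
    · exact inv_ne_zero hη h
    · exact hxy (sub_eq_zero.mp h)
  obtain ⟨j, hj, v, hv, hjv⟩ := eig_eigen _ hS y hy
  rw [LinearMap.smul_apply, LinearMap.sub_apply, LinearMap.mulLeft_apply, LinearMap.mulRight_apply] at hjv
  have hxv : x * v = v * x + (η * (j : L)) • v := by
    have h := congrArg (fun w => η • w) hjv
    simp only [smul_smul, mul_inv_cancel₀ hη, one_smul] at h
    rw [← h]
    abel
  -- an inverse of `j` in the prime field
  obtain ⟨n, hn⟩ : ∃ n : ℕ, (n : L) * (j : L) = 1 := by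
    have hj' : (j : ZMod p) ≠ 0 := by
      intro h
      apply hj
      have := congrArg (ZMod.castHom (dvd_refl p) L) h
      rwa [map_natCast, map_zero] at this
    refine ⟨((j : ZMod p)⁻¹).val, ?_⟩
    have h1 : ((((j : ZMod p)⁻¹).val : ℕ) : ZMod p) * (j : ZMod p) = 1 := by
      rw [ZMod.natCast_zmod_val, inv_mul_cancel₀ hj']
    have := congrArg (ZMod.castHom (dvd_refl p) L) h1
    rwa [map_mul, map_natCast, map_natCast, map_one] at this
  refine ⟨v ^ n, pow_ne_zero n hv, ?_⟩
  rw [eig_pow x v _ hxv n]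
  congr 2
  rw [mul_left_comm, hn, mul_one]

end Pool.Agent.H84.CY
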