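import Mathlib

/-!
# H84 CY LIN: the dimension count

`dim_F D = 25`, `dim_F K = 5`, `Ψ : D → Matrix (Fin 5) (Fin 5) K` linear over `F`, `θ : K`. There are `x0 x1 x2 : D`,
not all in `F`, such that the matrix `Ψ x0 + θ • Ψ x1 + θ ^ 2 • Ψ x2` is upper triangular with constant diagonal.

Proof. The conditions are `14` equations in `K`: the `10` entries below the diagonal vanish, and `4` differences of
diagonal entries vanish. So they define an `F`-linear map `Φ : (Fin 3 → D) → (ι → K)` with `ι` of cardinality
`14` (for example `ι = {q : Fin 5 × Fin 5 // q.2 < q.1} ⊕ Fin 4`), from dimension `75` to dimension `70`. Its kernel has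
dimension at least `5`. The triples with all components in `F` form the range of the linear map
`(Fin 3 → F) → (Fin 3 → D)`, of dimension at most `3`. So the kernel is not contained in this subspace.
-/

set_option autoImplicit false

universe u v w

namespace Pool.Agent.H84.CY

theorem lin_card :
    Fintype.card ({q : Fin 5 × Fin 5 // q.2 < q.1} ⊕ Fin 4) = 14 := by
  decide

theorem lin {F : Type u} {D : Type v} {K : Type w} [Field F] [Ring D] [Algebra F D] [Field K] [Algebra F K]
    [FiniteDimensional F D] [FiniteDimensional F K] (hD : Module.finrank F D = 25)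
    (hK : Module.finrank F K = 5) (θ : K) (Ψ : D →ₗ[F] Matrix (Fin 5) (Fin 5) K) :
    ∃ x0 x1 x2 : D, (x0 ∉ Set.range (algebraMap F D) ∨ x1 ∉ Set.range (algebraMap F D) ∨
        x2 ∉ Set.range (algebraMap F D)) ∧
      ∃ a : K, (∀ i j : Fin 5, j < i → (Ψ x0 + θ • Ψ x1 + θ ^ 2 • Ψ x2) i j = 0) ∧
        ∀ i : Fin 5, (Ψ x0 + θ • Ψ x1 + θ ^ 2 • Ψ x2) i i = a := by
  classical
  have hs : ∀ (c : F) (k : K) (A : Matrix (Fin 5) (Fin 5) K), k • (c • A) = c • (k • A) :=
    fun c k A => smul_comm k c A
  let L : (Fin 3 → D) →ₗ[F] Matrix (Fin 5) (Fin 5) K :=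
    { toFun := fun x => Ψ (x 0) + θ • Ψ (x 1) + θ ^ 2 • Ψ (x 2)
      map_add' := by
        intro x y
        simp only [Pi.add_apply, map_add, smul_add]
        abel
      map_smul' := by
        intro c x
        simp only [Pi.smul_apply, map_smul, RingHom.id_apply, smul_add, hs] }
  let Φ : (Fin 3 → D) →ₗ[F] (({q : Fin 5 × Fin 5 // q.2 < q.1} ⊕ Fin 4) → K) :=
    { toFun := fun x => Sum.elim (fun q => L x q.1.1 q.1.2)
        (fun j => L x j.succ j.succ - L x 0 0)
      map_add' := by
        intro x y
        funext i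
        rcases i with q | j
        · simp only [map_add, Sum.elim_inl, Pi.add_apply, Matrix.add_apply]
        · simp only [map_add, Sum.elim_inr, Pi.add_apply, Matrix.add_apply]
          ring
      map_smul' := by
        intro c x
        funext i
        rcases i with q | j
        · simp only [map_smul, Sum.elim_inl, Pi.smul_apply, Matrix.smul_apply, RingHom.id_apply]
        · simp only [map_smul, Sum.elim_inr, Pi.smul_apply, Matrix.smul_apply, RingHom.id_apply,
            smul_sub] }
  let S : (Fin 3 → F) →ₗ[F] (Fin 3 → D) :=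
    LinearMap.pi fun i => (Algebra.linearMap F D).comp (LinearMap.proj i)
  have h1 : Module.finrank F (Fin 3 → D) = 75 := by
    rw [Module.finrank_pi_fintype, Finset.sum_const, hD]
    simp
  have h2 : Module.finrank F (({q : Fin 5 × Fin 5 // q.2 < q.1} ⊕ Fin 4) → K) = 70 := by
    rw [Module.finrank_pi_fintype, Finset.sum_const, hK, Finset.card_univ, lin_card]
    norm_num
  have h3 := LinearMap.finrank_range_add_finrank_ker Φ
  have h4 : Module.finrank F (LinearMap.range Φ) ≤ 70 := h2 ▸ Submodule.finrank_le _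
  have h5 : Module.finrank F (LinearMap.range S) ≤ 3 := by
    refine (LinearMap.finrank_range_le S).trans ?_
    simp
  have h6 : ¬ LinearMap.ker Φ ≤ LinearMap.range S := by
    intro h
    have := Submodule.finrank_mono h
    omega
  rw [SetLike.not_le_iff_exists] at h6
  obtain ⟨x, hx, hxS⟩ := h6
  rw [LinearMap.mem_ker] at hx
  have hL : Ψ (x 0) + θ • Ψ (x 1) + θ ^ 2 • Ψ (x 2) = L x := rfl
  refine ⟨x 0, x 1, x 2, ?_, L x 0 0, ?_, ?_⟩
  · by_contra hcon
    push Not at hcon
    obtain ⟨⟨c0, hc0⟩, ⟨c1, hc1⟩, ⟨c2, hc2⟩⟩ := hcon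
    apply hxS
    refine ⟨![c0, c1, c2], ?_⟩
    funext i
    fin_cases i
    · exact hc0
    · exact hc1
    · exact hc2
  · intro i j hij
    rw [hL]
    exact congrFun hx (Sum.inl ⟨(i, j), hij⟩)
  · intro i
    rw [hL]
    refine Fin.cases rfl (fun j => ?_) i
    have h7 : L x j.succ j.succ - L x 0 0 = 0 := congrFun hx (Sum.inr j)
    exact sub_eq_zero.mp h7

end Pool.Agent.H84.CY
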