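import Mathlib

/-!
# H84 CY SCA: a solvable transitive permutation group of prime degree has a normal transitive subgroup of prime order
-/

set_option autoImplicit false

open scoped commutatorElement

namespace Pool.Agent.H84.CY

/-- a faithful transitive abelian group acting on `X` has the order of `X` -/
theorem scA_abelian {N X : Type*} [CommGroup N] [MulAction N X] [FaithfulSMul N X]
    [MulAction.IsPretransitive N X] [Nonempty X] : Nat.card N = Nat.card X := by
  obtain ⟨x0⟩ := ‹Nonempty X›
  apply Nat.card_congr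
  refine Equiv.ofBijective (fun n : N => n • x0) ⟨?_, fun y => MulAction.exists_smul_eq N x0 y⟩
  intro a b hab
  apply FaithfulSMul.eq_of_smul_eq_smul (α := X)
  intro y
  obtain ⟨g, rfl⟩ := MulAction.exists_smul_eq N x0 y
  simp only at hab
  rw [smul_smul, smul_smul, mul_comm a g, mul_comm b g, ← smul_smul, ← smul_smul, hab]

theorem scA {G X : Type*} [Group G] [MulAction G X] [FaithfulSMul G X]
    [MulAction.IsPretransitive G X] [Group.IsSolvable G] {p : ℕ} (hp : p.Prime) (hX : Nat.card X = p) :
    ∃ N : Subgroup G, N.Normal ∧ Nat.card N = p ∧ MulAction.IsPretransitive N X := by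
  classical
  have hprim : MulAction.IsPreprimitive G X := MulAction.IsPreprimitive.of_prime_card (hX ▸ hp)
  have hXf : Finite X := Nat.finite_of_card_ne_zero (by rw [hX]; exact hp.ne_zero)
  have hXn : Nontrivial X := by
    have : 1 < Nat.card X := by rw [hX]; exact hp.one_lt
    exact Finite.one_lt_card_iff_nontrivial.mp this
  have hsol : Group.IsSolvable G := inferInstance
  have hex : ∃ n, derivedSeries G n = ⊥ := hsol.solvable
  set n := Nat.find hex with hn
  have hn0 : derivedSeries G n = ⊥ := Nat.find_spec hex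
  have hnmin : ∀ m < n, derivedSeries G m ≠ ⊥ := fun m hm => Nat.find_min hex hm
  have hG : (⊤ : Subgroup G) ≠ ⊥ := by
    intro h
    obtain ⟨x, y, hxy⟩ := hXn
    obtain ⟨g, hg⟩ := MulAction.exists_smul_eq G x y
    have h1 : g ∈ (⊥ : Subgroup G) := h ▸ Subgroup.mem_top g
    rw [Subgroup.mem_bot] at h1
    rw [h1, one_smul] at hg
    exact hxy hg
  have hn1 : n ≠ 0 := by
    intro h
    rw [h, derivedSeries_zero] at hn0
    exact hG hn0
  obtain ⟨m, hm⟩ := Nat.exists_eq_succ_of_ne_zero hn1
  set A := derivedSeries G m with hA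
  have hAne : A ≠ ⊥ := hnmin m (by omega)
  have hAn : A.Normal := derivedSeries_normal G m
  have hAc : ⁅A, A⁆ = ⊥ := by
    rw [hA, ← derivedSeries_succ]
    rw [hm] at hn0
    exact hn0
  have hcomm : ∀ a b : A, a * b = b * a := by
    intro a b
    have h1 : ⁅(a : G), (b : G)⁆ ∈ ⁅A, A⁆ := Subgroup.commutator_mem_commutator a.2 b.2
    rw [hAc, Subgroup.mem_bot, commutatorElement_eq_one_iff_mul_comm] at h1
    exact Subtype.ext h1
  have hquasi : MulAction.IsQuasiPreprimitive G X := inferInstance
  have htr : MulAction.IsPretransitive A X := by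
    apply hquasi.isPretransitive_of_normal
    intro hfix
    apply hAne
    rw [eq_bot_iff]
    intro g hg
    rw [Subgroup.mem_bot]
    apply FaithfulSMul.eq_of_smul_eq_smul (α := X)
    intro x
    rw [one_smul]
    have : x ∈ MulAction.fixedPoints A X := by rw [hfix]; trivial
    exact this ⟨g, hg⟩
  have hf : FaithfulSMul A X := by
    refine ⟨fun {a b} h => ?_⟩
    apply Subtype.ext
    exact FaithfulSMul.eq_of_smul_eq_smul (α := X) h
  refine ⟨A, hAn, ?_, htr⟩
  let iC : CommGroup A := { (inferInstance : Group A) with mul_comm := hcomm }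
  have := @scA_abelian A X iC _ hf htr ⟨hXn.exists_pair_ne.choose⟩
  rw [this, hX]

end Pool.Agent.H84.CY
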