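import Mathlib

/-!
# H84 CY SCB: a subfield of prime degree `p = char` with solvable closure is generated by a root of `X ^ p - δ X - γ`

`scB_y`: an automorphism of order `p` in characteristic `p` has `y` with `σ y = y + 1`. `scB_z`: in a Galois extension
`E / F` with a normal subgroup `N = <σ>` of order `p` not contained in `H`, the elements
`z = ∑_{h in H} h (l y)`, `l` fixed by `N`, are fixed by `H`, `σ z - z = η` is fixed by `σ`, and `η ≠ 0` for a suitable
`l` (independence of characters). `scB_eq`: such a `z` of degree `p` is a root of `X ^ p - δ X - γ`.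
-/

set_option autoImplicit false

open Polynomial

namespace Pool.Agent.H84.CY

/-- an automorphism of order dividing `p` of a field of characteristic `p`, not the identity, has `y` with
`σ y = y + 1` -/
theorem scB_y {E : Type*} [Field E] {p : ℕ} (hp : p.Prime) [CharP E p] (σ : E ≃+* E)
    (h1 : ∃ x, σ x ≠ x) (hσ : ∀ x, σ^[p] x = x) : ∃ y : E, σ y = y + 1 := by
  classical
  have : Fact p.Prime := ⟨hp⟩
  let S : Module.End ℤ E := (σ : E →+ E).toIntLinearMap
  have hS : ∀ x, S x = σ x := fun x => rfl
  have hSp : ∀ (n : ℕ) (x : E), (S ^ n) x = σ^[n] x := by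
    intro n
    induction n with
    | zero => intro x; simp
    | succ n ih =>
      intro x
      rw [pow_succ', Module.End.mul_apply, ih, hS, Function.iterate_succ_apply']
  have hE : CharP (Module.End ℤ E) p := by
    refine ⟨fun n => ?_⟩
    constructor
    · intro hn
      have h1 : ((n : Module.End ℤ E)) (1 : E) = 0 := by rw [hn]; rfl
      rw [Module.End.natCast_apply, nsmul_one] at h1
      exact (CharP.cast_eq_zero_iff E p n).mp h1
    · intro hn
      apply LinearMap.ext
      intro z
      rw [Module.End.natCast_apply, nsmul_eq_mul, (CharP.cast_eq_zero_iff E p n).mpr hn, zero_mul]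
      rfl
  have hSp1 : S ^ p = 1 := by
    apply LinearMap.ext
    intro x
    rw [hSp, hσ]
    rfl
  set T : Module.End ℤ E := S - 1 with hT
  have hTx : ∀ x, T x = σ x - x := fun x => rfl
  have hTp : T ^ p = 0 := by
    rw [hT, sub_pow_char_of_commute _ (Commute.one_right S), hSp1, one_pow, sub_self]
  have hT1 : T ≠ 0 := by
    intro h0
    obtain ⟨x, hx⟩ := h1
    apply hx
    have := hTx x
    rw [h0, LinearMap.zero_apply] at this
    exact (sub_eq_zero.mp this.symm)
  have hex : ∃ n, T ^ n = 0 := ⟨p, hTp⟩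
  obtain ⟨n, hn0, hnmin⟩ : ∃ n, T ^ n = 0 ∧ ∀ m < n, T ^ m ≠ 0 :=
    ⟨Nat.find hex, Nat.find_spec hex, fun m hm => Nat.find_min hex hm⟩
  have hn2 : 2 ≤ n := by
    by_contra hlt
    have : n = 0 ∨ n = 1 := by omega
    rcases this with h0 | h0
    · rw [h0, pow_zero] at hn0
      apply hT1
      calc T = 1 * T := (one_mul T).symm
        _ = 0 := by rw [hn0, zero_mul]
    · rw [h0, pow_one] at hn0
      exact hT1 hn0
  obtain ⟨m, rfl⟩ : ∃ m, n = m + 2 := ⟨n - 2, by omega⟩
  obtain ⟨z, hz⟩ : ∃ z, (T ^ (m + 1)) z ≠ 0 := by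
    by_contra hcon
    push Not at hcon
    exact hnmin (m + 1) (by omega) (LinearMap.ext fun z => by rw [hcon z]; rfl)
  set y := (T ^ m) z with hy
  have hTy : T y ≠ 0 := by
    rw [hy, ← Module.End.mul_apply, ← pow_succ']
    exact hz
  have hTTy : T (T y) = 0 := by
    rw [hy, ← Module.End.mul_apply, ← Module.End.mul_apply, ← pow_two, ← pow_add, add_comm 2 m, hn0]
    rfl
  have hfix : σ (T y) = T y := by
    have := hTx (T y)
    rw [hTTy] at this
    exact (sub_eq_zero.mp this.symm)
  refine ⟨y / T y, ?_⟩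
  rw [map_div₀, hfix]
  have : σ y = y + T y := by rw [hTx]; ring
  rw [this, add_div, div_self hTy]

/-- the equation of `z` -/
theorem scB_eq {F E : Type*} [Field F] [Field E] [Algebra F E] {p : ℕ} (hp : p.Prime)
    [CharP E p] (z η : E) (hz : (minpoly F z).natDegree = p) (σ : E ≃ₐ[F] E) (hη : η ≠ 0)
    (hσz : σ z = z + η) (hση : σ η = η) :
    ∃ δ γ : F, z ^ p = algebraMap F E δ * z + algebraMap F E γ := by
  classical
  have : Fact p.Prime := ⟨hp⟩
  have hint : IsIntegral F z := by
    by_contra h
    rw [minpoly.eq_zero h, natDegree_zero] at hz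
    exact hp.ne_zero hz.symm
  have hiter : ∀ j : ℕ, σ^[j] z = z + (j : E) * η := by
    intro j
    induction j with
    | zero => simp
    | succ j ih =>
      rw [Function.iterate_succ_apply', ih, map_add, map_mul, map_natCast, hσz, hση]
      push_cast
      ring
  have hroot : ∀ j : ℕ, aeval (z + (j : E) * η) (minpoly F z) = 0 := by
    intro j
    rw [← hiter]
    induction j with
    | zero => simp
    | succ j ih =>
      rw [Function.iterate_succ_apply']
      have : aeval (σ (σ^[j] z)) (minpoly F z) = σ (aeval (σ^[j] z) (minpoly F z)) :=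
        (aeval_algHom_apply σ.toAlgHom (σ^[j] z) (minpoly F z))
      rw [this, ih, map_zero]
  set P : E[X] := (X - C z) ^ p - C (η ^ (p - 1)) * (X - C z) with hP
  have hP' : P = X ^ p - C (z ^ p) - C (η ^ (p - 1)) * X + C (η ^ (p - 1) * z) := by
    rw [hP, sub_pow_char, ← C_pow, C_mul]
    ring
  have hpj : ∀ j : ℕ, (j : E) ^ p = (j : E) := by
    intro j
    have := map_natCast (frobenius E p) j
    rwa [frobenius_def] at this
  have hproot : ∀ j : ℕ, P.eval (z + (j : E) * η) = 0 := by
    intro j
    rw [hP]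
    simp only [eval_sub, eval_pow, eval_mul, eval_X, eval_C]
    have h1 : z + (j : E) * η - z = (j : E) * η := by ring
    rw [h1, mul_pow, hpj]
    have h2 : η ^ p = η ^ (p - 1) * η := by
      rw [← pow_succ, Nat.sub_add_cancel hp.one_le]
    rw [h2]
    ring
  set Q : E[X] := (minpoly F z).map (algebraMap F E) with hQ
  have hQm : Q.Monic := (minpoly.monic hint).map _
  have hQd : Q.natDegree = p := by rw [hQ, natDegree_map, hz]
  have hlow : (C (η ^ (p - 1)) * (X - C z)).degree < ((X - C z) ^ p : E[X]).degree := by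
    rw [degree_pow, degree_X_sub_C, nsmul_one]
    rw [degree_C_mul (pow_ne_zero _ hη), degree_X_sub_C]
    exact_mod_cast hp.one_lt
  have hPm : P.Monic := by
    rw [hP]
    exact ((monic_X_sub_C z).pow p).sub_of_left hlow
  have hPd : P.natDegree = p := by
    rw [hP, natDegree_sub_eq_left_of_natDegree_lt]
    · rw [natDegree_pow, natDegree_X_sub_C, mul_one]
    · exact natDegree_lt_natDegree (by
        intro h0
        rw [mul_eq_zero] at h0
        rcases h0 with h | h
        · rw [C_eq_zero] at h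
          exact pow_ne_zero _ hη h
        · exact X_sub_C_ne_zero z h) hlow
  have hinj : Set.InjOn (fun j : ℕ => z + (j : E) * η) (Finset.range p : Set ℕ) := by
    intro a ha b hb hab
    simp only [Finset.coe_range, Set.mem_Iio] at ha hb
    have h1 : (a : E) = b := by
      have := add_left_cancel hab
      exact mul_right_cancel₀ hη this
    exact CharP.natCast_injOn_Iio E p ha hb h1
  have hPQ : P = Q := by
    have hdeg : (P - Q).degree < p := by
      have h1 : P.degree = p := by rw [degree_eq_natDegree hPm.ne_zero, hPd]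
      have h2 : Q.degree = p := by rw [degree_eq_natDegree hQm.ne_zero, hQd]
      rw [← h1]
      apply degree_sub_lt_left
      · rw [h1, h2]
      · exact hPm.ne_zero
      · rw [hPm.leadingCoeff, hQm.leadingCoeff]
    have : P - Q = 0 := by
      apply eq_zero_of_degree_lt_of_eval_finset_eq_zero (s := (Finset.range p).image
        (fun j : ℕ => z + (j : E) * η))
      · rw [Finset.card_image_of_injOn hinj, Finset.card_range]
        exact hdeg
      · intro x hx
        rw [Finset.mem_image] at hx
        obtain ⟨j, -, rfl⟩ := hx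
        rw [eval_sub, hproot j, hQ, eval_map_algebraMap, hroot j, sub_zero]
    exact sub_eq_zero.mp this
  have h1 : algebraMap F E ((minpoly F z).coeff 1) = - η ^ (p - 1) := by
    rw [← coeff_map, ← hQ, ← hPQ, hP']
    simp only [coeff_add, coeff_sub, coeff_X_pow, coeff_C, coeff_C_mul, coeff_X_one]
    rw [if_neg (by have := hp.one_lt; omega), if_neg one_ne_zero, if_neg one_ne_zero]
    ring
  have h0 : algebraMap F E ((minpoly F z).coeff 0) = - z ^ p + η ^ (p - 1) * z := by
    rw [← coeff_map, ← hQ, ← hPQ, hP']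
    simp only [coeff_add, coeff_sub, coeff_X_pow, coeff_C, coeff_C_mul, coeff_X_zero]
    rw [if_neg (by have := hp.one_lt; omega)]
    simp
  refine ⟨- (minpoly F z).coeff 1, - (minpoly F z).coeff 0, ?_⟩
  rw [map_neg, map_neg, h1, h0]
  ring

/-- the element `z` of `K` -/
theorem scB_z {F E : Type*} [Field F] [Field E] [Algebra F E] [FiniteDimensional F E] [IsGalois F E]
    {p : ℕ} (hp : p.Prime) [CharP E p]
    (N : Subgroup (E ≃ₐ[F] E)) [N.Normal] (hN : Nat.card N = p)
    (H : Subgroup (E ≃ₐ[F] E)) (hNK : ¬ N ≤ H) :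
    ∃ (z η : E) (σ : E ≃ₐ[F] E), (∀ h ∈ H, h z = z) ∧ η ≠ 0 ∧ σ z = z + η ∧ σ η = η := by
  classical
  have : Fact p.Prime := ⟨hp⟩
  have hcyc : IsCyclic N := isCyclic_of_prime_card hN
  obtain ⟨⟨σ, hσN⟩, hgen⟩ := hcyc.exists_generator
  have hσgen : ∀ n ∈ N, ∃ k : ℤ, σ ^ k = n := by
    intro n hn
    obtain ⟨k, hk⟩ := Subgroup.mem_zpowers_iff.mp (hgen ⟨n, hn⟩)
    exact ⟨k, congrArg Subtype.val hk⟩
  have hσp : σ ^ p = 1 := by
    have : (⟨σ, hσN⟩ : N) ^ Nat.card N = 1 := pow_card_eq_one'
    rw [hN] at this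
    exact congrArg Subtype.val this
  have hσH : σ ∉ H := by
    intro h
    apply hNK
    intro n hn
    obtain ⟨k, rfl⟩ := hσgen n hn
    exact H.zpow_mem h k
  have hσ1 : σ ≠ 1 := fun h => hσH (h ▸ H.one_mem)
  have hpowfun : ∀ (k : ℕ) (x : E), (σ ^ k) x = σ^[k] x := by
    intro k
    induction k with
    | zero => intro x; rfl
    | succ k ih => intro x; rw [pow_succ', AlgEquiv.mul_apply, ih, Function.iterate_succ_apply']
  obtain ⟨y, hyy⟩ := scB_y hp (σ : E ≃+* E) (by
      by_contra hcon
      push Not at hcon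
      exact hσ1 (AlgEquiv.ext hcon)) (by
      intro x
      have := hpowfun p x
      rw [hσp] at this
      exact this.symm)
  have hyy' : σ y = y + 1 := hyy
  have hypow : ∀ k : ℕ, (σ ^ k) y = y + k := by
    intro k
    induction k with
    | zero => simp
    | succ k ih =>
      rw [pow_succ', AlgEquiv.mul_apply, ih, map_add, hyy', map_natCast]
      push_cast
      ring
  -- exponents c h with h⁻¹ σ h = σ ^ c
  have hc : ∀ h : E ≃ₐ[F] E, ∃ c : ℕ, h⁻¹ * σ * h = σ ^ c := by
    intro h
    have h1 : h⁻¹ * σ * h ∈ N := by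
      have := ‹N.Normal›.conj_mem σ hσN h⁻¹
      rwa [inv_inv] at this
    obtain ⟨k, hk⟩ := hσgen _ h1
    refine ⟨(k % p).toNat, ?_⟩
    rw [← hk]
    have hp0 : (p : ℤ) ≠ 0 := by exact_mod_cast hp.ne_zero
    have h2 : ((k % p).toNat : ℤ) = k % p := Int.toNat_of_nonneg (Int.emod_nonneg _ hp0)
    rw [← zpow_natCast, h2]
    conv_lhs => rw [← Int.emod_add_mul_ediv k p, zpow_add, zpow_mul, zpow_natCast, hσp, one_zpow, mul_one]
  choose c hcc using hc
  have hc1 : (c 1 : E) = 1 := by
    have h1 := hcc 1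
    have h2 : σ ^ (c 1) = σ := by rw [← h1]; group
    have h3 := hypow (c 1)
    rw [h2, hyy'] at h3
    exact (add_left_cancel h3).symm
  -- z l
  let z : E → E := fun l => ∑ h : H, (h : E ≃ₐ[F] E) (l * y)
  let e : E → E := fun l => ∑ h : H, (c h : E) * (h : E ≃ₐ[F] E) l
  have hzl : ∀ l, σ l = l → σ (z l) = z l + e l := by
    intro l hl
    have hlp : ∀ k : ℕ, (σ ^ k) l = l := by
      intro k
      induction k with
      | zero => simp
      | succ k ih => rw [pow_succ', AlgEquiv.mul_apply, ih, hl]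
    simp only [z, e]
    rw [map_sum, ← Finset.sum_add_distrib]
    apply Finset.sum_congr rfl
    intro h _
    have h1 : σ * (h : E ≃ₐ[F] E) = (h : E ≃ₐ[F] E) * σ ^ (c h) := by
      rw [← hcc]; group
    calc σ ((h : E ≃ₐ[F] E) (l * y)) = (σ * (h : E ≃ₐ[F] E)) (l * y) := rfl
      _ = (h : E ≃ₐ[F] E) ((σ ^ c h) (l * y)) := by rw [h1]; rfl
      _ = (h : E ≃ₐ[F] E) (l * y + c h * l) := by
        rw [map_mul, hlp, hypow]
        congr 1
        ring
      _ = _ := by rw [map_add, map_mul _ (c h : E) l, map_natCast]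
  have hzH : ∀ l, ∀ h ∈ H, h (z l) = z l := by
    intro l h hh
    simp only [z]
    rw [map_sum]
    exact Fintype.sum_equiv (Equiv.mulLeft (⟨h, hh⟩ : H)) _ _ (fun g => rfl)
  -- fixed field of σ and independence
  have hσe : ∀ l, σ l = l → σ (e l) = e l := by
    intro l hl
    have hlp : ∀ k : ℕ, (σ ^ k) l = l := by
      intro k
      induction k with
      | zero => simp
      | succ k ih => rw [pow_succ', AlgEquiv.mul_apply, ih, hl]
    simp only [e]
    rw [map_sum]
    apply Finset.sum_congr rfl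
    intro h _
    rw [map_mul, map_natCast]
    congr 1
    have h1 : σ * (h : E ≃ₐ[F] E) = (h : E ≃ₐ[F] E) * σ ^ (c h) := by
      rw [← hcc]; group
    calc σ ((h : E ≃ₐ[F] E) l) = (σ * (h : E ≃ₐ[F] E)) l := rfl
      _ = (h : E ≃ₐ[F] E) ((σ ^ c h) l) := by rw [h1]; rfl
      _ = (h : E ≃ₐ[F] E) l := by rw [hlp]
  let L : IntermediateField F E := IntermediateField.fixedField N
  have hL : ∀ l : L, σ (l : E) = l := fun l => l.2 ⟨σ, hσN⟩
  have hex : ∃ l : L, e l ≠ 0 := by
    by_contra hcon
    push Not at hcon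
    have hind := linearIndependent_monoidHom L E
    let φ : H → (L →* E) := fun h => ((h : E ≃ₐ[F] E) : E →* E).comp (algebraMap L E : L →* E)
    have hφ : Function.Injective φ := by
      intro a b hab
      have h1 : (b : E ≃ₐ[F] E)⁻¹ * a ∈ L.fixingSubgroup := by
        rw [IntermediateField.mem_fixingSubgroup_iff]
        intro x hx
        have h2 : (a : E ≃ₐ[F] E) x = (b : E ≃ₐ[F] E) x := DFunLike.congr_fun hab ⟨x, hx⟩
        rw [AlgEquiv.mul_apply, h2]
        exact AlgEquiv.symm_apply_apply _ _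
      rw [IntermediateField.fixingSubgroup_fixedField] at h1
      have h3 : (b : E ≃ₐ[F] E)⁻¹ * a ∈ H := H.mul_mem (H.inv_mem b.2) a.2
      have h4 : (b : E ≃ₐ[F] E)⁻¹ * a = 1 := by
        by_contra h5
        apply hNK
        -- N is generated by any nontrivial element
        have h6 : Subgroup.zpowers (⟨_, h1⟩ : N) = ⊤ := by
          apply zpowers_eq_top_of_prime_card hN
          intro h7
          exact h5 (congrArg Subtype.val h7)
        intro n hn
        have h8 : (⟨n, hn⟩ : N) ∈ Subgroup.zpowers (⟨_, h1⟩ : N) := by rw [h6]; trivial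
        obtain ⟨k, hk⟩ := Subgroup.mem_zpowers_iff.mp h8
        have h9 : ((b : E ≃ₐ[F] E)⁻¹ * a) ^ k = n := congrArg Subtype.val hk
        rw [← h9]
        exact H.zpow_mem h3 k
      exact Subtype.ext (inv_mul_eq_one.mp h4).symm
    have hind2 := hind.comp φ hφ
    rw [Fintype.linearIndependent_iff] at hind2
    have h10 := hind2 (fun h => (c h : E)) (by
      funext l
      have := hcon l
      simp only [e] at this
      rw [Finset.sum_apply]
      exact this) 1
    have h11 : (c ((1 : H) : E ≃ₐ[F] E) : E) = 1 := hc1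
    rw [h11] at h10
    exact one_ne_zero h10
  obtain ⟨l, hl⟩ := hex
  exact ⟨z l, e l, σ, hzH l, hl, hzl l (hL l), hσe l (hL l)⟩

end Pool.Agent.H84.CY
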