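import Pool.Agent.H84.CY.ScA
import Pool.Agent.H84.CY.ScB

/-!
# H84 CY SCC: from a solvable Galois closure to the equation `z ^ p = δ z + γ`
-/

set_option autoImplicit false

universe u v

open Polynomial

namespace Pool.Agent.H84.CY

theorem scC_insep {F : Type u} {D : Type v} [Field F] [DivisionRing D] [Algebra F D] {p : ℕ}
    (hp : p.Prime) [CharP F p] (x : D) (hx : (minpoly F x).natDegree = p)
    (hs : ¬ (minpoly F x).Separable) : ∃ γ : F, x ^ p = algebraMap F D γ := by
  have hint : IsIntegral F x := by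
    by_contra h
    rw [minpoly.eq_zero h, natDegree_zero] at hx
    exact hp.ne_zero hx.symm
  have hirr := minpoly.irreducible hint
  have hd : derivative (minpoly F x) = 0 := by
    by_contra h
    exact hs ((separable_iff_derivative_ne_zero hirr).mpr h)
  have he := expand_contract p hd hp.ne_zero
  set g := contract p (minpoly F x) with hg
  have hgd : g.natDegree = 1 := by
    have h1 : (expand F p g).natDegree = p := by rw [he, hx]
    rw [natDegree_expand] at h1
    exact Nat.eq_of_mul_eq_mul_right hp.pos (by rw [h1, one_mul])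
  have hgm : g.coeff 1 = 1 := by
    have h1 := (minpoly.monic hint).coeff_natDegree
    rw [hx, ← he] at h1
    have h2 := coeff_expand_mul hp.pos g 1
    rw [one_mul] at h2
    rw [← h2]
    exact h1
  have h0 : aeval (x ^ p) g = 0 := by
    rw [← expand_aeval, he, minpoly.aeval]
  rw [aeval_eq_sum_range' (n := 2) (by omega)] at h0
  simp only [Finset.sum_range_succ, Finset.range_zero, Finset.sum_empty, pow_zero, pow_one, hgm,
    one_smul, zero_add] at h0
  refine ⟨- g.coeff 0, ?_⟩
  rw [map_neg, Algebra.algebraMap_eq_smul_one, eq_neg_iff_add_eq_zero, add_comm]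
  exact h0

theorem scC_sep {F : Type u} {D : Type v} [Field F] [DivisionRing D] [Algebra F D] {p : ℕ}
    (hp : p.Prime) [CharP F p] (x : D) (hx : (minpoly F x).natDegree = p)
    (hs : (minpoly F x).Separable) (hsol : Group.IsSolvable (minpoly F x).Gal) :
    ∃ (z : D) (δ γ : F), z ∉ Set.range (algebraMap F D) ∧ z ^ p = δ • z + algebraMap F D γ := by
  classical
  have hint : IsIntegral F x := by
    by_contra h
    rw [minpoly.eq_zero h, natDegree_zero] at hx
    exact hp.ne_zero hx.symm
  have hirr := minpoly.irreducible hint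
  set f := minpoly F x with hf
  let E := f.SplittingField
  have : IsGalois F E := IsGalois.of_separable_splitting_field hs
  have : CharP E p := charP_of_injective_algebraMap (algebraMap F E).injective p
  have hsplit : (f.map (algebraMap F E)).Splits := SplittingField.splits f
  have hcard : Nat.card (f.rootSet E) = p := by
    rw [Nat.card_eq_fintype_card, card_rootSet_eq_natDegree hs hsplit, hx]
  let act : MulAction (E ≃ₐ[F] E) (f.rootSet E) := Gal.galActionAux f
  have hact : ∀ (g : E ≃ₐ[F] E) (y : f.rootSet E), ((g • y : f.rootSet E) : E) = g (y : E) :=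
    fun g y => rfl
  have htrans : MulAction.IsPretransitive (E ≃ₐ[F] E) (f.rootSet E) := by
    refine ⟨fun a b => ?_⟩
    have ha := minpoly.eq_of_irreducible hirr (mem_rootSet.mp a.2).2
    have hb := minpoly.eq_of_irreducible hirr (mem_rootSet.mp b.2).2
    obtain ⟨g, hg⟩ := (Normal.minpoly_eq_iff_mem_orbit E).mp (hb.symm.trans ha)
    exact ⟨g, Subtype.ext hg⟩
  have hfaith : FaithfulSMul (E ≃ₐ[F] E) (f.rootSet E) := by
    refine ⟨fun {a b} h => ?_⟩
    apply Gal.ext (p := f)
    intro y hy
    exact congrArg Subtype.val (h ⟨y, hy⟩)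
  have hsol' : Group.IsSolvable (E ≃ₐ[F] E) := hsol
  obtain ⟨N, hNn, hNc, hNt⟩ := scA (G := E ≃ₐ[F] E) (X := f.rootSet E) hp hcard
  -- a root
  have hnt : Nontrivial (f.rootSet E) := by
    have : 1 < Nat.card (f.rootSet E) := by rw [hcard]; exact hp.one_lt
    have hfin : Finite (f.rootSet E) := Nat.finite_of_card_ne_zero (by rw [hcard]; exact hp.ne_zero)
    exact Finite.one_lt_card_iff_nontrivial.mp this
  obtain ⟨α, α', hαα'⟩ := hnt
  have hαmin : minpoly F (α : E) = f := by
    have h1 := minpoly.eq_of_irreducible hirr (mem_rootSet.mp α.2).2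
    rw [(minpoly.monic hint).leadingCoeff, inv_one, C_1, mul_one] at h1
    exact h1.symm
  have hαint : IsIntegral F (α : E) := IsIntegral.of_finite F _
  let K : IntermediateField F E := IntermediateField.adjoin F {(α : E)}
  have hKr : Module.finrank F K = p := by
    rw [IntermediateField.adjoin.finrank hαint, hαmin, hx]
  have hNK : ¬ N ≤ K.fixingSubgroup := by
    intro hle
    obtain ⟨n, hn⟩ := MulAction.exists_smul_eq N α α'
    apply hαα'
    have h1 := hle n.2
    rw [IntermediateField.mem_fixingSubgroup_iff] at h1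
    have h2 := h1 (α : E) (IntermediateField.mem_adjoin_simple_self F (α : E))
    apply Subtype.ext
    rw [← hn, ← h2]
    rfl
  obtain ⟨z, η, σ, hzH, hη, hσz, hση⟩ := scB_z (F := F) (E := E) hp N hNc K.fixingSubgroup hNK
  have hzK : z ∈ K := by
    rw [← IsGalois.fixedField_fixingSubgroup K]
    rintro ⟨h, hh⟩
    exact hzH h hh
  have hzF : z ∉ Set.range (algebraMap F E) := by
    rintro ⟨c, rfl⟩
    rw [AlgEquiv.commutes] at hσz
    exact hη (by rwa [left_eq_add] at hσz)
  have hzdeg : (minpoly F z).natDegree = p := by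
    have h1 : (minpoly F (⟨z, hzK⟩ : K)).natDegree ∣ Module.finrank F K :=
      minpoly.degree_dvd (IsIntegral.of_finite F _)
    have h2 : minpoly F (⟨z, hzK⟩ : K) = minpoly F z :=
      (minpoly.algebraMap_eq (algebraMap K E).injective (⟨z, hzK⟩ : K)).symm
    rw [h2, hKr] at h1
    rcases (Nat.dvd_prime hp).mp h1 with h3 | h3
    · exact absurd ((minpoly.natDegree_eq_one_iff).mp h3) hzF
    · exact h3
  obtain ⟨δ, γ, hzeq⟩ := scB_eq hp z η hzdeg σ hη hσz hση
  obtain ⟨q, hq⟩ : ∃ q : F[X], aeval (α : E) q = z := by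
    have h1 : z ∈ (K.toSubalgebra : Subalgebra F E) := hzK
    have h2 : K.toSubalgebra = Algebra.adjoin F {(α : E)} :=
      IntermediateField.adjoin_simple_toSubalgebra_of_isAlgebraic hαint.isAlgebraic
    rw [h2, Algebra.adjoin_singleton_eq_range_aeval] at h1
    exact h1
  have hdvd : ∀ r : F[X], aeval (α : E) r = 0 → aeval x r = 0 := by
    intro r hr
    have h1 := minpoly.dvd F (α : E) hr
    rw [hαmin] at h1
    obtain ⟨s, rfl⟩ := h1
    rw [map_mul, hf, minpoly.aeval, zero_mul]
  refine ⟨aeval x q, δ, γ, ?_, ?_⟩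
  · rintro ⟨c, hc⟩
    have h1 : aeval x (q - C c) = 0 := by rw [map_sub, aeval_C, hc, sub_self]
    have h2 : f ∣ q - C c := minpoly.dvd F x h1
    obtain ⟨s, hs'⟩ := h2
    apply hzF
    refine ⟨c, ?_⟩
    have h3 : aeval (α : E) (q - C c) = 0 := by
      have h4 : aeval (α : E) f = 0 := (mem_rootSet.mp α.2).2
      rw [hs', map_mul, h4, zero_mul]
    rw [map_sub, aeval_C, hq] at h3
    exact (sub_eq_zero.mp h3).symm
  · have h1 := hdvd (q ^ p - C δ * q - C γ) (by
      rw [map_sub, map_sub, map_pow, map_mul, aeval_C, aeval_C, hq, hzeq]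
      ring)
    rw [map_sub, map_sub, map_pow, map_mul, aeval_C, aeval_C, sub_sub, sub_eq_zero] at h1
    rw [h1, Algebra.smul_def]

/-- a maximal subfield with solvable closure contains a generator with the equation `z ^ p = δ z + γ` -/
theorem scC {F : Type u} {D : Type v} [Field F] [DivisionRing D] [Algebra F D] {p : ℕ}
    (hp : p.Prime) [CharP F p] (x : D) (hx : (minpoly F x).natDegree = p)
    (hsol : Group.IsSolvable (minpoly F x).Gal) :
    ∃ (z : D) (δ γ : F), z ∉ Set.range (algebraMap F D) ∧ z ^ p = δ • z + algebraMap F D γ := by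
  by_cases hs : (minpoly F x).Separable
  · exact scC_sep hp x hx hs hsol
  · obtain ⟨γ, hγ⟩ := scC_insep hp x hx hs
    refine ⟨x, 0, γ, ?_, ?_⟩
    · intro h
      rw [minpoly.natDegree_eq_one_iff.mpr h] at hx
      exact hp.one_lt.ne hx
    · rw [hγ, zero_smul, zero_add]

end Pool.Agent.H84.CY
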