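import Pool.Agent.H84.CY.Dic

/-!
# H84 CY SPL: splitting by a maximal subfield, characteristic polynomials

`D` a central division algebra of dimension `p ^ 2` over `F`. There are a field `K / F` of degree `p`,
`θ : K` with `minpoly F θ` of degree `p`, and an `F`-algebra map `Ψ : D → Matrix (Fin p) (Fin p) K` such that for
every `x : D` the characteristic polynomial of `Ψ x` has coefficients in `F` and kills `x`:
`(Ψ x).charpoly = q.map (algebraMap F K)` with `q` monic of degree `p` over `F`, `aeval x q = 0`.

Proof. `D` is not equal to `F` (dimension), so there is `t : D` which is not a scalar; `m = minpoly F t` is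
irreducible of degree `p` (`sub_minpoly`). Let `K = AdjoinRoot m` with root `θ`, so `finrank F K = p`
and `minpoly F θ = m`. In `R = K ⊗[F] D` (a `K`-algebra, `finrank K R = p ^ 2`) write `t' = 1 ⊗ t`.

(i) For `x : D` not a scalar, the powers `(1 ⊗ x) ^ i = 1 ⊗ x ^ i`, `i < p`, are linearly independent over `K`
(the `x ^ i`, `i < p`, are independent over `F` because `minpoly F x` has degree `p`; base change of a linearly
independent family, for instance extend to a basis and use `Basis.baseChange` /
`Algebra.TensorProduct.basis`). So `minpoly K (1 ⊗ x)` has degree at least `p`; it divides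
`(minpoly F x).map`, hence is equal to it.

(ii) `R` is not a domain: `m.map (algebraMap F K) = (X - C θ) * g`, and `(t' - θ) * aeval t' g = aeval t' (m.map ..) = 0`
while `t' - θ` and `aeval t' g` are nonzero by (i) (both polynomials are nonzero of degree `< p`, where `p >= 2`).
So by `dic` there is an isomorphism `E : R ≃ₐ[K] Matrix (Fin p) (Fin p) K`; let `Ψ x = E (1 ⊗ x)`.

(iii) If `x` is not a scalar then `minpoly K (Ψ x) = (minpoly F x).map` (`E` is an isomorphism,
`minpoly.algEquiv_eq`), which divides the charpoly (`Matrix.minpoly_dvd_charpoly`), both monic of degree `p`,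
hence equal: `q = minpoly F x`. If `x = c` is a scalar then `Ψ x = c • 1`, with charpoly `(X - C c) ^ p`
(`Matrix.charpoly` of a diagonal matrix): `q = (X - C c) ^ p`.
-/

set_option autoImplicit false

universe u v w

open TensorProduct Polynomial

namespace Pool.Agent.H84.CY

private theorem spl_ne {F : Type u} {D : Type v} {K : Type w} [Field F] [DivisionRing D]
    [Algebra F D] [Field K] [Algebra F K] (x : D) (q : K[X]) (hq : q ≠ 0)
    (hd : q.natDegree < (minpoly F x).natDegree) :
    aeval ((1 : K) ⊗ₜ[F] x) q ≠ 0 := by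
  intro h0
  have h1 : LinearIndependent K
      (fun i : Fin (minpoly F x).natDegree => (1 : K) ⊗ₜ[F] (x ^ (i : ℕ))) :=
    Module.Flat.linearIndependent_one_tmul (linearIndependent_pow x)
  rw [Fintype.linearIndependent_iff] at h1
  rw [aeval_eq_sum_range' hd, ← Fin.sum_univ_eq_sum_range
    (fun i => q.coeff i • ((1 : K) ⊗ₜ[F] x) ^ i)] at h0
  have h2 : ∑ i : Fin (minpoly F x).natDegree, q.coeff i • ((1 : K) ⊗ₜ[F] (x ^ (i : ℕ))) = 0 := by
    rw [← h0]
    apply Finset.sum_congr rfl
    intro i _
    rw [Algebra.TensorProduct.tmul_pow, one_pow]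
  have h3 := h1 (fun i => q.coeff i) h2
  apply hq
  ext i
  rw [coeff_zero]
  by_cases hi : i < (minpoly F x).natDegree
  · exact h3 ⟨i, hi⟩
  · exact coeff_eq_zero_of_natDegree_lt (by omega)

private theorem spl_minpoly {F : Type u} {D : Type v} {K : Type w} [Field F] [DivisionRing D]
    [Algebra F D] [FiniteDimensional F D] [Field K] [Algebra F K] (x : D) :
    minpoly K ((1 : K) ⊗ₜ[F] x) = (minpoly F x).map (algebraMap F K) := by
  have hint : IsIntegral F x := Algebra.IsIntegral.isIntegral x
  have hmon : (minpoly F x).Monic := minpoly.monic hint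
  have hroot : aeval ((1 : K) ⊗ₜ[F] x) ((minpoly F x).map (algebraMap F K)) = 0 := by
    rw [aeval_map_algebraMap]
    have h1 : (1 : K) ⊗ₜ[F] x = (Algebra.TensorProduct.includeRight : D →ₐ[F] K ⊗[F] D) x := rfl
    rw [h1, aeval_algHom_apply, minpoly.aeval, map_zero]
  have hint' : IsIntegral K ((1 : K) ⊗ₜ[F] x) := ⟨_, hmon.map _, hroot⟩
  symm
  apply eq_of_monic_of_dvd_of_natDegree_le (minpoly.monic hint') (hmon.map _)
    (minpoly.dvd _ _ hroot)
  rw [natDegree_map]
  by_contra hlt
  push Not at hlt
  exact spl_ne x _ (minpoly.ne_zero hint') hlt (minpoly.aeval _ _)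

theorem spl {F : Type u} {D : Type v} [Field F] [DivisionRing D] [Algebra F D]
    [Algebra.IsCentral F D] [FiniteDimensional F D] {p : ℕ} (hp : p.Prime)
    (h : Module.finrank F D = p ^ 2) :
    ∃ (K : Type u) (_ : Field K) (_ : Algebra F K) (_ : FiniteDimensional F K) (θ : K)
      (Ψ : D →ₐ[F] Matrix (Fin p) (Fin p) K), Module.finrank F K = p ∧
      (minpoly F θ).natDegree = p ∧
      ∀ x : D, ∃ q : F[X], q.Monic ∧ q.natDegree = p ∧ aeval x q = 0 ∧
        (Ψ x).charpoly = q.map (algebraMap F K) := by
  obtain ⟨t, ht⟩ : ∃ t : D, t ∉ Set.range (algebraMap F D) := by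
    by_contra hcon
    push Not at hcon
    have h1 : Module.finrank F D ≤ 1 := by
      apply finrank_le_one (1 : D)
      intro w
      obtain ⟨c, hc⟩ := hcon w
      exact ⟨c, by rw [← hc, Algebra.algebraMap_eq_smul_one]⟩
    rw [h] at h1
    have h2 := hp.two_le
    nlinarith
  have hint : IsIntegral F t := Algebra.IsIntegral.isIntegral t
  have hmon : (minpoly F t).Monic := minpoly.monic hint
  have hdeg : (minpoly F t).natDegree = p := sub_minpoly hp h t ht
  have hirr : Irreducible (minpoly F t) := minpoly.irreducible hint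
  have : Fact (Irreducible (minpoly F t)) := ⟨hirr⟩
  let K : Type u := AdjoinRoot (minpoly F t)
  let θ : K := AdjoinRoot.root (minpoly F t)
  have hfin : FiniteDimensional F K := (AdjoinRoot.powerBasis hirr.ne_zero).finite
  have hrank : Module.finrank F K = p := by
    rw [(AdjoinRoot.powerBasis hirr.ne_zero).finrank, AdjoinRoot.powerBasis_dim, hdeg]
  have hθ : minpoly F θ = minpoly F t := AdjoinRoot.minpoly_powerBasis_gen_of_monic hmon
  have hθroot : (minpoly F t).map (algebraMap F K) = (X - C θ) *
      ((minpoly F t).map (algebraMap F K) /ₘ (X - C θ)) := by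
    symm
    apply mul_divByMonic_eq_iff_isRoot.mpr
    rw [IsRoot.def, eval_map_algebraMap]
    have h1 := minpoly.aeval F θ
    rw [hθ] at h1
    exact h1
  -- the tensor product is not a domain
  have hnd : ¬ IsDomain (K ⊗[F] D) := by
    intro hdom
    set g := (minpoly F t).map (algebraMap F K) /ₘ (X - C θ) with hg
    have h1 : aeval ((1 : K) ⊗ₜ[F] t) (X - C θ) * aeval ((1 : K) ⊗ₜ[F] t) g = 0 := by
      rw [← map_mul, ← hθroot, ← spl_minpoly]
      exact minpoly.aeval _ _
    have hne : (minpoly F t).map (algebraMap F K) ≠ 0 := (hmon.map _).ne_zero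
    have hg0 : g ≠ 0 := by
      intro h0
      rw [hθroot, h0, mul_zero] at hne
      exact hne rfl
    have hgd : g.natDegree < (minpoly F t).natDegree := by
      have h2 : ((minpoly F t).map (algebraMap F K)).natDegree = 1 + g.natDegree := by
        conv_lhs => rw [hθroot]
        rw [natDegree_mul (X_sub_C_ne_zero θ) hg0, natDegree_X_sub_C]
      rw [natDegree_map] at h2
      omega
    rcases mul_eq_zero.mp h1 with h2 | h2
    · refine spl_ne t _ (X_sub_C_ne_zero θ) ?_ h2
      rw [natDegree_X_sub_C, hdeg]
      exact hp.one_lt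
    · exact spl_ne t _ hg0 hgd h2
  obtain ⟨E⟩ : Nonempty ((K ⊗[F] D) ≃ₐ[K] Matrix (Fin p) (Fin p) K) :=
    (dic F D K hp h).resolve_left hnd
  let Ψ : D →ₐ[F] Matrix (Fin p) (Fin p) K :=
    (E.toAlgHom.restrictScalars F).comp
      (Algebra.TensorProduct.includeRight : D →ₐ[F] K ⊗[F] D)
  refine ⟨K, inferInstance, inferInstance, hfin, θ, Ψ, hrank, by rw [hθ, hdeg], ?_⟩
  intro x
  by_cases hx : x ∈ Set.range (algebraMap F D)
  · obtain ⟨c, rfl⟩ := hx
    refine ⟨(X - C c) ^ p, (monic_X_sub_C c).pow p, ?_, ?_, ?_⟩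
    · rw [natDegree_pow, natDegree_X_sub_C, mul_one]
    · rw [map_pow, map_sub, aeval_X, aeval_C, sub_self, zero_pow hp.ne_zero]
    · rw [AlgHom.commutes]
      have h1 : algebraMap F (Matrix (Fin p) (Fin p) K) c =
          Matrix.diagonal (fun _ => algebraMap F K c) := by
        rw [Matrix.algebraMap_eq_diagonal]
        rfl
      rw [h1, Matrix.charpoly_diagonal, Finset.prod_const, Finset.card_univ, Fintype.card_fin]
      simp
  · have hxd : (minpoly F x).natDegree = p := sub_minpoly hp h x hx
    have hxint : IsIntegral F x := Algebra.IsIntegral.isIntegral x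
    have hxmon : (minpoly F x).Monic := minpoly.monic hxint
    refine ⟨minpoly F x, hxmon, hxd, minpoly.aeval _ _, ?_⟩
    have h1 : minpoly K (Ψ x) = (minpoly F x).map (algebraMap F K) := by
      rw [← spl_minpoly]
      exact minpoly.algEquiv_eq E _
    apply eq_of_monic_of_dvd_of_natDegree_le (hxmon.map _) (Matrix.charpoly_monic _)
    · rw [← h1]
      exact Matrix.minpoly_dvd_charpoly _
    · rw [natDegree_map, hxd, Matrix.charpoly_natDegree_eq_dim, Fintype.card_fin]

end Pool.Agent.H84.CY
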