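import Pool.Agent.H84.CY.Spl
import Pool.Agent.H84.CY.Lin
import Pool.Agent.H84.CY.Deg
import Pool.Agent.H84.CY.Rat

/-!
# H84 CY STA: an element with `x ^ 5 = δ x + γ`

`D` a central division algebra of dimension `25` over `F`, `char F = 5`. Then there is `x : D`, not in `F`, with
`x ^ 5 = δ x + γ`, `δ`, `γ` in `F`.

Proof. `F` is infinite (a finite division ring is commutative: Wedderburn, `Finite.isDomain_to_isField` / `littleWedderburn`;
if `F` is finite then so is `D`). Take `K`, `θ`, `Ψ` from `spl` and `x0 x1 x2`, `a` from `lin`. For a matrix `M` write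
`S1, S2, S3, S4` for the coefficients of `X ^ 4`, `X ^ 3`, `X ^ 2`, `X` of its characteristic polynomial. For `x : D` they
lie in `F` (`spl`).
An upper triangular matrix with constant diagonal `a` has charpoly `(X - a) ^ 5 = X ^ 5 - a ^ 5`
(`Matrix.charpoly_of_upperTriangular`, `sub_pow_char`), so `S1 = ... = S4 = 0` (`sta_tri`).

`sta_lin` (linear pencil): if `y0 y1 : D`, not both in `F`, and `Ψ y0 + θ Ψ y1` is upper triangular with constant
diagonal, then there is `x`, not in `F`, with `S1 = S2 = S3 = 0` for `Ψ x`: the polynomials `P i` of `deg_lin` for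
`i = 4, 3, 2` have degree at most `5 - i < 5`, take values in `F` on `F` (value at `t`: coefficient for
`Ψ (y0 + t y1)`) and vanish at `θ`, so they are zero (`rat_zero`). Take `x = y0` (`t = 0`) or `x = y0 + y1` (`t = 1`).

`sta_good`: if `x2` is in `F`, then `θ ^ 2 Ψ x2` is scalar and `sta_lin` applies to `x0, x1`. Otherwise, consider the
polynomials `P i` of `deg_quad` for `i = 4, 3, 2`, of degree at most `2, 4, 6`. They have values in `F` on `F` and vanish
at `θ`, so `P 4 = P 3 = 0` (`rat_zero`), and by `rat_root` (with `n = 5`) `P 2` has a zero `t` in `F` or its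
coefficient at `6` vanishes. In the latter case `x2` has `S1 = S2 = S3 = 0` (third statement of `deg_quad`).
In the former case `x = x0 + t x1 + t ^ 2 x2` has `S1 = S2 = S3 = 0`, and if `x` is not in `F` we are done. If
`x` is in `F` then
`x0 + θ x1 + θ ^ 2 x2 - x = (θ - t) (x1 + (θ + t) x2)`, i.e. `Ψ x0 + θ Ψ x1 + θ ^ 2 Ψ x2 = x + (θ - t) (Ψ (x1 + t x2) + θ Ψ x2)`,
where `θ ≠ t`; so `Ψ y0 + θ Ψ y1` with `y0 = x1 + t x2`, `y1 = x2` is upper triangular with constant diagonal and `y1` is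
not in `F`: `sta_lin`.

`sta`: for `x` from `sta_good`, `q = X ^ 5 + q1 X + q0`, `aeval x q = 0`.
-/

set_option autoImplicit false

universe u v w

open Polynomial

namespace Pool.Agent.H84.CY

/-- Upper triangular with constant diagonal. -/
def Tri {K : Type w} [Field K] (M : Matrix (Fin 5) (Fin 5) K) : Prop :=
  ∃ a : K, (∀ i j : Fin 5, j < i → M i j = 0) ∧ ∀ i : Fin 5, M i i = a

/-- The coefficients of `X ^ 4`, `X ^ 3`, `X ^ 2` of the characteristic polynomial vanish. -/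
def Gd {K : Type w} [Field K] (M : Matrix (Fin 5) (Fin 5) K) : Prop :=
  M.charpoly.coeff 4 = 0 ∧ M.charpoly.coeff 3 = 0 ∧ M.charpoly.coeff 2 = 0

theorem sta_tri {K : Type w} [Field K] [CharP K 5] (M : Matrix (Fin 5) (Fin 5) K) (hM : Tri M)
    (i : ℕ) (hi : 0 < i) (hi5 : i < 5) : M.charpoly.coeff i = 0 := by
  obtain ⟨a, h1, h2⟩ := hM
  have h3 : M.charpoly = ∏ i : Fin 5, (X - C (M i i)) :=
    Matrix.charpoly_of_isUpperTriangular M (fun i j hij => h1 i j hij)
  have h4 : M.charpoly = X ^ 5 - C (a ^ 5) := by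
    rw [h3, Finset.prod_congr rfl fun i _ => by rw [h2 i], Finset.prod_const, Finset.card_univ,
      Fintype.card_fin]
    have : Fact (Nat.Prime 5) := ⟨by norm_num⟩
    rw [sub_pow_char, ← C_pow]
  rw [h4, coeff_sub, coeff_X_pow, coeff_C, if_neg (by omega), if_neg (by omega), sub_zero]

theorem sta_tri_one {K : Type w} [Field K] {M N : Matrix (Fin 5) (Fin 5) K} {s c : K} (hs : s ≠ 0)
    (hM : Tri M) (h : M = c • (1 : Matrix (Fin 5) (Fin 5) K) + s • N) : Tri N := by
  obtain ⟨a, h1, h2⟩ := hM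
  have h0 : ∀ i j, M i j = c * (1 : Matrix (Fin 5) (Fin 5) K) i j + s * N i j := by
    intro i j
    rw [h, Matrix.add_apply, Matrix.smul_apply, Matrix.smul_apply, smul_eq_mul, smul_eq_mul]
  refine ⟨(a - c) / s, fun i j hij => ?_, fun i => ?_⟩
  · have h3 := h1 i j hij
    rw [h0, Matrix.one_apply_ne hij.ne', mul_zero, zero_add] at h3
    exact (mul_eq_zero.mp h3).resolve_left hs
  · have h3 := h2 i
    rw [h0, Matrix.one_apply_eq, mul_one] at h3
    rw [eq_div_iff hs, ← h3]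
    ring

section
variable {F : Type u} {D : Type v} {K : Type w} [Field F] [Infinite F] [Ring D] [Algebra F D] [Field K]
  [Algebra F K] [CharP K 5]

omit [Infinite F] [CharP K 5] in
theorem sta_alg (Ψ : D →ₐ[F] Matrix (Fin 5) (Fin 5) K) (c : F) :
    Ψ (algebraMap F D c) = (algebraMap F K c) • (1 : Matrix (Fin 5) (Fin 5) K) := by
  rw [AlgHom.commutes, Algebra.algebraMap_eq_smul_one, algebraMap_smul]

omit [Infinite F] [CharP K 5] in
theorem sta_ne (θ : K) (hθ : (minpoly F θ).natDegree = 5) (t : F) : θ - algebraMap F K t ≠ 0 := by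
  intro h
  rw [sub_eq_zero] at h
  rw [h, minpoly.eq_X_sub_C, natDegree_X_sub_C] at hθ
  omega

theorem sta_lin0 (θ : K) (hθ : (minpoly F θ).natDegree = 5)
    (Ψ : D →ₐ[F] Matrix (Fin 5) (Fin 5) K)
    (hΨ : ∀ (x : D) (i : ℕ), (Ψ x).charpoly.coeff i ∈ Set.range (algebraMap F K)) (y0 y1 : D)
    (hT : Tri (Ψ y0 + θ • Ψ y1)) (t : F) (i : ℕ) (hi : 0 < i) (hi5 : i < 5) :
    (Ψ (y0 + t • y1)).charpoly.coeff i = 0 := by
  obtain ⟨P, hP1, hP2⟩ := deg_lin (Ψ y0) (Ψ y1) i hi5.le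
  have h1 : ∀ t : F, P.eval (algebraMap F K t) = (Ψ (y0 + t • y1)).charpoly.coeff i := by
    intro t
    rw [hP2, map_add, map_smul, algebraMap_smul]
  have h2 : P = 0 := by
    refine rat_zero θ 5 hθ P (fun t => ?_) ?_ (by omega)
    · rw [h1]
      exact hΨ _ _
    · rw [hP2]
      exact sta_tri _ hT i hi hi5
  rw [← h1, h2, eval_zero]

theorem sta_lin (θ : K) (hθ : (minpoly F θ).natDegree = 5)
    (Ψ : D →ₐ[F] Matrix (Fin 5) (Fin 5) K)
    (hΨ : ∀ (x : D) (i : ℕ), (Ψ x).charpoly.coeff i ∈ Set.range (algebraMap F K)) (y0 y1 : D)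
    (hy : y0 ∉ Set.range (algebraMap F D) ∨ y1 ∉ Set.range (algebraMap F D))
    (hT : Tri (Ψ y0 + θ • Ψ y1)) :
    ∃ x : D, x ∉ Set.range (algebraMap F D) ∧ Gd (Ψ x) := by
  have h0 := sta_lin0 θ hθ Ψ hΨ y0 y1 hT
  have hG : ∀ t : F, Gd (Ψ (y0 + t • y1)) := fun t =>
    ⟨h0 t 4 (by norm_num) (by norm_num), h0 t 3 (by norm_num) (by norm_num),
      h0 t 2 (by norm_num) (by norm_num)⟩
  by_cases h1 : y0 ∈ Set.range (algebraMap F D)
  · have h2 : y1 ∉ Set.range (algebraMap F D) := hy.resolve_left (fun h => h h1)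
    refine ⟨y0 + (1 : F) • y1, ?_, hG 1⟩
    rintro ⟨c, hc⟩
    obtain ⟨d, hd⟩ := h1
    apply h2
    refine ⟨c - d, ?_⟩
    rw [map_sub, hc, hd, one_smul]
    abel
  · refine ⟨y0, h1, ?_⟩
    have := hG 0
    rwa [zero_smul, add_zero] at this

theorem sta_good (θ : K) (hθ : (minpoly F θ).natDegree = 5)
    (Ψ : D →ₐ[F] Matrix (Fin 5) (Fin 5) K)
    (hΨ : ∀ (x : D) (i : ℕ), (Ψ x).charpoly.coeff i ∈ Set.range (algebraMap F K)) (x0 x1 x2 : D)
    (hx : x0 ∉ Set.range (algebraMap F D) ∨ x1 ∉ Set.range (algebraMap F D) ∨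
      x2 ∉ Set.range (algebraMap F D))
    (hT : Tri (Ψ x0 + θ • Ψ x1 + θ ^ 2 • Ψ x2)) :
    ∃ x : D, x ∉ Set.range (algebraMap F D) ∧ Gd (Ψ x) := by
  by_cases hx2 : x2 ∈ Set.range (algebraMap F D)
  · obtain ⟨c, hc⟩ := hx2
    have h1 : Tri (Ψ x0 + θ • Ψ x1) := by
      refine sta_tri_one (s := 1) (c := θ ^ 2 * algebraMap F K c) one_ne_zero hT ?_
      rw [← hc, sta_alg, smul_smul, one_smul]
      abel
    refine sta_lin θ hθ Ψ hΨ x0 x1 ?_ h1
    rcases hx with h | h | h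
    · exact Or.inl h
    · exact Or.inr h
    · exact absurd ⟨c, hc⟩ h
  · have hP : ∀ i : ℕ, 0 < i → i < 5 → ∃ P : K[X], P.natDegree ≤ 2 * (5 - i) ∧
        (∀ t : F, P.eval (algebraMap F K t)
          = (Ψ (x0 + t • x1 + t ^ 2 • x2)).charpoly.coeff i) ∧ P.eval θ = 0 ∧
        P.coeff (2 * (5 - i)) = (Ψ x2).charpoly.coeff i := by
      intro i hi hi5
      obtain ⟨P, h1, h2, h3⟩ := deg_quad (Ψ x0) (Ψ x1) (Ψ x2) i hi5.le
      refine ⟨P, h1, fun t => ?_, ?_, h3⟩
      · rw [h2, map_add, map_add, map_smul, map_smul, ← map_pow, algebraMap_smul, algebraMap_smul]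
      · rw [h2]
        exact sta_tri _ hT i hi hi5
    obtain ⟨P4, a1, a2, a3, a4⟩ := hP 4 (by norm_num) (by norm_num)
    obtain ⟨P3, b1, b2, b3, b4⟩ := hP 3 (by norm_num) (by norm_num)
    obtain ⟨P2, c1, c2, c3, c4⟩ := hP 2 (by norm_num) (by norm_num)
    have hP4 : P4 = 0 := rat_zero θ 5 hθ P4 (fun t => by rw [a2]; exact hΨ _ _) a3 (by omega)
    have hP3 : P3 = 0 := rat_zero θ 5 hθ P3 (fun t => by rw [b2]; exact hΨ _ _) b3 (by omega)
    rcases rat_root θ 5 hθ (by norm_num) P2 (fun t => by rw [c2]; exact hΨ _ _) c3 (by omega) with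
      ⟨t, ht⟩ | h6
    · have hG : Gd (Ψ (x0 + t • x1 + t ^ 2 • x2)) := by
        refine ⟨?_, ?_, ?_⟩
        · rw [← a2, hP4, eval_zero]
        · rw [← b2, hP3, eval_zero]
        · rw [← c2, ht]
      by_cases hx' : x0 + t • x1 + t ^ 2 • x2 ∈ Set.range (algebraMap F D)
      · obtain ⟨c, hc⟩ := hx'
        have h1 : Tri (Ψ (x1 + t • x2) + θ • Ψ x2) := by
          refine sta_tri_one (s := θ - algebraMap F K t) (c := algebraMap F K c) (sta_ne θ hθ t) hT ?_
          rw [← sta_alg Ψ c, hc, map_add, map_add, map_add, map_smul, map_smul, map_smul]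
          have e1 : t • Ψ x1 = algebraMap F K t • Ψ x1 := (algebraMap_smul K t _).symm
          have e2 : t • Ψ x2 = algebraMap F K t • Ψ x2 := (algebraMap_smul K t _).symm
          have e3 : t ^ 2 • Ψ x2 = (algebraMap F K t) ^ 2 • Ψ x2 := by
            rw [← map_pow, algebraMap_smul]
          rw [e1, e2, e3]
          module
        exact sta_lin θ hθ Ψ hΨ _ _ (Or.inr hx2) h1
      · exact ⟨_, hx', hG⟩
    · refine ⟨x2, hx2, ?_, ?_, ?_⟩
      · rw [← a4, hP4, coeff_zero]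
      · rw [← b4, hP3, coeff_zero]
      · rw [← c4]
        exact h6

end

theorem sta_infinite {F : Type u} {D : Type v} [Field F] [DivisionRing D] [Algebra F D]
    [Algebra.IsCentral F D] [FiniteDimensional F D] (h : Module.finrank F D = 5 ^ 2) : Infinite F := by
  by_contra hF
  rw [not_infinite_iff_finite] at hF
  have hD : Finite D := Module.finite_of_finite F
  have hcomm : ∀ x y : D, x * y = y * x := fun x y => (littleWedderburn D).mul_comm x y
  have h1 : (⊥ : Subalgebra F D) = ⊤ := by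
    rw [← Algebra.IsCentral.center_eq_bot F D]
    exact eq_top_iff.mpr fun x _ => Subalgebra.mem_center_iff.mpr fun y => hcomm y x
  have h2 := Subalgebra.bot_eq_top_iff_finrank_eq_one.mp h1
  omega

theorem sta {F : Type u} {D : Type v} [Field F] [DivisionRing D] [Algebra F D]
    [Algebra.IsCentral F D] [FiniteDimensional F D] [CharP F 5] (h : Module.finrank F D = 5 ^ 2) :
    ∃ (x : D) (δ γ : F), x ∉ Set.range (algebraMap F D) ∧ x ^ 5 = δ • x + algebraMap F D γ := by
  have : Infinite F := sta_infinite h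
  obtain ⟨K, _, _, _, θ, Ψ, hK, hθ, hΨ⟩ := spl (F := F) (D := D) (p := 5) (by norm_num) h
  have : CharP K 5 := charP_of_injective_algebraMap (algebraMap F K).injective 5
  have hΨ' : ∀ (x : D) (i : ℕ), (Ψ x).charpoly.coeff i ∈ Set.range (algebraMap F K) := by
    intro x i
    obtain ⟨q, _, _, _, hq⟩ := hΨ x
    rw [hq, coeff_map]
    exact ⟨_, rfl⟩
  obtain ⟨x0, x1, x2, hx, a, ha1, ha2⟩ := lin (F := F) (D := D) (K := K) (by rw [h]; norm_num) hK θ
    Ψ.toLinearMap
  obtain ⟨x, hxF, hG⟩ := sta_good θ hθ Ψ hΨ' x0 x1 x2 hx ⟨a, ha1, ha2⟩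
  obtain ⟨q, hqm, hqd, hqx, hq⟩ := hΨ x
  have hinj := (algebraMap F K).injective
  have hc : ∀ i, (Ψ x).charpoly.coeff i = 0 → q.coeff i = 0 := by
    intro i hi
    rw [hq, coeff_map] at hi
    exact hinj (by rw [hi, map_zero])
  have h4 := hc 4 hG.1
  have h3 := hc 3 hG.2.1
  have h2 := hc 2 hG.2.2
  have h5 : q.coeff 5 = 1 := by
    have := hqm.coeff_natDegree
    rwa [hqd] at this
  rw [aeval_eq_sum_range' (n := 6) (by omega)] at hqx
  simp only [Finset.sum_range_succ, Finset.range_zero, Finset.sum_empty, pow_zero, pow_one, h2, h3,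
    h4, h5, zero_smul, one_smul, zero_add, add_zero] at hqx
  refine ⟨x, -q.coeff 1, -q.coeff 0, hxF, ?_⟩
  rw [map_neg, neg_smul, Algebra.algebraMap_eq_smul_one]
  rw [← sub_eq_zero, ← hqx]
  abel

end Pool.Agent.H84.CY
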